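import Mathlib
import Pool.Agent.N675.Exp

/-! Definitions for the theorem on three point correlations along almost all dilates. -/

namespace Pool.Agent.N675.A3

open Finset

/-- `E_{n ≤ x} | E_{k < K} f(n + b k) f(n + b k + m) e(k θ) |^2` -/
noncomputable def SS (f : ℕ → ℝ) (b x K m : ℕ) (θ : ℝ) : ℝ :=
  (∑ n ∈ Icc 1 x, ‖(∑ k ∈ range K,
    ((f (n + b * k) * f (n + b * k + m) : ℝ) : ℂ) * eR (k * θ)) / K‖ ^ 2) / x

/-- major arcs -/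
def MA (Q K : ℕ) (θ : ℝ) : Prop :=
  ∃ q : ℕ, 0 < q ∧ q ≤ Q ∧ ∃ j : ℤ, |(q : ℝ) * θ - j| ≤ (Q : ℝ) / K

/-- the three point correlations -/
noncomputable def TT (f : ℕ → ℝ) (b₁ b₂ x : ℕ) (γ : ℝ) (d : ℕ) : ℂ :=
  (∑ n ∈ Icc 1 x, eR (γ * n) * ((f n * f (n + b₁ * d) * f (n + b₂ * d) : ℝ) : ℂ)) / x

/-- the quantity after two applications of the Cauchy-Schwarz inequality -/
noncomputable def QQ (f : ℕ → ℝ) (b b₂ x D : ℕ) (c : ℕ → ℂ) (h h' : ℕ) : ℝ :=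
  (∑ n ∈ Icc 1 x, ‖(∑ d ∈ Icc 1 D, c (d + h) * (starRingEnd ℂ) (c (d + h')) *
    ((f (n + b * d + b₂ * h) * f (n + b * d + b₂ * h') : ℝ) : ℂ)) / D‖ ^ 2) / x

end Pool.Agent.N675.A3
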