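import Mathlib
import Pool.Agent.N675.A3.Defs

/-! Statements of the steps. -/

namespace Pool.Agent.N675.A3

open Finset

/-- T1 -/
def S_T1 : Prop :=
  ∀ δ δ₁ : ℝ, 0 < δ → δ ≤ 1 → 0 < δ₁ → δ₁ ≤ 1 →
    ∃ C₀ : ℝ, 0 < C₀ ∧ ∀ P R : ℕ, 0 < P → 0 < R → ∃ Q : ℕ, 0 < Q ∧
      ∀ f : ℕ → ℝ, (∀ n, |f n| ≤ 1) → ∀ (b x y K K₁ m : ℕ) (A : Finset ℕ) (θ : ℕ → ℝ),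
        0 < K₁ → K₁ ≤ K → K ≤ R * K₁ → Q * m ≤ x →
        (∀ p ∈ A, P ≤ p ∧ p < 2 * P) → C₀ * P ≤ (A.card : ℝ) ^ 2 →
        (∀ p ∈ A, δ ≤ SS f b x K (p * m) (θ p)) →
        (∀ p ∈ A, δ₁ ≤ SS f b y K₁ m (p * θ p)) →
        ∃ p ∈ A, MA Q K (θ p)

/-- T2 -/
def S_T2 : Prop :=
  ∀ f : ℕ → ℝ, (∀ n, |f n| ≤ 1) → ∀ b b₂ x K D H Q : ℕ, 0 < x → 0 < D → 0 < H → H ≤ D → D ≤ K →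
    0 < Q → ∀ c : ℕ → ℂ, (∀ t, ‖c t‖ ≤ 1) → ∀ δ ρ ε₁ : ℝ, 0 ≤ δ → 0 ≤ ρ → 0 ≤ ε₁ →
    ∀ Bad : Finset ℕ, (Bad.card : ℝ) ≤ ρ * H →
      (∀ g ∈ Icc 1 H, g ∉ Bad → ∀ θ : ℝ, ¬ MA Q K θ → SS f b x K (b₂ * g) θ ≤ δ) →
      (∀ ξ : ℝ, ‖∑ t ∈ Icc 1 (D + H), c t * eR (t * ξ)‖ ≤ ε₁ * D) →
      (∑ h ∈ Icc 1 H, ∑ h' ∈ Icc 1 H, QQ f b b₂ x D c h h') / (H : ℝ) ^ 2 ≤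
        1 / H + 2 * ρ + 2 * D / K + 2 * δ * K / D + 20 * (Q : ℝ) ^ 2 * ε₁ ^ 2 * D / H
          + 10 * (b * K + b₂ * H) / x

/-- T3 -/
def S_T3 : Prop :=
  ∀ f : ℕ → ℝ, (∀ n, |f n| ≤ 1) → ∀ b₁ b x D H : ℕ, 0 < x → 0 < D → 0 < H → H ≤ D → ∀ γ : ℝ,
    ((∑ d ∈ Icc 1 D, ‖TT f b₁ (b₁ + b) x γ d‖ ^ 2) / D) ^ 2 - 4 * H / D - 4 * b₁ * D / x ≤
      Real.sqrt ((∑ h ∈ Icc 1 H, ∑ h' ∈ Icc 1 H,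
        QQ f b (b₁ + b) x D (fun d => (starRingEnd ℂ) (TT f b₁ (b₁ + b) x γ d)) h h') / (H : ℝ) ^ 2)

end Pool.Agent.N675.A3
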