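import Mathlib
import Pool.Agent.N675.Eng3

/-! The entropy decrement estimate for families of functions indexed by the primes, with arbitrary
residues. -/

namespace Pool.Agent.N675

open Finset

section

variable {σ : Type} [Fintype σ] [DecidableEq σ] {α : Type}

theorem grp_decF [Fintype α] (u : σ → ℤ) (A A0 : ℕ) (hA : 0 < A) (P : Finset ℕ)
    (hP : ∀ p ∈ P, p.Prime) (L : ℕ)
    (hL : ∀ p ∈ P, ∀ s, (A * Hp p + A0 * Hp p) * (u s).natAbs + Hp p ≤ L)
    (N : σ → ℕ) [∀ s, NeZero (N s)] (hdvd : ∀ p ∈ P, ∀ s, p ∣ N s)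
    (F : ℕ → (σ → ℤ) → ℂ) (hF : ∀ p ∈ P, ∀ y, ‖F p y‖ ≤ 1) (o : ℕ → σ → ℤ) (w : (σ → ℤ) → α)
    (η : ℝ) (hη : 0 ≤ η)
    (hFLC : ∀ p ∈ P, ∃ dec : (Fin (A * Hp p) → α) → (σ → Fin (Hp p)) → ℂ, (∀ a v, ‖dec a v‖ ≤ 1) ∧
      ∀ (y : σ → ℤ) (v : σ → Fin (Hp p)),
        ‖F p (fun s => y s + (((A0 * Hp p : ℕ) : ℤ) * u s + (((v s : Fin (Hp p)) : ℕ) : ℤ)))
          - dec (fun j => w (fun s => y s + (((j : Fin (A * Hp p)) : ℕ) : ℤ) * u s)) v‖ ≤ η)
    (t : ℝ) (ht : 0 < t)
    (htC : t * (2 ^ Fintype.card σ + 1) ≤ 1) :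
    ∑ p ∈ P, (1 / ((A * Hp p : ℕ) : ℝ)) * (‖∑ z ∈ Box N, F p z
        * ((dvi p (fun s => z s + o p s) - 1 : ℝ) : ℂ)‖
        / ∏ s, (N s : ℝ))
      ≤ Real.log (Fintype.card α) / t + (t * (2 ^ Fintype.card σ + 1) ^ 2
        + (2 ^ Fintype.card σ + 1) * (η + 2 * ∑ s, 2 * (L : ℝ) / N s))
          * ∑ p ∈ P, 1 / ((A * Hp p : ℕ) : ℝ) := by
  classical
  set n := Fintype.card σ with hn
  set Cn : ℝ := 2 ^ n + 1 with hCn
  have hCn0 : 0 < Cn := by positivity
  set PN : ℝ := ∏ s, (N s : ℝ) with hPN
  have hPN0 : 0 < PN := Finset.prod_pos fun s _ => by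
    exact_mod_cast Nat.pos_of_ne_zero (NeZero.ne (N s))
  set Dl : ℕ → ℂ := fun p => ∑ z ∈ Box N, F p z
    * ((dvi p (fun s => z s + o p s) - 1 : ℝ) : ℂ) with hDl
  choose! dec hdec1 hdec2 using hFLC
  choose c hc1 hc2 using fun p => exists_phase (Dl p)
  set τ := shf N u with hτ
  set wΩ : ((s : σ) → ZMod (N s)) → α := fun y => w (lift N y) with hwΩ
  set Y : ℕ → ((s : σ) → ZMod (N s)) → (σ → ℤ) := fun p y s => lift N y s % (p : ℤ) with hYdef
  set cv : (p : ℕ) → (σ → Fin (Hp p)) → σ → ℤ := fun p v s =>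
    ((A0 * Hp p : ℕ) : ℤ) * u s + (((v s : Fin (Hp p)) : ℕ) : ℤ) with hcv
  set G : (p : ℕ) → (Fin (A * Hp p) → α) → (σ → ℤ) → ℝ := fun p a r =>
    (c p * ((1 / ((Hp p : ℝ) ^ n : ℝ) : ℝ) * ∑ v : σ → Fin (Hp p), dec p a v
      * ((dvi p (fun s => r s + cv p v s + o p s) - 1 : ℝ) : ℂ))).re with hG
  have hHpos : ∀ p, (0 : ℝ) < (Hp p : ℝ) ^ n := fun p => by
    have : (0 : ℝ) < Hp p := by exact_mod_cast Hp_pos p
    positivity
  -- bounds for `G`
  have hGb : ∀ p ∈ P, ∀ a r, |G p a r| ≤ Cn := by
    intro p hp a r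
    refine (Complex.abs_re_le_norm _).trans ?_
    rw [norm_mul, norm_mul, Complex.norm_real, Real.norm_of_nonneg (by
      have := hHpos p; positivity)]
    have h1 : ‖∑ v : σ → Fin (Hp p), dec p a v
        * ((dvi p (fun s => r s + cv p v s + o p s) - 1 : ℝ) : ℂ)‖
        ≤ Cn * (Hp p : ℝ) ^ n := by
      refine (norm_sum_le _ _).trans ?_
      have h2 := sum_abs_dvi_le p (Hp p) (hP p hp).pos (lt_Hp p).le
        (fun s => r s + ((A0 * Hp p : ℕ) : ℤ) * u s + o p s)
      refine le_trans (Finset.sum_le_sum fun v _ => ?_) h2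
      rw [norm_mul, Complex.norm_real, Real.norm_eq_abs]
      have h3 : (fun s => r s + cv p v s + o p s)
          = (fun s => r s + ((A0 * Hp p : ℕ) : ℤ) * u s + o p s + (((v s : Fin (Hp p)) : ℕ) : ℤ)) := by
        funext s
        simp only [hcv]
        ring
      rw [h3]
      calc _ ≤ 1 * |dvi p (fun s => r s + ((A0 * Hp p : ℕ) : ℤ) * u s + o p s
              + (((v s : Fin (Hp p)) : ℕ) : ℤ)) - 1| :=
            mul_le_mul_of_nonneg_right (hdec1 p hp a v) (abs_nonneg _)
        _ = _ := one_mul _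
    calc ‖c p‖ * (1 / (Hp p : ℝ) ^ n * ‖∑ v : σ → Fin (Hp p), dec p a v
          * ((dvi p (fun s => r s + cv p v s + o p s) - 1 : ℝ) : ℂ)‖)
        ≤ 1 * (1 / (Hp p : ℝ) ^ n * (Cn * (Hp p : ℝ) ^ n)) := by
          refine mul_le_mul (hc1 p) ?_ ?_ zero_le_one
          · refine mul_le_mul_of_nonneg_left h1 ?_
            have := hHpos p
            positivity
          · have := hHpos p
            positivity
      _ = Cn := by
          have := (hHpos p).ne'
          field_simp
  -- mean zero
  have hmean : ∀ p ∈ P, ∀ a, ∀ y : (s : σ) → ZMod (N s), ∀ I : Finset ((s : σ) → ZMod (N s)),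
      (∀ z, z ∈ I ↔ ∀ q ∈ P, q < p → Y q z = Y q y) → ∑ z ∈ I, G p a (Y p z) = 0 := by
    intro p hp a y I hI
    have h1 : ∀ v : σ → Fin (Hp p),
        ∑ z ∈ I, ((dvi p (fun s => Y p z s + cv p v s + o p s) - 1 : ℝ) : ℂ) = 0 := by
      intro v
      have h2 := mean_zero N P hP hdvd p hp y I hI (fun s => cv p v s + o p s)
      have h3 : ∀ z ∈ I, ((dvi p (fun s => Y p z s + cv p v s + o p s) - 1 : ℝ) : ℂ)
          = ((dvi p (fun s => lift N z s + (cv p v s + o p s)) - 1 : ℝ) : ℂ) := by
        intro z _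
        congr 2
        refine dvi_congr p _ _ fun s => ?_
        rw [add_assoc]
        refine Int.ModEq.add_right _ ?_
        exact Int.mod_modEq _ _
      rw [Finset.sum_congr rfl h3, ← Complex.ofReal_sum, h2, Complex.ofReal_zero]
    simp only [hG]
    rw [← Complex.re_sum, ← Finset.mul_sum, ← Finset.mul_sum, Finset.sum_comm]
    rw [Finset.sum_eq_zero fun v _ => by rw [← Finset.mul_sum, h1 v, mul_zero]]
    simp
  -- compatibility with the shift
  have hcomp : ∀ p ∈ P, Comp τ (Y p) := by
    intro p hp y z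
    have h1 : ∀ y : (s : σ) → ZMod (N s), ∀ s, lift N (τ y) s ≡ lift N y s + u s [ZMOD p] :=
      fun y s => rep_add_modEq (hdvd p hp s) (y s) (u s)
    rw [funext_iff, funext_iff]
    refine forall_congr' fun s => ?_
    change (lift N y s ≡ lift N z s [ZMOD p]) ↔ (lift N (τ y) s ≡ lift N (τ z) s [ZMOD p])
    constructor
    · intro h
      exact (h1 y s).trans ((h.add_right _).trans (h1 z s).symm)
    · intro h
      exact Int.ModEq.add_right_cancel' (u s) ((h1 y s).symm.trans (h.trans (h1 z s)))
  have hTpos : ∀ j, 0 < A * Hp j := fun j => Nat.mul_pos hA (Hp_pos j)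
  have key := ent_dec τ wΩ Y P hcomp (fun j => A * Hp j) hTpos
    (fun j => Nat.mul_dvd_mul_left A (Hp_dvd j)) G Cn t ht.le htC hGb hmean
  -- comparison with `Dl`
  set β : ℝ := ∑ s, 2 * (L : ℝ) / N s with hβ
  have hcomp2 : ∀ p ∈ P, ‖Dl p‖ - Cn * (η + 2 * β) * PN
      ≤ ∑ y, G p (wnd τ wΩ (A * Hp p) y) (Y p y) := by
    intro p hp
    set good : ((s : σ) → ZMod (N s)) → Prop :=
      fun y => ∀ s, ((L : ℤ) < lift N y s ∧ lift N y s + L ≤ N s) with hgood
    have hbad := bad_card N L
    -- translation invariance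
    have htr : ∀ v : σ → Fin (Hp p), ∑ y : (s : σ) → ZMod (N s),
        F p (lift N (fun s => y s + ((cv p v s : ℤ) : ZMod (N s))))
          * ((dvi p (fun s => lift N y s + cv p v s + o p s) - 1 : ℝ) : ℂ) = Dl p := by
      intro v
      let g0 : ((s : σ) → ZMod (N s)) → ℂ :=
        fun z => F p (lift N z) * ((dvi p (fun s => lift N z s + o p s) - 1 : ℝ) : ℂ)
      let e0 : Equiv.Perm ((s : σ) → ZMod (N s)) :=
        Equiv.addRight (fun s => ((cv p v s : ℤ) : ZMod (N s)))
      have h1 : ∀ y : (s : σ) → ZMod (N s),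
          F p (lift N (fun s => y s + ((cv p v s : ℤ) : ZMod (N s))))
          * ((dvi p (fun s => lift N y s + cv p v s + o p s) - 1 : ℝ) : ℂ)
          = g0 (e0 y) := by
        intro y
        change _ = F p (lift N (fun s => y s + ((cv p v s : ℤ) : ZMod (N s))))
          * ((dvi p (fun s => lift N (fun s => y s + ((cv p v s : ℤ) : ZMod (N s))) s + o p s)
            - 1 : ℝ) : ℂ)
        congr 3
        refine dvi_congr p _ _ fun s => ?_
        exact ((rep_add_modEq (hdvd p hp s) (y s) (cv p v s)).add_right (o p s)).symm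
      calc _ = ∑ y, g0 (e0 y) := Finset.sum_congr rfl fun y _ => h1 y
        _ = ∑ y, g0 y := Equiv.sum_comp e0 g0
        _ = Dl p := sum_lift N (fun z => F p z * ((dvi p (fun s => z s + o p s) - 1 : ℝ) : ℂ))
    have hsumG : ∑ y, G p (wnd τ wΩ (A * Hp p) y) (Y p y)
        = (c p * ((1 / ((Hp p : ℝ) ^ n : ℝ) : ℝ) * ∑ v : σ → Fin (Hp p), ∑ y,
          dec p (wnd τ wΩ (A * Hp p) y) v
            * ((dvi p (fun s => lift N y s + cv p v s + o p s) - 1 : ℝ) : ℂ))).re := by
      simp only [hG]
      rw [← Complex.re_sum, ← Finset.mul_sum, ← Finset.mul_sum, Finset.sum_comm]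
      refine congrArg (fun z => (c p * ((1 / ((Hp p : ℝ) ^ n : ℝ) : ℝ) * z)).re) ?_
      refine Finset.sum_congr rfl fun v _ => Finset.sum_congr rfl fun y _ => ?_
      congr 3
      refine dvi_congr p _ _ fun s => ?_
      refine Int.ModEq.add_right _ ?_
      refine Int.ModEq.add_right _ ?_
      exact Int.mod_modEq _ _
    have hDlre : ‖Dl p‖ = (c p * ((1 / ((Hp p : ℝ) ^ n : ℝ) : ℝ) * ∑ v : σ → Fin (Hp p), ∑ y,
          F p (lift N (fun s => y s + ((cv p v s : ℤ) : ZMod (N s))))
          * ((dvi p (fun s => lift N y s + cv p v s + o p s) - 1 : ℝ) : ℂ))).re := by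
      rw [Finset.sum_congr rfl fun v _ => htr v, Finset.sum_const, Finset.card_univ,
        Fintype.card_fun, Fintype.card_fin, ← hn, nsmul_eq_mul]
      have h1 : (((1 / ((Hp p : ℝ) ^ n : ℝ) : ℝ)) : ℂ) * (((Hp p ^ n : ℕ) : ℂ) * Dl p) = Dl p := by
        have h2 : ((Hp p : ℂ) ^ n) ≠ 0 := by
          have := (hHpos p).ne'
          exact_mod_cast this
        push_cast
        field_simp
      rw [h1, hc2 p, Complex.ofReal_re]
    have hdiff : ‖Dl p‖ - ∑ y, G p (wnd τ wΩ (A * Hp p) y) (Y p y) ≤ Cn * (η + 2 * β) * PN := by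
      rw [hDlre, hsumG, ← Complex.sub_re, ← mul_sub, ← mul_sub, ← Finset.sum_sub_distrib]
      refine (Complex.re_le_norm _).trans ?_
      rw [norm_mul, norm_mul, Complex.norm_real, Real.norm_of_nonneg (by
        have := hHpos p; positivity)]
      have h1 : ‖∑ v : σ → Fin (Hp p), (∑ y : (s : σ) → ZMod (N s),
          F p (lift N (fun s => y s + ((cv p v s : ℤ) : ZMod (N s))))
          * ((dvi p (fun s => lift N y s + cv p v s + o p s) - 1 : ℝ) : ℂ)
          - ∑ y, dec p (wnd τ wΩ (A * Hp p) y) v
            * ((dvi p (fun s => lift N y s + cv p v s + o p s) - 1 : ℝ) : ℂ))‖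
          ≤ ∑ y : (s : σ) → ZMod (N s), (Cn * (Hp p : ℝ) ^ n) * (if good y then η else 2) := by
        refine (norm_sum_le _ _).trans ?_
        calc _ ≤ ∑ v : σ → Fin (Hp p), ∑ y : (s : σ) → ZMod (N s),
              |dvi p (fun s => lift N y s + cv p v s + o p s) - 1| * (if good y then η else 2) := by
              refine Finset.sum_le_sum fun v _ => ?_
              rw [← Finset.sum_sub_distrib]
              refine (norm_sum_le _ _).trans (Finset.sum_le_sum fun y _ => ?_)
              rw [← sub_mul, norm_mul, Complex.norm_real, Real.norm_eq_abs, mul_comm]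
              refine mul_le_mul_of_nonneg_left ?_ (abs_nonneg _)
              split_ifs with hg
              · -- good points
                have hrange : ∀ s (e : ℤ), |e| ≤ L → rep (y s + ((e : ℤ) : ZMod (N s)))
                    = lift N y s + e := by
                  intro s e he
                  have h2 := hg s
                  have h3 := abs_le.mp he
                  exact rep_add (y s) e (by unfold lift at h2; omega) (by unfold lift at h2; omega)
                have hcvL : ∀ s, |cv p v s| ≤ L := by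
                  intro s
                  have h2 := hL p hp s
                  have h3 : ((v s : Fin (Hp p)) : ℕ) < Hp p := (v s).2
                  simp only [hcv]
                  refine (abs_add_le _ _).trans ?_
                  rw [abs_mul, Nat.abs_cast, Nat.abs_cast, ← Int.natCast_natAbs]
                  have h4 : (A0 * Hp p) * (u s).natAbs + ((v s : Fin (Hp p)) : ℕ) ≤ L := by
                    have h5 : (A0 * Hp p) * (u s).natAbs
                        ≤ (A * Hp p + A0 * Hp p) * (u s).natAbs :=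
                      Nat.mul_le_mul_right _ (Nat.le_add_left _ _)
                    omega
                  exact_mod_cast h4
                have e1 : lift N (fun s => y s + ((cv p v s : ℤ) : ZMod (N s)))
                    = fun s => lift N y s + cv p v s := by
                  funext s
                  exact hrange s _ (hcvL s)
                have e2 : wnd τ wΩ (A * Hp p) y
                    = fun j => w (fun s => lift N y s + (((j : Fin (A * Hp p)) : ℕ) : ℤ) * u s) := by
                  funext j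
                  change w (lift N ((shf N u ^ (j : ℕ)) y)) = _
                  rw [shf_pow]
                  congr 1
                  funext s
                  refine hrange s _ ?_
                  have h2 := hL p hp s
                  have h3 : (j : ℕ) < A * Hp p := j.2
                  rw [abs_mul, Nat.abs_cast, ← Int.natCast_natAbs]
                  have h4 : (j : ℕ) * (u s).natAbs ≤ L := by
                    have h5 : (j : ℕ) * (u s).natAbs ≤ (A * Hp p + A0 * Hp p) * (u s).natAbs :=
                      Nat.mul_le_mul_right _ (by omega)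
                    omega
                  exact_mod_cast h4
                rw [e1, e2]
                exact hdec2 p hp (lift N y) v
              · refine (norm_sub_le _ _).trans ?_
                have h2 := hF p hp (lift N (fun s => y s + ((cv p v s : ℤ) : ZMod (N s))))
                have h3 := hdec1 p hp (wnd τ wΩ (A * Hp p) y) v
                linarith
          _ = ∑ y : (s : σ) → ZMod (N s), ∑ v : σ → Fin (Hp p),
              |dvi p (fun s => lift N y s + cv p v s + o p s) - 1| * (if good y then η else 2) :=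
              Finset.sum_comm
          _ ≤ _ := by
              refine Finset.sum_le_sum fun y _ => ?_
              rw [← Finset.sum_mul]
              refine mul_le_mul_of_nonneg_right ?_ (by split_ifs <;> linarith)
              have h2 := sum_abs_dvi_le p (Hp p) (hP p hp).pos (lt_Hp p).le
                (fun s => lift N y s + ((A0 * Hp p : ℕ) : ℤ) * u s + o p s)
              refine le_trans (le_of_eq ?_) h2
              refine Finset.sum_congr rfl fun v _ => ?_
              congr 3
              funext s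
              simp only [hcv]
              ring
      have h2 : ∑ y : (s : σ) → ZMod (N s), (if good y then η else 2) ≤ (η + 2 * β) * PN := by
        calc ∑ y : (s : σ) → ZMod (N s), (if good y then η else 2)
            ≤ ∑ y : (s : σ) → ZMod (N s), (η + (if ¬ good y then (2 : ℝ) else 0)) := by
              refine Finset.sum_le_sum fun y _ => ?_
              split_ifs <;> linarith
          _ = PN * η + 2 * (((univ : Finset ((s : σ) → ZMod (N s))).filter
              (fun y => ¬ good y)).card : ℝ) := by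
              rw [Finset.sum_add_distrib, Finset.sum_const, Finset.card_univ, nsmul_eq_mul,
                card_grp, ← Finset.sum_filter, Finset.sum_const, nsmul_eq_mul]
              ring
          _ ≤ PN * η + 2 * (β * PN) := by
              have := bad_card N L
              have h3 : (((univ : Finset ((s : σ) → ZMod (N s))).filter
                (fun y => ¬ good y)).card : ℝ) ≤ β * PN := this
              linarith
          _ = _ := by ring
      calc ‖c p‖ * (1 / (Hp p : ℝ) ^ n * ‖∑ v : σ → Fin (Hp p), (∑ y : (s : σ) → ZMod (N s),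
          F p (lift N (fun s => y s + ((cv p v s : ℤ) : ZMod (N s))))
          * ((dvi p (fun s => lift N y s + cv p v s + o p s) - 1 : ℝ) : ℂ)
          - ∑ y, dec p (wnd τ wΩ (A * Hp p) y) v
            * ((dvi p (fun s => lift N y s + cv p v s + o p s) - 1 : ℝ) : ℂ))‖)
          ≤ 1 * (1 / (Hp p : ℝ) ^ n * ((Cn * (Hp p : ℝ) ^ n) * ((η + 2 * β) * PN))) := by
            refine mul_le_mul (hc1 p) ?_ ?_ zero_le_one
            · have h3 := hHpos p
              refine mul_le_mul_of_nonneg_left (h1.trans ?_) (by positivity)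
              rw [← Finset.mul_sum]
              exact mul_le_mul_of_nonneg_left h2 (by positivity)
            · have := hHpos p
              positivity
        _ = _ := by
            have := (hHpos p).ne'
            field_simp
    linarith
  -- conclusion
  have hTp : ∀ p, (0 : ℝ) < ((A * Hp p : ℕ) : ℝ) := fun p => by exact_mod_cast hTpos p
  have h1 : t * ∑ p ∈ P, (1 / ((A * Hp p : ℕ) : ℝ)) * (‖Dl p‖ - Cn * (η + 2 * β) * PN)
      ≤ PN * (Real.log (Fintype.card α) + t ^ 2 * Cn ^ 2 * ∑ p ∈ P, 1 / ((A * Hp p : ℕ) : ℝ)) := by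
    rw [card_grp] at key
    refine le_trans ?_ key
    refine mul_le_mul_of_nonneg_left (Finset.sum_le_sum fun p hp => ?_) ht.le
    refine mul_le_mul_of_nonneg_left (hcomp2 p hp) ?_
    have := hTp p
    positivity
  have h2 : ∑ p ∈ P, (1 / ((A * Hp p : ℕ) : ℝ)) * (‖Dl p‖ - Cn * (η + 2 * β) * PN)
      = PN * (∑ p ∈ P, (1 / ((A * Hp p : ℕ) : ℝ)) * (‖Dl p‖ / PN)
        - Cn * (η + 2 * β) * ∑ p ∈ P, 1 / ((A * Hp p : ℕ) : ℝ)) := by
    obtain ⟨K0, hK0⟩ : ∃ K0, K0 = Cn * (η + 2 * β) := ⟨_, rfl⟩
    rw [← hK0]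
    rw [mul_sub, Finset.mul_sum, Finset.mul_sum, Finset.mul_sum, ← Finset.sum_sub_distrib]
    refine Finset.sum_congr rfl fun p _ => ?_
    have := hPN0.ne'
    field_simp
  rw [h2] at h1
  set S := ∑ p ∈ P, 1 / ((A * Hp p : ℕ) : ℝ) with hS
  set D := ∑ p ∈ P, (1 / ((A * Hp p : ℕ) : ℝ)) * (‖Dl p‖ / PN) with hD
  have h3 : t * (D - Cn * (η + 2 * β) * S)
      ≤ Real.log (Fintype.card α) + t ^ 2 * Cn ^ 2 * S := by
    have h4 : PN * (t * (D - Cn * (η + 2 * β) * S))
        ≤ PN * (Real.log (Fintype.card α) + t ^ 2 * Cn ^ 2 * S) := by linarith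
    exact le_of_mul_le_mul_left h4 hPN0
  have h4 : D - Cn * (η + 2 * β) * S ≤ (Real.log (Fintype.card α) + t ^ 2 * Cn ^ 2 * S) / t := by
    rw [le_div_iff₀ ht]
    linarith
  have h5 : (Real.log (Fintype.card α) + t ^ 2 * Cn ^ 2 * S) / t
      = Real.log (Fintype.card α) / t + t * Cn ^ 2 * S := by
    field_simp
  rw [h5] at h4
  calc D ≤ Real.log (Fintype.card α) / t + t * Cn ^ 2 * S + Cn * (η + 2 * β) * S := by linarith
    _ = _ := by ring

end

end Pool.Agent.N675
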