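import Mathlib
import Pool.Agent.N675.A3.Eng4

/-! The entropy decrement estimate in one variable, for local functions depending on the prime. -/

namespace Pool.Agent.N675.A3

open Finset

/-- `p` times the indicator function of the multiples of `p` -/
noncomputable def dv (p : ℕ) (t : ℤ) : ℝ := if (p : ℤ) ∣ t then (p : ℝ) else 0

lemma dv_nonneg (p : ℕ) (t : ℤ) : 0 ≤ dv p t := by
  unfold dv; split_ifs <;> positivity

lemma dv_le (p : ℕ) (t : ℤ) : dv p t ≤ p := by
  unfold dv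
  split_ifs
  · exact le_refl _
  · positivity

lemma abs_dv_sub_one (p : ℕ) (hp : 0 < p) (t : ℤ) : |dv p t - 1| ≤ p := by
  have h1 := dv_nonneg p t
  have h2 := dv_le p t
  have h3 : (1 : ℝ) ≤ p := by exact_mod_cast hp
  rw [abs_le]
  constructor <;> linarith

lemma dvi_unit (p : ℕ) (z : Unit → ℤ) : dvi p z = dv p (z ()) := by
  unfold dvi dv
  have h : (∀ s : Unit, (p : ℤ) ∣ z s) ↔ (p : ℤ) ∣ z () := ⟨fun h => h (), fun h _ => h⟩
  simp only [h, Fintype.card_unit, pow_one]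

lemma sum_box_unit (N : ℕ) (g : ℤ → ℂ) :
    ∑ z ∈ Box (fun _ : Unit => N), g (z ()) = ∑ t ∈ Icc (1 : ℤ) N, g t := by
  refine Finset.sum_bij (fun z _ => z ()) ?_ ?_ ?_ ?_
  · intro z hz
    rw [mem_Box] at hz
    rw [mem_Icc]
    exact hz ()
  · intro z _ z' _ h
    funext s
    exact h
  · intro t ht
    rw [mem_Icc] at ht
    exact ⟨fun _ => t, by rw [mem_Box]; exact fun _ => ht, rfl⟩
  · intro z _
    rfl

theorem ed2 {χ : Type} [Fintype χ] (L : ℕ) (ε : ℝ) (hε : 0 < ε) :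
    ∃ C : ℝ, 0 ≤ C ∧ ∀ P : Finset ℕ, (∀ p ∈ P, p.Prime) → ∃ K : ℕ, 0 < K ∧ ∀ T : ℕ, K ≤ T →
      ∀ (X : ℤ → χ) (G : ℕ → ℤ → ℂ) (a : ℕ → ℤ), (∀ p ∈ P, ∀ t, ‖G p t‖ ≤ 1) →
        (∀ p ∈ P, ∀ t t' : ℤ, (∀ j : ℕ, j ≤ L * p → X (t + j) = X (t' + j)) → G p t = G p t') →
        ∑ p ∈ P, (1 / (p : ℝ)) *
          (‖∑ t ∈ Icc (1 : ℤ) T, G p t * ((dv p (t + a p) - 1 : ℝ) : ℂ)‖ / T)
          ≤ C + ε * ∑ p ∈ P, 1 / (p : ℝ) := by
  classical
  set t : ℝ := min ε 1 / 36 with ht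
  have hmin : 0 < min ε 1 := lt_min hε one_pos
  have ht0 : 0 < t := by rw [ht]; positivity
  have ht1 : t * (2 ^ Fintype.card Unit + 1) ≤ 1 := by
    have := min_le_right ε 1
    simp only [Fintype.card_unit]
    rw [ht]
    linarith
  have ht2 : 18 * t ≤ ε / 2 := by
    have := min_le_left ε 1
    rw [ht]
    linarith
  set A : ℕ := L + 2 with hA
  have hA0 : 0 < A := by omega
  have hA' : (0 : ℝ) < A := by exact_mod_cast hA0
  have hlog : 0 ≤ Real.log (Fintype.card χ) := by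
    rcases Nat.eq_zero_or_pos (Fintype.card χ) with h | h
    · rw [h]; simp
    · exact Real.log_nonneg (by exact_mod_cast h)
  refine ⟨2 * A * (Real.log (Fintype.card χ) / t), by positivity, fun P hP => ?_⟩
  set PP : ℕ := ∏ p ∈ P, p with hPP
  have hPPpos : 0 < PP := Finset.prod_pos fun p hp => (hP p hp).pos
  have hdvd : ∀ p ∈ P, p ∣ PP := fun p hp => Finset.dvd_prod_of_mem _ hp
  have hple : ∀ p ∈ P, p ≤ PP := fun p hp => Nat.le_of_dvd hPPpos (hdvd p hp)
  set L' : ℕ := A * (2 * PP) + 2 * PP with hL'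
  obtain ⟨K2, hK2⟩ := exists_nat_ge ((192 * L' + 8 * PP * (PP + 1)) / ε : ℝ)
  refine ⟨K2 + 2 * PP + 1, by omega, fun T hT X G a hG hloc => ?_⟩
  rw [div_le_iff₀ hε] at hK2
  set N : ℕ := PP * (T / PP) with hN
  have hNle : N ≤ T := Nat.mul_div_le T PP
  have hTlt : T < N + PP := by
    have h1 := Nat.div_add_mod T PP
    have h2 := Nat.mod_lt T hPPpos
    simp only [hN]
    omega
  have hNpos : 0 < N := by omega
  have hNZ : NeZero N := ⟨hNpos.ne'⟩
  have key := grp_decF (σ := Unit) (α := χ) (fun _ => 1) A 0 hA0 P hP L' (by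
      intro p hp s
      have h1 : Hp p ≤ 2 * PP := (Hp_le (hP p hp).pos).trans (Nat.mul_le_mul_left 2 (hple p hp))
      have h2 : A * Hp p ≤ A * (2 * PP) := Nat.mul_le_mul_left A h1
      simp only [Int.natAbs_one, mul_one, zero_mul, add_zero]
      omega) (fun _ => N) (fun p hp s => (hdvd p hp).mul_right _)
    (fun p y => G p (y ())) (fun p hp y => hG p hp _) (fun p _ => a p) (fun y => X (y ()))
    0 (le_refl _) (by
      intro p hp
      let W : ℤ → Fin (A * Hp p) → χ := fun y j => X (y + ((j : ℕ) : ℤ))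
      refine ⟨fun c v => if h : ∃ y, W y = c then G p (h.choose + (((v () : Fin (Hp p)) : ℕ) : ℤ))
        else 0, ?_, ?_⟩
      · intro c v
        dsimp only
        split_ifs with h
        · exact hG p hp _
        · simp
      · intro y v
        have e1 : (fun j : Fin (A * Hp p) => X ((fun s : Unit => y s + ((j : ℕ) : ℤ) * 1) ()))
            = W (y ()) := by
          funext j
          simp only [mul_one]
          rfl
        have hex : ∃ y', W y' = W (y ()) := ⟨y (), rfl⟩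
        have e2 := hex.choose_spec
        have e3 : G p (y () + (((v () : Fin (Hp p)) : ℕ) : ℤ))
            = G p (hex.choose + (((v () : Fin (Hp p)) : ℕ) : ℤ)) := by
          refine hloc p hp _ _ fun j hj => ?_
          have hv := (v ()).2
          have hlt : ((v () : Fin (Hp p)) : ℕ) + j < A * Hp p := by
            have h3 : L * p ≤ L * Hp p := Nat.mul_le_mul_left L (lt_Hp p).le
            have h4 : A * Hp p = L * Hp p + 2 * Hp p := by rw [hA]; ring
            have h5 := Hp_pos p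
            omega
          have e4 := congrFun e2 ⟨((v () : Fin (Hp p)) : ℕ) + j, hlt⟩
          simp only [W] at e4
          push_cast at e4
          rw [add_assoc, add_assoc]
          exact e4.symm
        have e5 : (fun s : Unit => y s + (((0 * Hp p : ℕ) : ℤ) * 1 + (((v s : Fin (Hp p)) : ℕ) : ℤ))) ()
            = y () + (((v () : Fin (Hp p)) : ℕ) : ℤ) := by
          simp
        dsimp only at e1 e5 ⊢
        rw [e1, e5, dif_pos hex, e3, sub_self, norm_zero]) t ht0 ht1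
  set S1 : ℝ := ∑ p ∈ P, 1 / (p : ℝ) with hS1
  have hS1nn : 0 ≤ S1 := Finset.sum_nonneg fun p _ => by positivity
  -- simplification of the key inequality
  have hsum : ∀ p, ∑ z ∈ Box (fun _ : Unit => N), G p (z ())
      * ((dvi p (fun s => z s + a p) - 1 : ℝ) : ℂ)
      = ∑ t ∈ Icc (1 : ℤ) N, G p t * ((dv p (t + a p) - 1 : ℝ) : ℂ) := by
    intro p
    rw [← sum_box_unit N (fun t => G p t * ((dv p (t + a p) - 1 : ℝ) : ℂ))]
    refine Finset.sum_congr rfl fun z _ => ?_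
    rw [dvi_unit]
  simp only [hsum, Fintype.card_unit, Finset.univ_unique, PUnit.default_eq_unit,
    Finset.prod_singleton, Finset.sum_singleton, zero_add] at key
  have hN0 : (0 : ℝ) < N := by exact_mod_cast hNpos
  have hT0 : (0 : ℝ) < T := by exact_mod_cast (by omega : 0 < T)
  have hNT : (N : ℝ) ≤ T := by exact_mod_cast hNle
  have hTN : (T : ℝ) ≤ 2 * N := by exact_mod_cast (by omega : T ≤ 2 * N)
  have hKT : (K2 : ℝ) ≤ T := by exact_mod_cast (by omega : K2 ≤ T)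
  have hsmall1 : 24 * (L' : ℝ) / N ≤ ε / 4 := by
    rw [div_le_iff₀ hN0]
    have h1 : 0 ≤ 8 * (PP : ℝ) * (PP + 1) := by positivity
    nlinarith
  have hsmall2 : (PP : ℝ) * (PP + 1) / T ≤ ε / 4 := by
    rw [div_le_iff₀ hT0]
    have h1 : 0 ≤ 192 * (L' : ℝ) := by positivity
    nlinarith
  -- from `N` to `T`
  have hcmp : ∀ p ∈ P, ‖∑ t ∈ Icc (1 : ℤ) T, G p t * ((dv p (t + a p) - 1 : ℝ) : ℂ)‖ / T
      ≤ ‖∑ t ∈ Icc (1 : ℤ) N, G p t * ((dv p (t + a p) - 1 : ℝ) : ℂ)‖ / N + ε / 4 := by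
    intro p hp
    have hb : ∀ t, ‖G p t * ((dv p (t + a p) - 1 : ℝ) : ℂ)‖ ≤ PP + 1 := by
      intro t
      rw [norm_mul, Complex.norm_real, Real.norm_eq_abs]
      have h1 := hG p hp t
      have h2 := abs_dv_sub_one p (hP p hp).pos (t + a p)
      have h3 : (p : ℝ) ≤ PP := by exact_mod_cast hple p hp
      calc _ ≤ 1 * (p : ℝ) := mul_le_mul h1 h2 (abs_nonneg _) zero_le_one
        _ ≤ _ := by linarith
    have h1 : ∑ t ∈ Icc (1 : ℤ) T, G p t * ((dv p (t + a p) - 1 : ℝ) : ℂ)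
        = ∑ t ∈ Icc (1 : ℤ) N, G p t * ((dv p (t + a p) - 1 : ℝ) : ℂ)
          + ∑ t ∈ Ioc (N : ℤ) T, G p t * ((dv p (t + a p) - 1 : ℝ) : ℂ) := by
      rw [← Finset.sum_union]
      · congr 1
        ext z
        simp only [mem_union, mem_Icc, mem_Ioc]
        have : (N : ℤ) ≤ T := by exact_mod_cast hNle
        omega
      · rw [Finset.disjoint_left]
        intro z hz hz'
        rw [mem_Icc] at hz
        rw [mem_Ioc] at hz'
        omega
    have h2 : ‖∑ t ∈ Ioc (N : ℤ) T, G p t * ((dv p (t + a p) - 1 : ℝ) : ℂ)‖ ≤ PP * (PP + 1) := by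
      refine (norm_sum_le _ _).trans ?_
      calc _ ≤ ∑ _t ∈ Ioc (N : ℤ) T, ((PP : ℝ) + 1) := Finset.sum_le_sum fun t _ => hb t
        _ = (Ioc (N : ℤ) T).card * ((PP : ℝ) + 1) := by rw [Finset.sum_const, nsmul_eq_mul]
        _ ≤ _ := by
          refine mul_le_mul_of_nonneg_right ?_ (by positivity)
          have h3 : (Ioc (N : ℤ) T).card ≤ PP := by
            rw [Int.card_Ioc]
            omega
          exact_mod_cast h3
    rw [h1]
    have h3 := norm_add_le (∑ t ∈ Icc (1 : ℤ) N, G p t * ((dv p (t + a p) - 1 : ℝ) : ℂ))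
      (∑ t ∈ Ioc (N : ℤ) T, G p t * ((dv p (t + a p) - 1 : ℝ) : ℂ))
    calc _ ≤ (‖∑ t ∈ Icc (1 : ℤ) N, G p t * ((dv p (t + a p) - 1 : ℝ) : ℂ)‖ + PP * (PP + 1)) / T :=
          div_le_div_of_nonneg_right (by linarith) hT0.le
      _ = ‖∑ t ∈ Icc (1 : ℤ) N, G p t * ((dv p (t + a p) - 1 : ℝ) : ℂ)‖ / T
          + PP * (PP + 1) / T := by rw [add_div]
      _ ≤ _ := add_le_add (div_le_div_of_nonneg_left (norm_nonneg _) hN0 hNT) hsmall2
  have hw1 : ∀ p ∈ P, 1 / (p : ℝ) ≤ 2 * A * (1 / ((A * Hp p : ℕ) : ℝ)) := by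
    intro p hp
    have hp0 : (0 : ℝ) < p := by exact_mod_cast (hP p hp).pos
    have h1 : ((Hp p : ℕ) : ℝ) ≤ 2 * p := by exact_mod_cast Hp_le (hP p hp).pos
    have h2 : (0 : ℝ) < Hp p := by exact_mod_cast Hp_pos p
    push_cast
    have h3 : 2 * (A : ℝ) * (1 / (A * Hp p)) = 2 / Hp p := by field_simp
    rw [h3, div_le_div_iff₀ hp0 h2]
    linarith
  have hw2 : ∑ p ∈ P, 1 / ((A * Hp p : ℕ) : ℝ) ≤ S1 / A := by
    rw [hS1, Finset.sum_div]
    refine Finset.sum_le_sum fun p hp => ?_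
    have hp0 : (0 : ℝ) < p := by exact_mod_cast (hP p hp).pos
    have h1 : (p : ℝ) ≤ Hp p := by exact_mod_cast (lt_Hp p).le
    have h2 : (0 : ℝ) < Hp p := by exact_mod_cast Hp_pos p
    push_cast
    rw [div_div, div_le_div_iff₀ (by positivity) (by positivity)]
    nlinarith
  calc _ ≤ ∑ p ∈ P, (2 * A * (1 / ((A * Hp p : ℕ) : ℝ)
          * (‖∑ t ∈ Icc (1 : ℤ) N, G p t * ((dv p (t + a p) - 1 : ℝ) : ℂ)‖ / N))
          + ε / 4 * (1 / (p : ℝ))) := by
        refine Finset.sum_le_sum fun p hp => ?_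
        have hp0 : (0 : ℝ) < p := by exact_mod_cast (hP p hp).pos
        have h1 := mul_le_mul_of_nonneg_left (hcmp p hp) (by positivity : 0 ≤ 1 / (p : ℝ))
        have h2 := mul_le_mul_of_nonneg_right (hw1 p hp)
          (div_nonneg (norm_nonneg (∑ t ∈ Icc (1 : ℤ) N, G p t * ((dv p (t + a p) - 1 : ℝ) : ℂ)))
            hN0.le)
        nlinarith
    _ = 2 * A * ∑ p ∈ P, (1 / ((A * Hp p : ℕ) : ℝ)
          * (‖∑ t ∈ Icc (1 : ℤ) N, G p t * ((dv p (t + a p) - 1 : ℝ) : ℂ)‖ / N))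
          + ε / 4 * S1 := by
        rw [Finset.sum_add_distrib, ← Finset.mul_sum, ← Finset.mul_sum]
    _ ≤ 2 * A * (Real.log (Fintype.card χ) / t + (9 * t + 12 * (L' : ℝ) / N) * (S1 / A))
          + ε / 4 * S1 := by
        have h1 : 0 ≤ 9 * t + 12 * (L' : ℝ) / N := by positivity
        have h2 := mul_le_mul_of_nonneg_left hw2 h1
        have e : (t * (2 ^ 1 + 1) ^ 2 + (2 ^ 1 + 1) * (2 * (2 * (L' : ℝ) / N)))
            = 9 * t + 12 * (L' : ℝ) / N := by ring
        rw [e] at key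
        have h3 := key.trans (by linarith : _ ≤ Real.log (Fintype.card χ) / t
          + (9 * t + 12 * (L' : ℝ) / N) * (S1 / A))
        have h4 := mul_le_mul_of_nonneg_left h3 (by positivity : 0 ≤ 2 * (A : ℝ))
        linarith
    _ = 2 * A * (Real.log (Fintype.card χ) / t)
          + (18 * t + 24 * (L' : ℝ) / N + ε / 4) * S1 := by
        field_simp
        ring
    _ ≤ _ := by
        have h1 : 18 * t + 24 * (L' : ℝ) / N + ε / 4 ≤ ε := by linarith
        have := mul_le_mul_of_nonneg_right h1 hS1nn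
        linarith

end Pool.Agent.N675.A3
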