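import Mathlib
import Pool.Agent.N675.A3.Defs

/-! Preliminary lemmas. -/

namespace Pool.Agent.N675.A3

open Finset

/-- shifting the variable -/
lemma shift_le {E : Type} [NormedAddCommGroup E] (x s : ℕ) (B : ℝ) (G : ℕ → E)
    (hG : ∀ n, ‖G n‖ ≤ B) :
    ‖∑ n ∈ Icc 1 x, G (n + s) - ∑ n ∈ Icc 1 x, G n‖ ≤ 2 * s * B := by
  induction s with
  | zero => simp
  | succ s ih =>
    have h1 : ∑ n ∈ Icc 1 x, G (n + (s + 1)) - ∑ n ∈ Icc 1 x, G (n + s)
        = G (x + 1 + s) - G (1 + s) := by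
      have h2 : ∀ y : ℕ, ∑ n ∈ Icc 1 y, G (n + (s + 1)) - ∑ n ∈ Icc 1 y, G (n + s)
          = G (y + 1 + s) - G (1 + s) := by
        intro y
        induction y with
        | zero => simp
        | succ y ihy =>
          rw [Finset.sum_Icc_succ_top (by omega), Finset.sum_Icc_succ_top (by omega),
            add_sub_add_comm, ihy]
          have e : y + 1 + (s + 1) = y + 1 + 1 + s := by ring
          rw [e]
          abel
      exact h2 x
    have h2 : ‖∑ n ∈ Icc 1 x, G (n + (s + 1)) - ∑ n ∈ Icc 1 x, G n‖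
        ≤ ‖∑ n ∈ Icc 1 x, G (n + (s + 1)) - ∑ n ∈ Icc 1 x, G (n + s)‖
          + ‖∑ n ∈ Icc 1 x, G (n + s) - ∑ n ∈ Icc 1 x, G n‖ := by
      refine le_trans (le_of_eq ?_) (norm_add_le _ _)
      congr 1
      abel
    rw [h1] at h2
    have h3 : ‖G (x + 1 + s) - G (1 + s)‖ ≤ 2 * B :=
      (norm_sub_le _ _).trans (by linarith [hG (x + 1 + s), hG (1 + s)])
    push_cast
    linarith

/-- the square of a sum of real numbers times exponentials -/
lemma norm_sq_sum (q : ℕ) (F : ℕ → ℝ) (φ : ℝ) :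
    ‖∑ l ∈ range q, ((F l : ℝ) : ℂ) * eR (l * φ)‖ ^ 2
      = ∑ l ∈ range q, ∑ l' ∈ range q, F l * F l' * (eR (((l : ℝ) - l') * φ)).re := by
  have h1 : ((‖∑ l ∈ range q, ((F l : ℝ) : ℂ) * eR (l * φ)‖ ^ 2 : ℝ) : ℂ)
      = ∑ l ∈ range q, ∑ l' ∈ range q, ((F l * F l' : ℝ) : ℂ) * eR (((l : ℝ) - l') * φ) := by
    have e3 : ((‖∑ l ∈ range q, ((F l : ℝ) : ℂ) * eR (l * φ)‖ ^ 2 : ℝ) : ℂ)
        = (∑ l ∈ range q, ((F l : ℝ) : ℂ) * eR (l * φ))
          * (starRingEnd ℂ) (∑ l ∈ range q, ((F l : ℝ) : ℂ) * eR (l * φ)) := by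
      rw [Complex.mul_conj, Complex.normSq_eq_norm_sq]
    rw [e3, map_sum, Finset.sum_mul_sum]
    refine Finset.sum_congr rfl fun l _ => Finset.sum_congr rfl fun l' _ => ?_
    rw [map_mul, ← eR_neg, Complex.conj_ofReal]
    have e4 : ((l : ℝ) - l') * φ = l * φ + -(l' * φ) := by ring
    rw [e4, eR_add]
    push_cast
    ring
  have h2 := congrArg Complex.re h1
  rw [Complex.ofReal_re, Complex.re_sum] at h2
  rw [h2]
  refine Finset.sum_congr rfl fun l _ => ?_
  rw [Complex.re_sum]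
  refine Finset.sum_congr rfl fun l' _ => ?_
  rw [Complex.re_ofReal_mul]

lemma abs_re_eR_le (x : ℝ) : |(eR x).re| ≤ 1 :=
  (Complex.abs_re_le_norm _).trans (norm_eR x).le

/-- splitting a range in residue classes -/
lemma sum_range_mul {E : Type} [AddCommMonoid E] (p q : ℕ) (z : ℕ → E) :
    ∑ k ∈ range (p * q), z k = ∑ i ∈ range p, ∑ l ∈ range q, z (p * l + i) := by
  rw [Finset.sum_comm]
  induction q with
  | zero => simp
  | succ q ih =>
    rw [Nat.mul_succ, Finset.sum_range_add, ih, Finset.sum_range_succ]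

/-- only the pairs of indices in the same residue class -/
lemma norm_sq_class (p q : ℕ) (z : ℕ → ℂ) :
    ‖∑ k ∈ range (p * q), z k‖ ^ 2 ≤ p * ∑ i ∈ range p, ‖∑ l ∈ range q, z (p * l + i)‖ ^ 2 := by
  rw [sum_range_mul]
  have h1 : ‖∑ i ∈ range p, ∑ l ∈ range q, z (p * l + i)‖
      ≤ ∑ i ∈ range p, ‖∑ l ∈ range q, z (p * l + i)‖ := norm_sum_le _ _
  have h2 := Finset.sum_mul_sq_le_sq_mul_sq (range p) (fun _ => (1 : ℝ))
    (fun i => ‖∑ l ∈ range q, z (p * l + i)‖)
  simp only [one_mul, one_pow, Finset.sum_const, nsmul_eq_mul, mul_one, card_range] at h2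
  exact (pow_le_pow_left₀ (norm_nonneg _) h1 2).trans h2

/-- sums over the distance of two indices -/
lemma sum_dist_le (q : ℕ) (Y : ℕ → ℝ) (hY : ∀ u, 0 ≤ Y u) :
    ∑ l ∈ range q, ∑ l' ∈ range q, Y (Nat.dist l l') ≤ 2 * q * ∑ u ∈ range q, Y u := by
  have h1 : ∀ l ∈ range q, ∑ l' ∈ range q, Y (Nat.dist l l') ≤ 2 * ∑ u ∈ range q, Y u := by
    intro l hl
    rw [mem_range] at hl
    have h2 : ∑ l' ∈ range q, Y (Nat.dist l l')
        = ∑ l' ∈ (range q).filter (fun l' => l' ≤ l), Y (l - l')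
          + ∑ l' ∈ (range q).filter (fun l' => ¬ l' ≤ l), Y (l' - l) := by
      rw [← Finset.sum_filter_add_sum_filter_not (range q) (fun l' => l' ≤ l)]
      congr 1
      · refine Finset.sum_congr rfl fun l' hl' => ?_
        rw [mem_filter] at hl'
        rw [Nat.dist_comm, Nat.dist_eq_sub_of_le hl'.2]
      · refine Finset.sum_congr rfl fun l' hl' => ?_
        rw [mem_filter] at hl'
        rw [Nat.dist_eq_sub_of_le (by omega)]
    have h3 : ∑ l' ∈ (range q).filter (fun l' => l' ≤ l), Y (l - l') ≤ ∑ u ∈ range q, Y u := by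
      rw [← Finset.sum_image (f := Y) (g := fun l' => l - l')]
      · refine Finset.sum_le_sum_of_subset_of_nonneg ?_ fun u _ _ => hY u
        intro u hu
        rw [mem_image] at hu
        obtain ⟨l', _, rfl⟩ := hu
        rw [mem_range]
        omega
      · intro a ha a' ha' h
        simp only [coe_filter, Set.mem_setOf_eq, mem_range] at ha ha'
        simp only at h
        omega
    have h4 : ∑ l' ∈ (range q).filter (fun l' => ¬ l' ≤ l), Y (l' - l) ≤ ∑ u ∈ range q, Y u := by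
      rw [← Finset.sum_image (f := Y) (g := fun l' => l' - l)]
      · refine Finset.sum_le_sum_of_subset_of_nonneg ?_ fun u _ _ => hY u
        intro u hu
        rw [mem_image] at hu
        obtain ⟨l', hl', rfl⟩ := hu
        rw [mem_filter, mem_range] at hl'
        rw [mem_range]
        omega
      · intro a ha a' ha' h
        simp only [coe_filter, Set.mem_setOf_eq, mem_range] at ha ha'
        simp only at h
        omega
    linarith
  calc _ ≤ ∑ _l ∈ range q, 2 * ∑ u ∈ range q, Y u := Finset.sum_le_sum h1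
    _ = _ := by rw [Finset.sum_const, card_range, nsmul_eq_mul]; ring

end Pool.Agent.N675.A3
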