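import Mathlib
import Pool.Agent.N675.A3.Pre
import Pool.Agent.N675.A3.Ed2

/-! The dilation principle for local Fourier coefficients, part 1. -/

namespace Pool.Agent.N675.A3

open Finset

/-- `f(n) f(n+m)` -/
def Fm (f : ℕ → ℝ) (m n : ℕ) : ℝ := f n * f (n + m)

/-- the correlations of `Fm` -/
noncomputable def WW (f : ℕ → ℝ) (x m v : ℕ) : ℝ := (∑ n ∈ Icc 1 x, Fm f m n * Fm f m (n + v)) / x

/-- the deviation on the multiples of `p` -/
noncomputable def XI (f : ℕ → ℝ) (x p M v : ℕ) : ℝ :=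
  (∑ n ∈ Icc 1 x, Fm f M n * Fm f M (n + v) * (dv p n - 1)) / x

lemma Fm_le {f : ℕ → ℝ} (hf : ∀ n, |f n| ≤ 1) (m n : ℕ) : |Fm f m n| ≤ 1 := by
  unfold Fm
  rw [abs_mul]
  exact mul_le_one₀ (hf _) (abs_nonneg _) (hf _)

lemma FmFm_le {f : ℕ → ℝ} (hf : ∀ n, |f n| ≤ 1) (m n n' : ℕ) : |Fm f m n * Fm f m n'| ≤ 1 := by
  rw [abs_mul]
  exact mul_le_one₀ (Fm_le hf _ _) (abs_nonneg _) (Fm_le hf _ _)

lemma avg_shift {f : ℕ → ℝ} (hf : ∀ n, |f n| ≤ 1) (x m s s' S : ℕ) (hs : s ≤ S) (hs' : s' ≤ S) :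
    |(∑ n ∈ Icc 1 x, Fm f m (n + s) * Fm f m (n + s')) / x - WW f x m (Nat.dist s s')| ≤ 2 * S / x := by
  rcases Nat.eq_zero_or_pos x with hx | hx
  · subst hx; simp [WW]
  have hx0 : (0 : ℝ) < x := by exact_mod_cast hx
  have main : ∀ a b : ℕ, a ≤ b → a ≤ S →
      |(∑ n ∈ Icc 1 x, Fm f m (n + a) * Fm f m (n + b)) / x - WW f x m (Nat.dist a b)| ≤ 2 * S / x := by
    intro a b hab haS
    have h1 := shift_le x a 1 (fun n => Fm f m n * Fm f m (n + (b - a)))
      (fun n => by rw [Real.norm_eq_abs]; exact FmFm_le hf _ _ _)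
    have h2 : ∑ n ∈ Icc 1 x, Fm f m (n + a) * Fm f m (n + b)
        = ∑ n ∈ Icc 1 x, Fm f m (n + a) * Fm f m (n + a + (b - a)) := by
      refine Finset.sum_congr rfl fun n _ => ?_
      have : n + a + (b - a) = n + b := by omega
      rw [this]
    rw [h2, Nat.dist_eq_sub_of_le hab]
    unfold WW
    rw [← sub_div, abs_div, abs_of_pos hx0]
    refine div_le_div_of_nonneg_right ?_ hx0.le
    rw [Real.norm_eq_abs] at h1
    refine h1.trans ?_
    have : (a : ℝ) ≤ S := by exact_mod_cast haS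
    linarith
  rcases le_total s s' with h | h
  · exact main s s' h hs
  · have h1 := main s' s h hs'
    rw [Nat.dist_comm]
    have h2 : ∑ n ∈ Icc 1 x, Fm f m (n + s) * Fm f m (n + s')
        = ∑ n ∈ Icc 1 x, Fm f m (n + s') * Fm f m (n + s) :=
      Finset.sum_congr rfl fun n _ => mul_comm _ _
    rw [h2]
    exact h1

/-- expansion of the square -/
lemma SS_expand (f : ℕ → ℝ) (b y q m : ℕ) (φ : ℝ) :
    SS f b y q m φ = (1 / (q : ℝ) ^ 2) * ∑ l ∈ range q, ∑ l' ∈ range q,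
      (eR (((l : ℝ) - l') * φ)).re *
        ((∑ n ∈ Icc 1 y, Fm f m (n + b * l) * Fm f m (n + b * l')) / y) := by
  unfold SS
  have h1 : ∀ n, ‖(∑ k ∈ range q, ((f (n + b * k) * f (n + b * k + m) : ℝ) : ℂ) * eR (k * φ)) / q‖ ^ 2
      = (1 / (q : ℝ) ^ 2) * ∑ l ∈ range q, ∑ l' ∈ range q,
        Fm f m (n + b * l) * Fm f m (n + b * l') * (eR (((l : ℝ) - l') * φ)).re := by
    intro n
    rw [norm_div, div_pow, Complex.norm_natCast, norm_sq_sum q (fun k => f (n + b * k) * f (n + b * k + m))]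
    unfold Fm
    ring
  rw [Finset.sum_congr rfl fun n _ => h1 n, ← Finset.mul_sum, mul_div_assoc]
  congr 1
  rw [Finset.sum_comm, Finset.sum_div]
  refine Finset.sum_congr rfl fun l _ => ?_
  rw [Finset.sum_comm, Finset.sum_div]
  refine Finset.sum_congr rfl fun l' _ => ?_
  rw [← Finset.sum_mul]
  ring

lemma SS_lower {f : ℕ → ℝ} (hf : ∀ n, |f n| ≤ 1) (b y q m : ℕ) (hq : 0 < q) (φ : ℝ) :
    (1 / (q : ℝ) ^ 2) * ∑ l ∈ range q, ∑ l' ∈ range q,
      (eR (((l : ℝ) - l') * φ)).re * WW f y m (b * Nat.dist l l')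
      ≤ SS f b y q m φ + 2 * (b * q) / y := by
  have hq0 : (0 : ℝ) < q := by exact_mod_cast hq
  rw [SS_expand]
  have h1 : ∑ l ∈ range q, ∑ l' ∈ range q,
      (eR (((l : ℝ) - l') * φ)).re * WW f y m (b * Nat.dist l l')
      ≤ ∑ l ∈ range q, ∑ l' ∈ range q, ((eR (((l : ℝ) - l') * φ)).re *
        ((∑ n ∈ Icc 1 y, Fm f m (n + b * l) * Fm f m (n + b * l')) / y) + 2 * (b * q) / y) := by
    refine Finset.sum_le_sum fun l hl => Finset.sum_le_sum fun l' hl' => ?_
    rw [mem_range] at hl hl'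
    have h2 := avg_shift hf y m (b * l) (b * l') (b * q) (Nat.mul_le_mul_left b hl.le)
      (Nat.mul_le_mul_left b hl'.le)
    have e : Nat.dist (b * l) (b * l') = b * Nat.dist l l' := Nat.dist_mul_left b l l'
    rw [e] at h2
    have h3 := abs_re_eR_le (((l : ℝ) - l') * φ)
    have h4 : |(eR (((l : ℝ) - l') * φ)).re * WW f y m (b * Nat.dist l l')
        - (eR (((l : ℝ) - l') * φ)).re *
          ((∑ n ∈ Icc 1 y, Fm f m (n + b * l) * Fm f m (n + b * l')) / y)| ≤ 2 * (b * q) / y := by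
      rw [← mul_sub, abs_mul, abs_sub_comm]
      push_cast at h2
      calc _ ≤ 1 * (2 * (b * q) / (y : ℝ)) := mul_le_mul h3 h2 (abs_nonneg _) zero_le_one
        _ = _ := one_mul _
    have := (abs_le.mp h4).2
    linarith
  simp only [Finset.sum_add_distrib, Finset.sum_const, card_range, nsmul_eq_mul] at h1
  have h2 := mul_le_mul_of_nonneg_left h1 (by positivity : 0 ≤ 1 / (q : ℝ) ^ 2)
  refine h2.trans (le_of_eq ?_)
  rw [mul_add]
  congr 1
  field_simp

/-- upper bound with the pairs of indices congruent modulo `p` -/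
lemma SS_upper {f : ℕ → ℝ} (hf : ∀ n, |f n| ≤ 1) (b x p q M : ℕ) (hp : 0 < p) (hq : 0 < q) (θ : ℝ) :
    SS f b x (p * q) M θ ≤ (1 / (q : ℝ) ^ 2) * ∑ l ∈ range q, ∑ l' ∈ range q,
      (eR (((l : ℝ) - l') * (p * θ))).re * WW f x M (b * (p * Nat.dist l l'))
      + 2 * (b * (p * q)) / x := by
  have hq0 : (0 : ℝ) < q := by exact_mod_cast hq
  have hp0 : (0 : ℝ) < p := by exact_mod_cast hp
  rcases Nat.eq_zero_or_pos x with hx | hx
  · subst hx
    simp [SS, WW]
  have hx0 : (0 : ℝ) < x := by exact_mod_cast hx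
  -- one point
  have h1 : ∀ n, ‖(∑ k ∈ range (p * q), ((f (n + b * k) * f (n + b * k + M) : ℝ) : ℂ) * eR (k * θ))
      / ((p * q : ℕ) : ℂ)‖ ^ 2
      ≤ (p / ((p : ℝ) * q) ^ 2) * ∑ i ∈ range p, ∑ l ∈ range q, ∑ l' ∈ range q,
        Fm f M (n + b * (p * l + i)) * Fm f M (n + b * (p * l' + i))
          * (eR (((l : ℝ) - l') * (p * θ))).re := by
    intro n
    rw [norm_div, div_pow, Complex.norm_natCast]
    have h2 := norm_sq_class p q
      (fun k => ((f (n + b * k) * f (n + b * k + M) : ℝ) : ℂ) * eR (k * θ))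
    have h3 : ∀ i ∈ range p, ‖∑ l ∈ range q, ((f (n + b * (p * l + i)) * f (n + b * (p * l + i) + M) : ℝ) : ℂ)
        * eR ((p * l + i : ℕ) * θ)‖ ^ 2
        = ∑ l ∈ range q, ∑ l' ∈ range q,
        Fm f M (n + b * (p * l + i)) * Fm f M (n + b * (p * l' + i))
          * (eR (((l : ℝ) - l') * (p * θ))).re := by
      intro i _
      rw [← norm_sq_sum q (fun l => Fm f M (n + b * (p * l + i))) (p * θ)]
      have h4 : ∑ l ∈ range q, ((f (n + b * (p * l + i)) * f (n + b * (p * l + i) + M) : ℝ) : ℂ)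
          * eR ((p * l + i : ℕ) * θ)
          = eR (i * θ) * ∑ l ∈ range q, ((Fm f M (n + b * (p * l + i)) : ℝ) : ℂ) * eR (l * (p * θ)) := by
        rw [Finset.mul_sum]
        refine Finset.sum_congr rfl fun l _ => ?_
        have e : ((p * l + i : ℕ) : ℝ) * θ = i * θ + l * (p * θ) := by push_cast; ring
        rw [e, eR_add]
        unfold Fm
        ring
      rw [h4, norm_mul, norm_eR, one_mul]
    rw [Finset.sum_congr rfl h3] at h2
    have e5 : ((p * q : ℕ) : ℝ) = p * q := by push_cast; ring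
    rw [e5, div_mul_eq_mul_div]
    exact div_le_div_of_nonneg_right h2 (by positivity)
  have h2 : SS f b x (p * q) M θ ≤ (p / ((p : ℝ) * q) ^ 2) * ∑ i ∈ range p, ∑ l ∈ range q,
      ∑ l' ∈ range q, ((∑ n ∈ Icc 1 x,
        Fm f M (n + b * (p * l + i)) * Fm f M (n + b * (p * l' + i))) / x)
          * (eR (((l : ℝ) - l') * (p * θ))).re := by
    unfold SS
    rw [div_le_iff₀ hx0]
    refine (Finset.sum_le_sum fun n _ => h1 n).trans (le_of_eq ?_)
    rw [← Finset.mul_sum, mul_assoc]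
    congr 1
    rw [Finset.sum_comm, Finset.sum_mul]
    refine Finset.sum_congr rfl fun i _ => ?_
    rw [Finset.sum_comm, Finset.sum_mul]
    refine Finset.sum_congr rfl fun l _ => ?_
    rw [Finset.sum_comm, Finset.sum_mul]
    refine Finset.sum_congr rfl fun l' _ => ?_
    rw [← Finset.sum_mul]
    field_simp
  have h3 : ∑ i ∈ range p, ∑ l ∈ range q,
      ∑ l' ∈ range q, ((∑ n ∈ Icc 1 x,
        Fm f M (n + b * (p * l + i)) * Fm f M (n + b * (p * l' + i))) / x)
          * (eR (((l : ℝ) - l') * (p * θ))).re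
      ≤ ∑ _i ∈ range p, ∑ l ∈ range q, ∑ l' ∈ range q,
        ((eR (((l : ℝ) - l') * (p * θ))).re * WW f x M (b * (p * Nat.dist l l'))
          + 2 * (b * (p * q)) / x) := by
    refine Finset.sum_le_sum fun i hi => Finset.sum_le_sum fun l hl => Finset.sum_le_sum fun l' hl' => ?_
    rw [mem_range] at hi hl hl'
    have hb : ∀ l, l < q → b * (p * l + i) ≤ b * (p * q) := by
      intro l hl
      refine Nat.mul_le_mul_left b ?_
      have : p * (l + 1) ≤ p * q := Nat.mul_le_mul_left p hl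
      rw [Nat.mul_succ] at this
      omega
    have h4 := avg_shift hf x M (b * (p * l + i)) (b * (p * l' + i)) (b * (p * q)) (hb l hl) (hb l' hl')
    have e : Nat.dist (b * (p * l + i)) (b * (p * l' + i)) = b * (p * Nat.dist l l') := by
      rw [Nat.dist_mul_left, Nat.dist_add_add_right, Nat.dist_mul_left]
    rw [e] at h4
    have h5 := abs_re_eR_le (((l : ℝ) - l') * (p * θ))
    have h6 : |((∑ n ∈ Icc 1 x, Fm f M (n + b * (p * l + i)) * Fm f M (n + b * (p * l' + i))) / x)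
          * (eR (((l : ℝ) - l') * (p * θ))).re
        - (eR (((l : ℝ) - l') * (p * θ))).re * WW f x M (b * (p * Nat.dist l l'))|
        ≤ 2 * (b * (p * q)) / x := by
      rw [mul_comm ((∑ n ∈ Icc 1 x, _) / (x : ℝ)), ← mul_sub, abs_mul]
      push_cast at h4
      calc _ ≤ 1 * (2 * (b * (p * q)) / (x : ℝ)) := mul_le_mul h5 h4 (abs_nonneg _) zero_le_one
        _ = _ := one_mul _
    have := (abs_le.mp h6).2
    linarith
  have h4 := mul_le_mul_of_nonneg_left h3 (by positivity : 0 ≤ (p : ℝ) / ((p : ℝ) * q) ^ 2)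
  refine (h2.trans h4).trans (le_of_eq ?_)
  simp only [Finset.sum_add_distrib, Finset.sum_const, card_range, nsmul_eq_mul]
  obtain ⟨Z, hZ⟩ : ∃ Z, Z = ∑ l ∈ range q, ∑ l' ∈ range q,
      (eR (((l : ℝ) - l') * (p * θ))).re * WW f x M (b * (p * Nat.dist l l')) := ⟨_, rfl⟩
  rw [← hZ]
  field_simp

end Pool.Agent.N675.A3
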