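import Mathlib
import Pool.Agent.N675.A3.MM1

/-! The dilation principle for local Fourier coefficients, part 2. -/

namespace Pool.Agent.N675.A3

open Finset

/-- the sum over the multiples of `p` -/
lemma sum_dvd (x p : ℕ) (hp : 0 < p) (g : ℕ → ℝ) :
    ∑ n ∈ Icc 1 x, g n * dv p n = p * ∑ n ∈ Icc 1 (x / p), g (p * n) := by
  have h1 : ∀ n : ℕ, g n * dv p n = if p ∣ n then g n * p else 0 := by
    intro n
    unfold dv
    by_cases h : p ∣ n
    · rw [if_pos h, if_pos (by exact_mod_cast h)]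
    · rw [if_neg h, if_neg (by exact_mod_cast h), mul_zero]
  simp only [h1]
  rw [← Finset.sum_filter, Finset.mul_sum]
  symm
  refine Finset.sum_bij (fun n _ => p * n) ?_ ?_ ?_ ?_
  · intro n hn
    rw [mem_Icc] at hn
    rw [mem_filter, mem_Icc]
    refine ⟨⟨Nat.mul_pos hp hn.1, ?_⟩, Dvd.intro _ rfl⟩
    calc p * n ≤ p * (x / p) := Nat.mul_le_mul_left p hn.2
      _ ≤ x := Nat.mul_div_le x p
  · intro n _ n' _ h
    exact Nat.eq_of_mul_eq_mul_left hp h
  · intro n hn
    rw [mem_filter, mem_Icc] at hn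
    obtain ⟨⟨h1, h2⟩, k, rfl⟩ := hn
    refine ⟨k, ?_, rfl⟩
    rw [mem_Icc]
    refine ⟨?_, ?_⟩
    · rcases Nat.eq_zero_or_pos k with h0 | h0
      · subst h0; omega
      · exact h0
    · rw [Nat.le_div_iff_mul_le hp, mul_comm]
      exact h2
  · intro n _
    ring

lemma WW_le {f : ℕ → ℝ} (hf : ∀ n, |f n| ≤ 1) (x m v : ℕ) : |WW f x m v| ≤ 1 := by
  rcases Nat.eq_zero_or_pos x with hx | hx
  · subst hx; simp [WW]
  have hx0 : (0 : ℝ) < x := by exact_mod_cast hx
  unfold WW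
  rw [abs_div, abs_of_pos hx0, div_le_one hx0]
  calc _ ≤ ∑ n ∈ Icc 1 x, |Fm f m n * Fm f m (n + v)| := Finset.abs_sum_le_sum_abs _ _
    _ ≤ ∑ _n ∈ Icc 1 x, (1 : ℝ) := Finset.sum_le_sum fun n _ => FmFm_le hf _ _ _
    _ = x := by simp

/-- comparison of the correlations -/
lemma WW_compare {f : ℕ → ℝ} (hf : ∀ n, |f n| ≤ 1) (p : ℕ) (hp : 0 < p)
    (hfp : ∀ n, 0 < n → f (p * n) = - f n) (x m v : ℕ) :
    |WW f x (p * m) (p * v) - WW f (x / p) m v| ≤ |XI f x p (p * m) (p * v)| + p / x := by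
  rcases Nat.eq_zero_or_pos x with hx | hx
  · subst hx; simp [WW, XI]
  have hx0 : (0 : ℝ) < x := by exact_mod_cast hx
  have hp0 : (0 : ℝ) < p := by exact_mod_cast hp
  have h1 := sum_dvd x p hp (fun n => Fm f (p * m) n * Fm f (p * m) (n + p * v))
  have h2 : ∑ n ∈ Icc 1 (x / p), Fm f (p * m) (p * n) * Fm f (p * m) (p * n + p * v)
      = ((x / p : ℕ) : ℝ) * WW f (x / p) m v := by
    have h3 : ∀ n ∈ Icc 1 (x / p), Fm f (p * m) (p * n) * Fm f (p * m) (p * n + p * v)
        = Fm f m n * Fm f m (n + v) := by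
      intro n hn
      rw [mem_Icc] at hn
      unfold Fm
      rw [← mul_add, ← mul_add, ← mul_add, hfp _ (by omega), hfp _ (by omega), hfp _ (by omega),
        hfp _ (by omega)]
      ring
    rw [Finset.sum_congr rfl h3]
    unfold WW
    rcases Nat.eq_zero_or_pos (x / p) with h0 | h0
    · rw [h0]; simp
    · have : (0 : ℝ) < ((x / p : ℕ) : ℝ) := by exact_mod_cast h0
      field_simp
  rw [h2] at h1
  have h3 : WW f x (p * m) (p * v) = -XI f x p (p * m) (p * v)
      + (p * ((x / p : ℕ) : ℝ) / x) * WW f (x / p) m v := by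
    have h4 : XI f x p (p * m) (p * v) = (p * ((x / p : ℕ) : ℝ) / x) * WW f (x / p) m v
        - WW f x (p * m) (p * v) := by
      unfold XI
      simp only [mul_sub, mul_one, Finset.sum_sub_distrib, sub_div]
      rw [h1]
      unfold WW
      ring
    rw [h4]; ring
  have h4 : |(p * ((x / p : ℕ) : ℝ) / x) - 1| ≤ p / x := by
    have e1 : (p : ℝ) * ((x / p : ℕ) : ℝ) ≤ x := by exact_mod_cast Nat.mul_div_le x p
    have e2 : (x : ℝ) ≤ p * ((x / p : ℕ) : ℝ) + p := by
      have := Nat.div_add_mod x p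
      have := Nat.mod_lt x hp
      exact_mod_cast (by omega : x ≤ p * (x / p) + p)
    rw [abs_le]
    constructor
    · rw [← sub_nonneg]
      have : (p * ((x / p : ℕ) : ℝ) / x) - 1 - -(p / x) = (p * ((x / p : ℕ) : ℝ) + p - x) / x := by
        field_simp
        ring
      rw [this]
      exact div_nonneg (by linarith) hx0.le
    · have : (p * ((x / p : ℕ) : ℝ) / x) ≤ 1 := by rw [div_le_one hx0]; exact e1
      have h5 : 0 ≤ (p : ℝ) / x := by positivity
      linarith
  have h5 : WW f x (p * m) (p * v) - WW f (x / p) m v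
      = -XI f x p (p * m) (p * v) + ((p * ((x / p : ℕ) : ℝ) / x) - 1) * WW f (x / p) m v := by
    rw [h3]; ring
  rw [h5]
  refine (abs_add_le _ _).trans ?_
  rw [abs_neg, abs_mul]
  have h6 := WW_le hf (x / p) m v
  have h7 : |(p * ((x / p : ℕ) : ℝ) / x) - 1| * |WW f (x / p) m v| ≤ p / x * 1 :=
    mul_le_mul h4 h6 (abs_nonneg _) (by positivity)
  linarith

/-- comparison of the local Fourier coefficients -/
lemma SS_compare {f : ℕ → ℝ} (hf : ∀ n, |f n| ≤ 1) (b x p q m : ℕ) (hp : 0 < p)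
    (hfp : ∀ n, 0 < n → f (p * n) = - f n) (hq : 0 < q) (hxp : p ≤ x) (θ : ℝ) :
    SS f b x (p * q) (p * m) θ ≤ SS f b (x / p) q m (p * θ)
      + (2 / (q : ℝ)) * ∑ u ∈ range q, |XI f x p (p * m) (b * (p * u))|
      + (p / x + 6 * (b * (p * q)) / x) := by
  have hq0 : (0 : ℝ) < q := by exact_mod_cast hq
  have hp0 : (0 : ℝ) < p := by exact_mod_cast hp
  have hx0 : (0 : ℝ) < x := by exact_mod_cast (by omega : 0 < x)
  have h1 := SS_upper hf b x p q (p * m) hp hq θ
  have h2 := SS_lower hf b (x / p) q m hq (p * θ)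
  have h3 : ∑ l ∈ range q, ∑ l' ∈ range q,
      (eR (((l : ℝ) - l') * (p * θ))).re * WW f x (p * m) (b * (p * Nat.dist l l'))
      ≤ ∑ l ∈ range q, ∑ l' ∈ range q,
      ((eR (((l : ℝ) - l') * (p * θ))).re * WW f (x / p) m (b * Nat.dist l l')
        + (|XI f x p (p * m) (b * (p * Nat.dist l l'))| + p / x)) := by
    refine Finset.sum_le_sum fun l _ => Finset.sum_le_sum fun l' _ => ?_
    have h4 := WW_compare hf p hp hfp x m (b * Nat.dist l l')
    have e : p * (b * Nat.dist l l') = b * (p * Nat.dist l l') := by ring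
    rw [e] at h4
    have h5 := abs_re_eR_le (((l : ℝ) - l') * (p * θ))
    have h6 : |(eR (((l : ℝ) - l') * (p * θ))).re * WW f x (p * m) (b * (p * Nat.dist l l'))
        - (eR (((l : ℝ) - l') * (p * θ))).re * WW f (x / p) m (b * Nat.dist l l')|
        ≤ |XI f x p (p * m) (b * (p * Nat.dist l l'))| + p / x := by
      rw [← mul_sub, abs_mul]
      calc _ ≤ 1 * (|XI f x p (p * m) (b * (p * Nat.dist l l'))| + p / x) :=
            mul_le_mul h5 h4 (abs_nonneg _) zero_le_one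
        _ = _ := one_mul _
    have := (abs_le.mp h6).2
    linarith
  have h4 := sum_dist_le q (fun u => |XI f x p (p * m) (b * (p * u))|) (fun _ => abs_nonneg _)
  simp only [Finset.sum_add_distrib, Finset.sum_const, card_range, nsmul_eq_mul] at h3
  have h5 := mul_le_mul_of_nonneg_left h3 (by positivity : 0 ≤ 1 / (q : ℝ) ^ 2)
  have h6 := mul_le_mul_of_nonneg_left h4 (by positivity : 0 ≤ 1 / (q : ℝ) ^ 2)
  have h7 : 1 / (q : ℝ) ^ 2 * (2 * q * ∑ u ∈ range q, |XI f x p (p * m) (b * (p * u))|)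
      = (2 / (q : ℝ)) * ∑ u ∈ range q, |XI f x p (p * m) (b * (p * u))| := by
    field_simp
  have h8 : 1 / (q : ℝ) ^ 2 * (q * (q * ((p : ℝ) / x))) = p / x := by
    field_simp
  have h9 : 2 * (b * q) / ((x / p : ℕ) : ℝ) ≤ 4 * ((b : ℝ) * (p * q)) / x := by
    have e1 : 0 < x / p := Nat.div_pos hxp hp
    have e2 : (0 : ℝ) < ((x / p : ℕ) : ℝ) := by exact_mod_cast e1
    have e3 : (x : ℝ) ≤ 2 * (p * ((x / p : ℕ) : ℝ)) := by
      have h10 := Nat.div_add_mod x p
      have h11 := Nat.mod_lt x hp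
      have h12 : p * 1 ≤ p * (x / p) := Nat.mul_le_mul_left p e1
      exact_mod_cast (by omega : x ≤ 2 * (p * (x / p)))
    rw [div_le_div_iff₀ e2 hx0]
    have e4 : 0 ≤ (b : ℝ) * q := by positivity
    nlinarith
  rw [mul_add, mul_add, h8] at h5
  rw [h7] at h6
  have h10 : 2 * ((b : ℝ) * (p * q)) / x + 4 * ((b : ℝ) * (p * q)) / x = 6 * (b * (p * q)) / x := by
    ring
  linarith

/-- the index `l < p` with `p ∣ w + l m` -/
noncomputable def lp (p m w : ℕ) : ℕ := by
  classical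
  exact if h : ∃ l, l < p ∧ p ∣ w + l * m then h.choose else 0

lemma lp_le (p m w : ℕ) : lp p m w ≤ p := by
  classical
  unfold lp
  split_ifs with h
  · exact h.choose_spec.1.le
  · exact Nat.zero_le _

lemma lp_eq (p m w l : ℕ) (hpm : Nat.Coprime p m) (hl : l < p) (h : p ∣ w + l * m) :
    lp p m w = l := by
  classical
  have hex : ∃ l, l < p ∧ p ∣ w + l * m := ⟨l, hl, h⟩
  have h1 : lp p m w = hex.choose := by unfold lp; rw [dif_pos hex]
  have h2 := hex.choose_spec
  rw [← h1] at h2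
  have key : ∀ a b : ℕ, a ≤ b → b < p → p ∣ w + a * m → p ∣ w + b * m → a = b := by
    intro a b hab hb h3 h4
    have h5 : p ∣ (w + b * m) - (w + a * m) := Nat.dvd_sub h4 h3
    have h6 : (w + b * m) - (w + a * m) = (b - a) * m := by
      rw [Nat.sub_mul]; omega
    rw [h6] at h5
    have h7 := hpm.dvd_of_dvd_mul_right h5
    have h8 := Nat.eq_zero_of_dvd_of_lt h7 (by omega)
    omega
  rcases le_total (lp p m w) l with h3 | h3
  · exact key _ _ h3 hl h2.2 h
  · exact (key _ _ h3 h2.1 h h2.2).symm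

lemma sum_reindex (p q m : ℕ) (hp : 0 < p) (hm : 0 < m) (hpm : Nat.Coprime p m)
    (hK : p * m ≤ p * q) (Y Z : ℕ → ℝ) (hZ : ∀ w, 0 ≤ Z w)
    (hYZ : ∀ w, p * m ≤ w + lp p m w * m → Y (w + lp p m w * m - p * m) ≤ Z w) :
    p * ∑ u ∈ range q, Y (p * u) ≤ ∑ w ∈ Icc 1 (2 * (p * q)), Z w := by
  have h1 : ∀ u l : ℕ, l < p → lp p m (p * u + (p - l) * m) = l := by
    intro u l hl
    refine lp_eq p m _ l hpm hl ?_
    have : p * u + (p - l) * m + l * m = p * (u + m) := by
      rw [add_assoc, ← Nat.add_mul, Nat.sub_add_cancel hl.le]; ring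
    rw [this]
    exact Dvd.intro _ rfl
  have h2 : ∀ u l : ℕ, l < p → p * u + (p - l) * m + l * m = p * u + p * m := by
    intro u l hl
    rw [add_assoc, ← Nat.add_mul, Nat.sub_add_cancel hl.le]
  have h3 : p * ∑ u ∈ range q, Y (p * u) = ∑ z ∈ range q ×ˢ range p, Y (p * z.1) := by
    rw [Finset.sum_product, Finset.mul_sum]
    refine Finset.sum_congr rfl fun u _ => ?_
    simp
  rw [h3]
  have h4 : ∑ z ∈ range q ×ˢ range p, Y (p * z.1)
      ≤ ∑ z ∈ range q ×ˢ range p, Z (p * z.1 + (p - z.2) * m) := by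
    refine Finset.sum_le_sum fun z hz => ?_
    rw [mem_product, mem_range, mem_range] at hz
    have h5 := hYZ (p * z.1 + (p - z.2) * m)
    rw [h1 _ _ hz.2, h2 _ _ hz.2] at h5
    have h6 := h5 (by omega)
    rwa [Nat.add_sub_cancel] at h6
  refine h4.trans ?_
  rw [← Finset.sum_image (f := Z) (g := fun z : ℕ × ℕ => p * z.1 + (p - z.2) * m)]
  · refine Finset.sum_le_sum_of_subset_of_nonneg ?_ fun w _ _ => hZ w
    intro w hw
    rw [mem_image] at hw
    obtain ⟨z, hz, rfl⟩ := hw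
    rw [mem_product, mem_range, mem_range] at hz
    rw [mem_Icc]
    have e1 : 0 < (p - z.2) * m := Nat.mul_pos (by omega) hm
    have e2 : (p - z.2) * m ≤ p * m := Nat.mul_le_mul_right m (by omega)
    have e3 : p * z.1 ≤ p * q := Nat.mul_le_mul_left p hz.1.le
    omega
  · intro z hz z' hz' h
    simp only [coe_product, coe_range, Set.mem_prod, Set.mem_Iio] at hz hz'
    simp only at h
    have h5 := h1 z.1 z.2 hz.2
    rw [h, h1 z'.1 z'.2 hz'.2] at h5
    have h6 : p * z.1 = p * z'.1 := by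
      rw [h5] at h
      omega
    exact Prod.ext (Nat.eq_of_mul_eq_mul_left hp h6) h5.symm

end Pool.Agent.N675.A3
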