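import Mathlib
import Pool.Agent.N675.A3.MM2

/-! The dilation principle for local Fourier coefficients, part 3. -/

namespace Pool.Agent.N675.A3

open Finset

/-- the shifted deviation -/
noncomputable def XT (f : ℕ → ℝ) (b x m w p : ℕ) : ℝ :=
  (∑ n ∈ Icc 1 x, Fm f (p * m) (n + b * (p * m)) * Fm f (p * m) (n + b * (w + lp p m w * m))
    * (dv p n - 1)) / x

lemma dv_add (p n s : ℕ) (h : p ∣ s) : dv p ((n + s : ℕ) : ℤ) = dv p n := by
  unfold dv
  have : (p : ℤ) ∣ ((n + s : ℕ) : ℤ) ↔ (p : ℤ) ∣ (n : ℤ) := by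
    rw [Int.natCast_dvd_natCast, Int.natCast_dvd_natCast]
    exact (Nat.dvd_add_iff_left h).symm
  simp only [this]

lemma XI_shift {f : ℕ → ℝ} (hf : ∀ n, |f n| ≤ 1) (b x m w p : ℕ) (hp : 0 < p)
    (h : p * m ≤ w + lp p m w * m) :
    |XI f x p (p * m) (b * (w + lp p m w * m - p * m))| ≤ |XT f b x m w p| + 2 * (b * (p * m)) * p / x := by
  rcases Nat.eq_zero_or_pos x with hx | hx
  · subst hx; simp [XI, XT]
  have hx0 : (0 : ℝ) < x := by exact_mod_cast hx
  have h1 := shift_le x (b * (p * m)) (p : ℝ) (fun n => Fm f (p * m) n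
    * Fm f (p * m) (n + b * (w + lp p m w * m - p * m)) * (dv p n - 1)) (by
      intro n
      rw [Real.norm_eq_abs, abs_mul]
      calc _ ≤ 1 * (p : ℝ) := mul_le_mul (FmFm_le hf _ _ _) (abs_dv_sub_one p hp _)
            (abs_nonneg _) zero_le_one
        _ = p := one_mul _)
  have h2 : ∑ n ∈ Icc 1 x, Fm f (p * m) (n + b * (p * m))
      * Fm f (p * m) (n + b * (p * m) + b * (w + lp p m w * m - p * m))
        * (dv p ((n + b * (p * m) : ℕ) : ℤ) - 1)
      = ∑ n ∈ Icc 1 x, Fm f (p * m) (n + b * (p * m)) * Fm f (p * m) (n + b * (w + lp p m w * m))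
    * (dv p n - 1) := by
    refine Finset.sum_congr rfl fun n _ => ?_
    rw [dv_add p n (b * (p * m)) (Dvd.dvd.mul_left (Dvd.intro _ rfl) b)]
    have e : n + b * (p * m) + b * (w + lp p m w * m - p * m) = n + b * (w + lp p m w * m) := by
      rw [add_assoc, ← Nat.mul_add, Nat.add_sub_cancel' h]
    rw [e]
  rw [h2, Real.norm_eq_abs] at h1
  have h3 : |XI f x p (p * m) (b * (w + lp p m w * m - p * m)) - XT f b x m w p|
      ≤ 2 * (b * (p * m)) * p / x := by
    unfold XI XT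
    rw [← sub_div, abs_div, abs_of_pos hx0, abs_sub_comm]
    refine div_le_div_of_nonneg_right ?_ hx0.le
    push_cast at h1
    linarith
  have h4 := abs_sub_abs_le_abs_sub (XI f x p (p * m) (b * (w + lp p m w * m - p * m)))
    (XT f b x m w p)
  linarith

/-- sum over a positive interval of integers -/
lemma sum_Icc_int (T : ℕ) (g : ℤ → ℝ) :
    ∑ t ∈ Icc (1 : ℤ) T, g t = ∑ l ∈ range T, g ((l : ℤ) + 1) := by
  symm
  refine Finset.sum_bij (fun l _ => (l : ℤ) + 1) ?_ ?_ ?_ ?_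
  · intro l hl
    rw [mem_range] at hl
    rw [mem_Icc]
    constructor <;> omega
  · intro l _ l' _ h
    omega
  · intro t ht
    rw [mem_Icc] at ht
    refine ⟨(t - 1).toNat, ?_, ?_⟩
    · rw [mem_range]; omega
    · omega
  · intro l _
    rfl

/-- splitting in residue classes modulo `m` -/
lemma split_le (x m : ℕ) (hm : 0 < m) (B : ℝ) (hB : 0 ≤ B) (H : ℕ → ℝ) (hH : ∀ n, |H n| ≤ B) :
    |∑ n ∈ Icc 1 x, H n| ≤ ∑ i ∈ range m, |∑ l ∈ range (x / m), H (m * l + i + 1)| + m * B := by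
  have h1 : ∑ n ∈ Icc 1 x, H n = ∑ n ∈ range x, H (n + 1) := by
    rw [Finset.range_eq_Ico, Finset.sum_Ico_add' (fun n => H n) 0 x 1]
    rfl
  have h2 : x = m * (x / m) + x % m := (Nat.div_add_mod x m).symm
  have h3 : ∑ n ∈ range x, H (n + 1) = ∑ n ∈ range (m * (x / m)), H (n + 1)
      + ∑ j ∈ range (x % m), H (m * (x / m) + j + 1) := by
    conv_lhs => rw [h2]
    rw [Finset.sum_range_add]
  rw [h1, h3, sum_range_mul m (x / m) (fun n => H (n + 1))]
  refine (abs_add_le _ _).trans (add_le_add (Finset.abs_sum_le_sum_abs _ _) ?_)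
  calc _ ≤ ∑ j ∈ range (x % m), |H (m * (x / m) + j + 1)| := Finset.abs_sum_le_sum_abs _ _
    _ ≤ ∑ _j ∈ range (x % m), B := Finset.sum_le_sum fun _ _ => hH _
    _ = (x % m : ℕ) * B := by rw [Finset.sum_const, card_range, nsmul_eq_mul]
    _ ≤ _ := by
      refine mul_le_mul_of_nonneg_right ?_ hB
      exact_mod_cast (Nat.mod_lt x hm).le

/-- the entropy decrement for the shifted deviations -/
lemma XT_sum (b : ℕ) (ε : ℝ) (hε : 0 < ε) :
    ∃ C : ℝ, 0 ≤ C ∧ ∀ P : Finset ℕ, (∀ p ∈ P, p.Prime) → ∃ K₀ : ℕ, 0 < K₀ ∧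
      ∀ f : ℕ → ℝ, (∀ n, f n = 1 ∨ f n = -1) → ∀ x m : ℕ, 0 < m → K₀ * m ≤ x → ∀ w : ℕ,
        ∑ p ∈ P.filter (fun p => ¬ p ∣ m), (1 / (p : ℝ)) * |XT f b x m w p|
          ≤ C + ε * ∑ p ∈ P, 1 / (p : ℝ) + P.card * m / x := by
  classical
  obtain ⟨C, hC, hmain⟩ := ed2 (χ := Bool × Bool) (b + 1) ε hε
  refine ⟨C, hC, fun P hP => ?_⟩
  obtain ⟨K₀, hK₀, hed⟩ := hmain P hP
  refine ⟨K₀, hK₀, fun f hf x m hm hx w => ?_⟩
  have hf1 : ∀ n, |f n| ≤ 1 := by
    intro n
    rcases hf n with h | h <;> rw [h] <;> norm_num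
  set T : ℕ := x / m with hT
  have hT' : K₀ ≤ T := by
    rw [hT, Nat.le_div_iff_mul_le hm]
    exact hx
  have hTpos : 0 < T := by omega
  have hT0 : (0 : ℝ) < T := by exact_mod_cast hTpos
  have hm0 : (0 : ℝ) < m := by exact_mod_cast hm
  have hTm : (m : ℝ) * T ≤ x := by exact_mod_cast Nat.mul_div_le x m
  have hx0 : (0 : ℝ) < x := lt_of_lt_of_le (by positivity) hTm
  -- the local functions
  let h1 : ℕ → ℤ → ℝ := fun i t => f ((m * (t - 1) + i + 1 : ℤ).toNat)
  let h2 : ℕ → ℤ → ℝ := fun i t => f ((m * (t - 1) + i + 1 + b * w : ℤ).toNat)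
  let X : ℕ → ℤ → Bool × Bool := fun i t => (decide (h1 i t = 1), decide (h2 i t = 1))
  let G : ℕ → ℕ → ℤ → ℝ := fun i p t => if p ∣ m then 0 else
    h1 i (t + (b * p : ℕ)) * h1 i (t + (b * p + p : ℕ)) * (h2 i (t + (b * lp p m w : ℕ))
      * h2 i (t + (b * lp p m w + p : ℕ)))
  -- the residues
  have hres : ∀ p ∈ P, ∀ i : ℕ, ∃ a : ℤ, ¬ p ∣ m → ∀ t : ℤ,
      dv p (m * (t - 1) + i + 1) = dv p (t + a) := by
    intro p hp i
    by_cases hpm : p ∣ m
    · exact ⟨0, fun h => absurd hpm h⟩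
    have hcop : Nat.Coprime p m := ((hP p hp).coprime_iff_not_dvd).mpr hpm
    have hcop' : IsCoprime (p : ℤ) (m : ℤ) := Nat.isCoprime_iff_coprime.mpr hcop
    obtain ⟨u, v, huv⟩ := hcop'
    refine ⟨v * (i + 1 - m), fun _ t => ?_⟩
    unfold dv
    have hiff : (p : ℤ) ∣ (m * (t - 1) + i + 1 : ℤ) ↔ (p : ℤ) ∣ t + v * (i + 1 - m) := by
      constructor
      · intro h
        have e : t + v * (i + 1 - m) = v * (m * (t - 1) + i + 1) + u * p * t := by
          linear_combination (-t) * huv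
        rw [e]
        exact dvd_add (Dvd.dvd.mul_left h v) (Dvd.dvd.mul_right (Dvd.dvd.mul_left (dvd_refl _) u) t)
      · intro h
        have e : (m * (t - 1) + i + 1 : ℤ) = m * (t + v * (i + 1 - m)) + u * p * (i + 1 - m) := by
          linear_combination (-(i + 1 - m : ℤ)) * huv
        rw [e]
        exact dvd_add (Dvd.dvd.mul_left h m)
          (Dvd.dvd.mul_right (Dvd.dvd.mul_left (dvd_refl _) u) _)
    simp only [hiff]
  choose! a ha using hres
  have hdec : ∀ y z : ℝ, (y = 1 ∨ y = -1) → (z = 1 ∨ z = -1) → decide (y = 1) = decide (z = 1) →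
      y = z := by
    intro y z hy hz h
    have h' : (y = 1) ↔ (z = 1) := by simpa using h
    rcases hy with hy | hy <;> rcases hz with hz | hz
    · rw [hy, hz]
    · have := h'.mp hy
      rw [hz] at this; norm_num at this
    · have := h'.mpr hz
      rw [hy] at this; norm_num at this
    · rw [hy, hz]
  have key : ∀ i : ℕ, ∑ p ∈ P, (1 / (p : ℝ)) *
      (|∑ t ∈ Icc (1 : ℤ) T, G i p t * (dv p (t + a p i) - 1)| / T)
      ≤ C + ε * ∑ p ∈ P, 1 / (p : ℝ) := by
    intro i
    have h3 := hed T hT' (X i) (fun p t => ((G i p t : ℝ) : ℂ)) (fun p => a p i) (by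
      intro p hp t
      rw [Complex.norm_real, Real.norm_eq_abs]
      simp only [G]
      split_ifs with h
      · simp
      · rw [abs_mul, abs_mul, abs_mul]
        exact mul_le_one₀ (mul_le_one₀ (hf1 _) (abs_nonneg _) (hf1 _)) (by positivity)
          (mul_le_one₀ (hf1 _) (abs_nonneg _) (hf1 _))) (by
      intro p hp t t' htt
      have e1 : ∀ j : ℕ, j ≤ (b + 1) * p → h1 i (t + j) = h1 i (t' + j) := by
        intro j hj
        have := congrArg Prod.fst (htt j hj)
        exact hdec _ _ (hf _) (hf _) this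
      have e2 : ∀ j : ℕ, j ≤ (b + 1) * p → h2 i (t + j) = h2 i (t' + j) := by
        intro j hj
        have := congrArg Prod.snd (htt j hj)
        exact hdec _ _ (hf _) (hf _) this
      have hl := lp_le p m w
      have hl' : b * lp p m w ≤ b * p := Nat.mul_le_mul_left b hl
      have hb : (b + 1) * p = b * p + p := by ring
      simp only [G]
      rw [e1 _ (by omega), e1 _ (by omega), e2 _ (by omega), e2 _ (by omega)])
    refine le_trans (le_of_eq ?_) h3
    refine Finset.sum_congr rfl fun p _ => ?_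
    congr 2
    have e : ∑ t ∈ Icc (1 : ℤ) T, ((G i p t : ℝ) : ℂ) * ((dv p (t + a p i) - 1 : ℝ) : ℂ)
        = ((∑ t ∈ Icc (1 : ℤ) T, G i p t * (dv p (t + a p i) - 1) : ℝ) : ℂ) := by
      push_cast
      rfl
    rw [e, Complex.norm_real, Real.norm_eq_abs]
  -- bound for one prime
  have hone : ∀ p ∈ P.filter (fun p => ¬ p ∣ m), |XT f b x m w p|
      ≤ (1 / (m : ℝ)) * ∑ i ∈ range m, (|∑ t ∈ Icc (1 : ℤ) T, G i p t * (dv p (t + a p i) - 1)| / T)
        + m * p / x := by
    intro p hp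
    rw [mem_filter] at hp
    have hp0 : 0 < p := (hP p hp.1).pos
    have h3 := split_le x m hm p (Nat.cast_nonneg p) (fun n => Fm f (p * m) (n + b * (p * m))
      * Fm f (p * m) (n + b * (w + lp p m w * m)) * (dv p n - 1)) (by
        intro n
        rw [abs_mul]
        calc _ ≤ 1 * (p : ℝ) := mul_le_mul (FmFm_le hf1 _ _ _) (abs_dv_sub_one p hp0 _)
              (abs_nonneg _) zero_le_one
          _ = p := one_mul _)
    have h4 : ∀ i ∈ range m, ∑ l ∈ range (x / m), Fm f (p * m) ((m * l + i + 1) + b * (p * m))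
      * Fm f (p * m) ((m * l + i + 1) + b * (w + lp p m w * m)) * (dv p ((m * l + i + 1 : ℕ) : ℤ) - 1)
      = ∑ t ∈ Icc (1 : ℤ) T, G i p t * (dv p (t + a p i) - 1) := by
      intro i _
      rw [sum_Icc_int]
      refine Finset.sum_congr rfl fun l _ => ?_
      rw [← ha p hp.1 i hp.2]
      simp only [G, if_neg hp.2, h1, h2, Fm]
      have e1 : ((m : ℤ) * ((l : ℤ) + 1 + (b * p : ℕ) - 1) + i + 1).toNat
          = m * l + i + 1 + b * (p * m) := by
        have : ((m : ℤ) * ((l : ℤ) + 1 + (b * p : ℕ) - 1) + i + 1)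
            = ((m * l + i + 1 + b * (p * m) : ℕ) : ℤ) := by push_cast; ring
        rw [this, Int.toNat_natCast]
      have e2 : ((m : ℤ) * ((l : ℤ) + 1 + (b * p + p : ℕ) - 1) + i + 1).toNat
          = m * l + i + 1 + b * (p * m) + p * m := by
        have : ((m : ℤ) * ((l : ℤ) + 1 + (b * p + p : ℕ) - 1) + i + 1)
            = ((m * l + i + 1 + b * (p * m) + p * m : ℕ) : ℤ) := by push_cast; ring
        rw [this, Int.toNat_natCast]
      have e3 : ((m : ℤ) * ((l : ℤ) + 1 + (b * lp p m w : ℕ) - 1) + i + 1 + b * w).toNat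
          = m * l + i + 1 + b * (w + lp p m w * m) := by
        have : ((m : ℤ) * ((l : ℤ) + 1 + (b * lp p m w : ℕ) - 1) + i + 1 + b * w)
            = ((m * l + i + 1 + b * (w + lp p m w * m) : ℕ) : ℤ) := by push_cast; ring
        rw [this, Int.toNat_natCast]
      have e4 : ((m : ℤ) * ((l : ℤ) + 1 + (b * lp p m w + p : ℕ) - 1) + i + 1 + b * w).toNat
          = m * l + i + 1 + b * (w + lp p m w * m) + p * m := by
        have : ((m : ℤ) * ((l : ℤ) + 1 + (b * lp p m w + p : ℕ) - 1) + i + 1 + b * w)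
            = ((m * l + i + 1 + b * (w + lp p m w * m) + p * m : ℕ) : ℤ) := by push_cast; ring
        rw [this, Int.toNat_natCast]
      have e5 : ((m : ℤ) * ((l : ℤ) + 1 - 1) + i + 1) = ((m * l + i + 1 : ℕ) : ℤ) := by
        push_cast; ring
      rw [e1, e2, e3, e4, e5]
    have h5 : ∑ i ∈ range m, |∑ l ∈ range (x / m), Fm f (p * m) ((m * l + i + 1) + b * (p * m))
        * Fm f (p * m) ((m * l + i + 1) + b * (w + lp p m w * m)) * (dv p ((m * l + i + 1 : ℕ) : ℤ) - 1)|
        = ∑ i ∈ range m, |∑ t ∈ Icc (1 : ℤ) T, G i p t * (dv p (t + a p i) - 1)| :=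
      Finset.sum_congr rfl fun i hi => by rw [h4 i hi]
    rw [h5] at h3
    unfold XT
    rw [abs_div, abs_of_pos hx0]
    calc _ ≤ (∑ i ∈ range m, |∑ t ∈ Icc (1 : ℤ) T, G i p t * (dv p (t + a p i) - 1)| + m * p) / x :=
          div_le_div_of_nonneg_right h3 hx0.le
      _ = (∑ i ∈ range m, |∑ t ∈ Icc (1 : ℤ) T, G i p t * (dv p (t + a p i) - 1)|) / x
          + m * p / x := by rw [add_div]
      _ ≤ _ := by
        refine add_le_add ?_ (le_refl _)
        rw [← Finset.sum_div, one_div_mul_eq_div, div_div, mul_comm (T : ℝ)]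
        refine div_le_div_of_nonneg_left (Finset.sum_nonneg fun i _ => abs_nonneg _)
          (by positivity) hTm
  calc _ ≤ ∑ p ∈ P.filter (fun p => ¬ p ∣ m), (1 / (p : ℝ)) * ((1 / (m : ℝ)) * ∑ i ∈ range m,
          (|∑ t ∈ Icc (1 : ℤ) T, G i p t * (dv p (t + a p i) - 1)| / T) + m * p / x) :=
        Finset.sum_le_sum fun p hp => mul_le_mul_of_nonneg_left (hone p hp) (by positivity)
    _ ≤ ∑ p ∈ P, (1 / (p : ℝ)) * ((1 / (m : ℝ)) * ∑ i ∈ range m,
          (|∑ t ∈ Icc (1 : ℤ) T, G i p t * (dv p (t + a p i) - 1)| / T) + m * p / x) := by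
        refine Finset.sum_le_sum_of_subset_of_nonneg (Finset.filter_subset _ _) fun p _ _ => ?_
        have : 0 ≤ ∑ i ∈ range m,
          (|∑ t ∈ Icc (1 : ℤ) T, G i p t * (dv p (t + a p i) - 1)| / T) :=
          Finset.sum_nonneg fun i _ => by positivity
        positivity
    _ = (1 / (m : ℝ)) * ∑ i ∈ range m, ∑ p ∈ P, (1 / (p : ℝ)) *
          (|∑ t ∈ Icc (1 : ℤ) T, G i p t * (dv p (t + a p i) - 1)| / T)
          + ∑ p ∈ P, (1 / (p : ℝ)) * (m * p / x) := by
        simp only [mul_add, Finset.sum_add_distrib]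
        congr 1
        rw [Finset.sum_comm, Finset.mul_sum]
        refine Finset.sum_congr rfl fun p _ => ?_
        rw [← Finset.mul_sum]
        ring
    _ ≤ (1 / (m : ℝ)) * ∑ _i ∈ range m, (C + ε * ∑ p ∈ P, 1 / (p : ℝ)) + P.card * m / x := by
        refine add_le_add ?_ ?_
        · exact mul_le_mul_of_nonneg_left (Finset.sum_le_sum fun i _ => key i) (by positivity)
        · calc _ = ∑ _p ∈ P, ((m : ℝ) / x) := by
                refine Finset.sum_congr rfl fun p hp => ?_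
                have : (p : ℝ) ≠ 0 := by exact_mod_cast (hP p hp).pos.ne'
                field_simp
            _ = P.card * (m / x) := by rw [Finset.sum_const, nsmul_eq_mul]
            _ ≤ _ := le_of_eq (by ring)
    _ = _ := by
        rw [Finset.sum_const, card_range, nsmul_eq_mul]
        field_simp

end Pool.Agent.N675.A3
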