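import Mathlib
import Pool.Agent.N675.A3.MM3

/-! The dilation principle for local Fourier coefficients. -/

namespace Pool.Agent.N675.A3

open Finset

theorem thmM (b : ℕ) (ε : ℝ) (hε : 0 < ε) :
    ∃ C : ℝ, 0 ≤ C ∧ ∀ P : Finset ℕ, (∀ p ∈ P, p.Prime) → ∃ K₀ : ℕ, 0 < K₀ ∧
      ∀ f : ℕ → ℝ, (∀ n, f n = 1 ∨ f n = -1) → (∀ p ∈ P, ∀ n, 0 < n → f (p * n) = - f n) →
      ∀ x K m : ℕ, 0 < m → 0 < K → K₀ * m ≤ x → K₀ * K ≤ x → (∀ p ∈ P, p ∣ K) →
        (∀ p ∈ P, p * m ≤ K) →
        ∃ e : ℕ → ℝ, (∀ p, 0 ≤ e p) ∧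
          (∀ p ∈ P, ¬ p ∣ m → ∀ θ : ℝ,
            SS f b x K (p * m) θ ≤ SS f b (x / p) (K / p) m (p * θ) + e p) ∧
          ∑ p ∈ P.filter (fun p => ¬ p ∣ m), (1 / (p : ℝ)) * e p
            ≤ C + ε * ∑ p ∈ P, 1 / (p : ℝ) := by
  classical
  obtain ⟨C, hC, hmain⟩ := XT_sum b (ε / 4) (by positivity)
  refine ⟨4 * C + 1, by positivity, fun P hP => ?_⟩
  obtain ⟨K₁, hK₁, hXT⟩ := hmain P hP
  set S : ℕ := ∑ p ∈ P, p with hS
  refine ⟨K₁ + (5 * P.card + 8 * b * S + 6 * b * P.card), by omega, fun f hf hfp x K m hm hK hx1 hx2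
    hpK hpm => ?_⟩
  have hf1 : ∀ n, |f n| ≤ 1 := by
    intro n
    rcases hf n with h | h <;> rw [h] <;> norm_num
  set K₂ : ℕ := 5 * P.card + 8 * b * S + 6 * b * P.card with hK₂
  have hx3 : K₁ * m ≤ x := by rw [add_mul] at hx1; omega
  have hx4 : K₂ * m ≤ x := by rw [add_mul] at hx1; omega
  have hx5 : K₂ * K ≤ x := by rw [add_mul] at hx2; omega
  have hx6 : K ≤ x := by
    have : 1 * K ≤ (K₁ + K₂) * K := Nat.mul_le_mul_right K (by omega)
    omega
  have hxpos : 0 < x := by omega
  have hx0 : (0 : ℝ) < x := by exact_mod_cast hxpos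
  have hK0 : (0 : ℝ) < K := by exact_mod_cast hK
  have hm0 : (0 : ℝ) < m := by exact_mod_cast hm
  refine ⟨fun p => (2 / ((K / p : ℕ) : ℝ)) * ∑ u ∈ range (K / p), |XI f x p (p * m) (b * (p * u))|
      + (p / x + 6 * (b * K) / x), ?_, ?_, ?_⟩
  · intro p
    have : 0 ≤ ∑ u ∈ range (K / p), |XI f x p (p * m) (b * (p * u))| :=
      Finset.sum_nonneg fun u _ => abs_nonneg _
    positivity
  · intro p hp hpm' θ
    have hp0 := (hP p hp).pos
    obtain ⟨q, rfl⟩ := hpK p hp
    have hq : 0 < q := by
      rcases Nat.eq_zero_or_pos q with h0 | h0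
      · subst h0; simp at hK
      · exact h0
    dsimp only
    rw [Nat.mul_div_cancel_left q hp0]
    have hpx : p ≤ x := by
      have : p * 1 ≤ p * m := Nat.mul_le_mul_left p hm
      have := hpm p hp
      omega
    have h := SS_compare hf1 b x p q m hp0 (hfp p hp) hq hpx θ
    push_cast
    linarith
  · -- the sum of the errors
    have hone : ∀ p ∈ P.filter (fun p => ¬ p ∣ m),
        (2 / ((K / p : ℕ) : ℝ)) * ∑ u ∈ range (K / p), |XI f x p (p * m) (b * (p * u))|
        ≤ (2 / (K : ℝ)) * ∑ w ∈ Icc 1 (2 * K), |XT f b x m w p| + 8 * b * p * p * m / x := by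
      intro p hp
      rw [mem_filter] at hp
      have hp0 := (hP p hp.1).pos
      have hp0' : (0 : ℝ) < p := by exact_mod_cast hp0
      obtain ⟨q, hq⟩ := hpK p hp.1
      have hq0 : 0 < q := by
        rcases Nat.eq_zero_or_pos q with h0 | h0
        · subst h0; omega
        · exact h0
      have hq0' : (0 : ℝ) < q := by exact_mod_cast hq0
      have hcop : Nat.Coprime p m := ((hP p hp.1).coprime_iff_not_dvd).mpr hp.2
      have hpm' := hpm p hp.1
      have h1 := sum_reindex p q m hp0 hm hcop (by rw [← hq]; exact hpm')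
        (fun v => |XI f x p (p * m) (b * v)|)
        (fun w => |XT f b x m w p| + 2 * (b * (p * m)) * p / x)
        (fun w => by positivity) (fun w hw => XI_shift hf1 b x m w p hp0 hw)
      rw [← hq] at h1
      have h2 : K / p = q := by rw [hq, Nat.mul_div_cancel_left q hp0]
      rw [h2]
      have h3 : (2 / (q : ℝ)) * ∑ u ∈ range q, |XI f x p (p * m) (b * (p * u))|
          = (2 / (K : ℝ)) * (p * ∑ u ∈ range q, |XI f x p (p * m) (b * (p * u))|) := by
        rw [hq]
        push_cast
        field_simp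
      rw [h3]
      refine (mul_le_mul_of_nonneg_left h1 (by positivity)).trans (le_of_eq ?_)
      rw [Finset.sum_add_distrib, Finset.sum_const, Nat.card_Icc, nsmul_eq_mul]
      rw [mul_add]
      congr 1
      have : ((2 * K + 1 - 1 : ℕ) : ℝ) = 2 * K := by
        rw [Nat.add_sub_cancel]; push_cast; ring
      rw [this]
      field_simp
      ring
    have hinv : ∀ p ∈ P, (1 / (p : ℝ)) * p = 1 := by
      intro p hp
      have : (p : ℝ) ≠ 0 := by exact_mod_cast (hP p hp).pos.ne'
      field_simp
    calc _ ≤ ∑ p ∈ P.filter (fun p => ¬ p ∣ m), ((2 / (K : ℝ)) * ∑ w ∈ Icc 1 (2 * K),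
            ((1 / (p : ℝ)) * |XT f b x m w p|) + (8 * b * p * m / x + 1 / x + 6 * b * K / x)) := by
          refine Finset.sum_le_sum fun p hp => ?_
          have h1 := hone p hp
          rw [mem_filter] at hp
          have hp1 : (1 : ℝ) ≤ p := by exact_mod_cast (hP p hp.1).pos
          have hp0 : (0 : ℝ) < p := by linarith
          have h2 := mul_le_mul_of_nonneg_left h1 (by positivity : 0 ≤ 1 / (p : ℝ))
          have h3 : 1 / (p : ℝ) * ((2 / (K : ℝ)) * ∑ w ∈ Icc 1 (2 * K), |XT f b x m w p|
              + 8 * b * p * p * m / x)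
              = (2 / (K : ℝ)) * ∑ w ∈ Icc 1 (2 * K), ((1 / (p : ℝ)) * |XT f b x m w p|)
                + 8 * b * p * m / x := by
            rw [← Finset.mul_sum]
            field_simp
          rw [h3] at h2
          have h4 : 1 / (p : ℝ) * (p / x + 6 * (b * K) / x) ≤ 1 / x + 6 * b * K / x := by
            have e1 : 1 / (p : ℝ) * (p / x) = 1 / x := by field_simp
            have e2 : 1 / (p : ℝ) * (6 * (b * K) / x) ≤ 1 * (6 * (b * K) / x) := by
              refine mul_le_mul_of_nonneg_right ?_ (by positivity)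
              rw [div_le_one hp0]; exact hp1
            rw [mul_add, e1]
            have e3 : 1 * (6 * ((b : ℝ) * K) / x) = 6 * b * K / x := by ring
            linarith
          rw [mul_add]
          linarith
      _ ≤ ∑ p ∈ P.filter (fun p => ¬ p ∣ m), ((2 / (K : ℝ)) * ∑ w ∈ Icc 1 (2 * K),
            ((1 / (p : ℝ)) * |XT f b x m w p|))
            + ∑ p ∈ P, (8 * (b : ℝ) * p * m / x + 1 / x + 6 * b * K / x) := by
          rw [Finset.sum_add_distrib]
          refine add_le_add (le_refl _) ?_
          exact Finset.sum_le_sum_of_subset_of_nonneg (Finset.filter_subset _ _)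
            fun p _ _ => by positivity
      _ = (2 / (K : ℝ)) * ∑ w ∈ Icc 1 (2 * K), ∑ p ∈ P.filter (fun p => ¬ p ∣ m),
            ((1 / (p : ℝ)) * |XT f b x m w p|)
            + (8 * b * S * m / x + P.card * (1 / x) + P.card * (6 * b * K / x)) := by
          congr 1
          · rw [← Finset.mul_sum, Finset.sum_comm]
          · rw [Finset.sum_add_distrib, Finset.sum_add_distrib, Finset.sum_const, nsmul_eq_mul,
              Finset.sum_const, nsmul_eq_mul]
            congr 2
            rw [hS]
            push_cast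
            rw [Finset.mul_sum, Finset.sum_mul, Finset.sum_div]
      _ ≤ (2 / (K : ℝ)) * ∑ _w ∈ Icc 1 (2 * K),
            (C + (ε / 4) * ∑ p ∈ P, 1 / (p : ℝ) + P.card * m / x)
            + (8 * b * S * m / x + P.card * (m / x) + P.card * (6 * b * K / x)) := by
          refine add_le_add ?_ ?_
          · exact mul_le_mul_of_nonneg_left
              (Finset.sum_le_sum fun w _ => hXT f hf x m hm hx3 w) (by positivity)
          · have h1 : (1 : ℝ) / x ≤ m / x := by
              refine div_le_div_of_nonneg_right ?_ hx0.le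
              exact_mod_cast hm
            have h2 := mul_le_mul_of_nonneg_left h1 (Nat.cast_nonneg (α := ℝ) P.card)
            linarith
      _ = 4 * C + ε * ∑ p ∈ P, 1 / (p : ℝ)
            + ((5 * P.card + 8 * b * S) * (m / x) + (6 * b * P.card) * (K / x)) := by
          rw [Finset.sum_const, Nat.card_Icc, nsmul_eq_mul]
          have : ((2 * K + 1 - 1 : ℕ) : ℝ) = 2 * K := by
            rw [Nat.add_sub_cancel]; push_cast; ring
          rw [this]
          field_simp
          ring
      _ ≤ _ := by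
          have hK₂' : (K₂ : ℝ) = (5 * P.card + 8 * b * S) + 6 * b * P.card := by
            rw [hK₂]; push_cast; ring
          have hc1 : 0 ≤ (5 * (P.card : ℝ) + 8 * b * S) := by positivity
          have hc2 : 0 ≤ 6 * (b : ℝ) * P.card := by positivity
          have h4 : (K₂ : ℝ) * m ≤ x := by exact_mod_cast hx4
          have h5 : (K₂ : ℝ) * K ≤ x := by exact_mod_cast hx5
          -- the maximum of `m` and `K`
          have h6 : (K₂ : ℝ) * max (m : ℝ) K ≤ x := by
            rcases le_total (m : ℝ) K with h | h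
            · rw [max_eq_right h]; exact h5
            · rw [max_eq_left h]; exact h4
          have h7 : (5 * (P.card : ℝ) + 8 * b * S) * (m / x) + (6 * b * P.card) * (K / x)
              ≤ 1 := by
            have e1 : (5 * (P.card : ℝ) + 8 * b * S) * (m / x) + (6 * b * P.card) * (K / x)
                = ((5 * (P.card : ℝ) + 8 * b * S) * m + (6 * b * P.card) * K) / x := by
              field_simp
            rw [e1, div_le_one hx0]
            have e2 := mul_le_mul_of_nonneg_left (le_max_left (m : ℝ) K) hc1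
            have e3 := mul_le_mul_of_nonneg_left (le_max_right (m : ℝ) K) hc2
            rw [hK₂'] at h6
            nlinarith
          linarith

end Pool.Agent.N675.A3
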