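import Mathlib
import Pool.Agent.N675.TKInt

/-! Selection of a scale, of a dilate and of a dyadic range of primes. -/

namespace Pool.Agent.N675.A3

open Finset

/-- the dense scales: the dilation principle for sets of integers -/
lemma select (P : Finset ℕ) (hP : ∀ p ∈ P, p.Prime) (T : ℕ) (hT : 0 < T)
    (hPT : ∀ p ∈ P, Nat.log 2 p ≤ T) (ρ : ℝ) (hρ : 0 < ρ)
    (hL : 8 / ρ ^ 2 ≤ ∑ p ∈ P, 1 / (p : ℝ)) (G : ℕ) (hG : (∑ p ∈ P, p + 1) * 2 ^ (2 * T) ≤ G)
    (s : ℕ → ℝ) (hs0 : ∀ u, 0 ≤ s u) (hs1 : ∀ u, s u ≤ 1)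
    (hs : ∀ t < T, ρ * ((G / 2 ^ t : ℕ) : ℝ) ≤ ∑ u ∈ Icc 1 (G / 2 ^ t), s u) :
    ∃ t < 2 * T, ρ / 8 * (∑ p ∈ P, 1 / (p : ℝ)) * ((G / 2 ^ t : ℕ) : ℝ)
      ≤ ∑ g ∈ Icc 1 (G / 2 ^ t), ∑ p ∈ P, (1 / (p : ℝ)) * s (p * g) := by
  classical
  set L : ℝ := ∑ p ∈ P, 1 / (p : ℝ) with hLdef
  set Sp : ℕ := ∑ p ∈ P, p with hSp
  have hL0 : 0 < L := lt_of_lt_of_le (by positivity) hL
  -- sizes of the scales
  have hH : ∀ t < 2 * T, Sp + 1 ≤ G / 2 ^ t := by
    intro t ht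
    rw [Nat.le_div_iff_mul_le (by positivity)]
    refine le_trans (Nat.mul_le_mul_left _ ?_) hG
    exact Nat.pow_le_pow_right (by norm_num) ht.le
  -- one scale
  have h1 : ∀ t < T, ρ / 4 * L ≤ ∑ p ∈ P, (1 / (p : ℝ)) *
      ((∑ g ∈ Icc 1 (G / 2 ^ (t + Nat.log 2 p)), s (p * g)) / ((G / 2 ^ (t + Nat.log 2 p) : ℕ) : ℝ)) := by
    intro t ht
    set H : ℕ := G / 2 ^ t with hHdef
    have hH1 : Sp + 1 ≤ H := hH t (by omega)
    have hHpos : 0 < H := by omega
    have hH0 : (0 : ℝ) < H := by exact_mod_cast hHpos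
    have h2 := turan_kubilius P hP H hHpos s (fun n => by
      rw [abs_of_nonneg (hs0 n)]; exact hs1 n)
    have h3 : (1 : ℝ) + (∑ p ∈ P, (p : ℝ)) / H ≤ 2 := by
      have : (∑ p ∈ P, (p : ℝ)) / H ≤ 1 := by
        rw [div_le_one hH0]
        have : ((Sp : ℕ) : ℝ) ≤ H := by exact_mod_cast (by omega : Sp ≤ H)
        rw [hSp] at this
        push_cast at this
        exact this
      linarith
    set y : ℕ → ℝ := fun p => (∑ n ∈ Icc 1 H, s n * dw p n) / H with hy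
    have h4 : ∑ p ∈ P, (1 / (p : ℝ)) * |y p| ≤ ρ / 2 * L := by
      -- `|y| ≤ ρ/4 + y²/ρ`
      have h5 : ∀ p ∈ P, (1 / (p : ℝ)) * |y p| ≤ (ρ / 4) * (1 / (p : ℝ)) + (1 / ρ) * ((1 / (p : ℝ)) * (y p) ^ 2) := by
        intro p _
        have e1 : |y p| ≤ ρ / 4 + (1 / ρ) * (y p) ^ 2 := by
          have e2 : 0 ≤ (1 / ρ) * (|y p| - ρ / 2) ^ 2 := by positivity
          have e3 : (1 / ρ) * (|y p| - ρ / 2) ^ 2 = (1 / ρ) * (y p) ^ 2 - |y p| + ρ / 4 := by
            have : (|y p| - ρ / 2) ^ 2 = (y p) ^ 2 - ρ * |y p| + ρ ^ 2 / 4 := by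
              rw [← sq_abs (y p)]; ring
            rw [this]
            field_simp
          linarith
        have := mul_le_mul_of_nonneg_left e1 (by positivity : 0 ≤ 1 / (p : ℝ))
        calc _ ≤ _ := this
          _ = _ := by ring
      calc _ ≤ ∑ p ∈ P, ((ρ / 4) * (1 / (p : ℝ)) + (1 / ρ) * ((1 / (p : ℝ)) * (y p) ^ 2)) :=
            Finset.sum_le_sum h5
        _ = (ρ / 4) * L + (1 / ρ) * ∑ p ∈ P, (1 / (p : ℝ)) * (y p) ^ 2 := by
            rw [Finset.sum_add_distrib, ← Finset.mul_sum, ← Finset.mul_sum]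
        _ ≤ (ρ / 4) * L + (1 / ρ) * 2 := by
            have := mul_le_mul_of_nonneg_left (h2.trans h3) (by positivity : 0 ≤ 1 / ρ)
            linarith
        _ ≤ _ := by
            have : (1 / ρ) * 2 ≤ ρ / 4 * L := by
              have h6 := mul_le_mul_of_nonneg_left hL (by positivity : 0 ≤ ρ / 4)
              have e : ρ / 4 * (8 / ρ ^ 2) = (1 / ρ) * 2 := by
                field_simp
                ring
              linarith
            linarith
    have h5 : ∀ p ∈ P, (∑ n ∈ Icc 1 H, s n) / H - |y p| ≤ 2 *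
        ((∑ g ∈ Icc 1 (G / 2 ^ (t + Nat.log 2 p)), s (p * g)) / ((G / 2 ^ (t + Nat.log 2 p) : ℕ) : ℝ)) := by
      intro p hp
      have hp0 : 0 < p := (hP p hp).pos
      have hp0' : (0 : ℝ) < p := by exact_mod_cast hp0
      set i := Nat.log 2 p with hi
      have hi1 : 2 ^ i ≤ p := Nat.pow_log_le_self 2 hp0.ne'
      have hi2 : p < 2 ^ (i + 1) := Nat.lt_pow_succ_log_self (by norm_num) p
      have hiT : i ≤ T := hPT p hp
      have hH' := hH (t + i) (by omega)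
      set H' : ℕ := G / 2 ^ (t + i) with hH'def
      have hH'0 : (0 : ℝ) < H' := by exact_mod_cast (by omega : 0 < H')
      have e1 : y p = (∑ n ∈ Icc 1 H, (if p ∣ n then s n * (p : ℝ) else 0)) / H
          - (∑ n ∈ Icc 1 H, s n) / H := by
        simp only [hy]
        rw [← sub_div, ← Finset.sum_sub_distrib]
        congr 1
        refine Finset.sum_congr rfl fun n _ => ?_
        unfold dw
        split_ifs <;> ring
      have e2 : ∑ n ∈ Icc 1 H, (if p ∣ n then s n * (p : ℝ) else 0)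
          ≤ p * ∑ g ∈ Icc 1 H', s (p * g) := by
        rw [← Finset.sum_filter, Finset.mul_sum]
        have e3 : ∑ g ∈ Icc 1 H', (p : ℝ) * s (p * g)
            = ∑ n ∈ (Icc 1 H').image (fun g => p * g), s n * p := by
          rw [Finset.sum_image]
          · exact Finset.sum_congr rfl fun g _ => mul_comm _ _
          · intro a _ b _ h
            exact Nat.eq_of_mul_eq_mul_left hp0 h
        rw [e3]
        refine Finset.sum_le_sum_of_subset_of_nonneg ?_ fun n _ _ => mul_nonneg (hs0 n) hp0'.le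
        intro n hn
        rw [mem_filter, mem_Icc] at hn
        obtain ⟨⟨hn1, hn2⟩, g, rfl⟩ := hn
        rw [mem_image]
        refine ⟨g, ?_, rfl⟩
        rw [mem_Icc]
        constructor
        · rcases Nat.eq_zero_or_pos g with h0 | h0
          · subst h0; omega
          · exact h0
        · rw [hH'def, pow_add, ← Nat.div_div_eq_div_mul, ← hHdef,
            Nat.le_div_iff_mul_le (by positivity)]
          calc g * 2 ^ i ≤ g * p := Nat.mul_le_mul_left g hi1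
            _ = p * g := mul_comm _ _
            _ ≤ H := hn2
      have e4 : (p : ℝ) * H' ≤ 2 * H := by
        have e5 : H' * 2 ^ i ≤ H := by
          rw [hH'def, pow_add, ← Nat.div_div_eq_div_mul, ← hHdef]
          exact Nat.div_mul_le_self H (2 ^ i)
        have e6 : p * H' ≤ 2 * H := by
          calc p * H' ≤ 2 ^ (i + 1) * H' := Nat.mul_le_mul_right _ hi2.le
            _ = 2 * (H' * 2 ^ i) := by ring
            _ ≤ 2 * H := Nat.mul_le_mul_left 2 e5
        exact_mod_cast e6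
      have hSnn : 0 ≤ ∑ g ∈ Icc 1 H', s (p * g) := Finset.sum_nonneg fun g _ => hs0 _
      have e7 : (p * ∑ g ∈ Icc 1 H', s (p * g)) / H ≤ 2 * ((∑ g ∈ Icc 1 H', s (p * g)) / H') := by
        rw [← mul_div_assoc, div_le_div_iff₀ hH0 hH'0]
        nlinarith
      have e8 := div_le_div_of_nonneg_right e2 hH0.le
      have e9 : (∑ n ∈ Icc 1 H, s n) / H = (∑ n ∈ Icc 1 H, (if p ∣ n then s n * (p : ℝ) else 0)) / H - y p := by
        rw [e1]; ring
      have e10 := neg_abs_le (y p)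
      rw [e9]
      linarith
    have h6 : ρ ≤ (∑ n ∈ Icc 1 H, s n) / H := by
      rw [le_div_iff₀ hH0]
      exact hs t ht
    have h7 : ∀ p ∈ P, (1 / (p : ℝ)) * ρ - (1 / (p : ℝ)) * |y p| ≤ 2 * ((1 / (p : ℝ)) *
        ((∑ g ∈ Icc 1 (G / 2 ^ (t + Nat.log 2 p)), s (p * g)) / ((G / 2 ^ (t + Nat.log 2 p) : ℕ) : ℝ))) := by
      intro p hp
      have := mul_le_mul_of_nonneg_left (h5 p hp) (by positivity : 0 ≤ 1 / (p : ℝ))
      have h8 := mul_le_mul_of_nonneg_left h6 (by positivity : 0 ≤ 1 / (p : ℝ))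
      linarith
    have h8 := Finset.sum_le_sum h7
    rw [Finset.sum_sub_distrib, ← Finset.sum_mul, ← Finset.mul_sum] at h8
    linarith
  -- average over the scales
  set a : ℕ → ℕ → ℝ := fun t p => (∑ g ∈ Icc 1 (G / 2 ^ t), s (p * g)) / ((G / 2 ^ t : ℕ) : ℝ) with ha
  have ha0 : ∀ t p, 0 ≤ a t p := fun t p =>
    div_nonneg (Finset.sum_nonneg fun g _ => hs0 _) (Nat.cast_nonneg _)
  have h2 : T * (ρ / 4 * L) ≤ ∑ t ∈ range (2 * T), ∑ p ∈ P, (1 / (p : ℝ)) * a t p := by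
    calc T * (ρ / 4 * L) = ∑ _t ∈ range T, ρ / 4 * L := by
          rw [Finset.sum_const, card_range, nsmul_eq_mul]
      _ ≤ ∑ t ∈ range T, ∑ p ∈ P, (1 / (p : ℝ)) * a (t + Nat.log 2 p) p :=
          Finset.sum_le_sum fun t ht => h1 t (mem_range.mp ht)
      _ = ∑ p ∈ P, (1 / (p : ℝ)) * ∑ t ∈ range T, a (t + Nat.log 2 p) p := by
          rw [Finset.sum_comm]
          refine Finset.sum_congr rfl fun p _ => ?_
          rw [Finset.mul_sum]
      _ ≤ ∑ p ∈ P, (1 / (p : ℝ)) * ∑ t ∈ range (2 * T), a t p := by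
          refine Finset.sum_le_sum fun p hp => mul_le_mul_of_nonneg_left ?_ (by positivity)
          rw [← Finset.sum_image (f := fun t => a t p) (g := fun t => t + Nat.log 2 p)
            (fun x _ y _ h => by simpa using h)]
          refine Finset.sum_le_sum_of_subset_of_nonneg ?_ fun t _ _ => ha0 t p
          intro t ht
          rw [mem_image] at ht
          obtain ⟨t', ht', rfl⟩ := ht
          rw [mem_range] at ht' ⊢
          have := hPT p hp
          omega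
      _ = _ := by
          rw [Finset.sum_comm]
          refine Finset.sum_congr rfl fun p _ => ?_
          rw [Finset.mul_sum]
  -- pigeonhole
  by_contra hcon
  push Not at hcon
  have h3 : ∀ t ∈ range (2 * T), ∑ p ∈ P, (1 / (p : ℝ)) * a t p < ρ / 8 * L := by
    intro t ht
    rw [mem_range] at ht
    have h4 := hcon t ht
    have hH' : 0 < G / 2 ^ t := by have := hH t ht; omega
    have hH'0 : (0 : ℝ) < ((G / 2 ^ t : ℕ) : ℝ) := by exact_mod_cast hH'
    have h5 : ∑ p ∈ P, (1 / (p : ℝ)) * a t p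
        = (∑ g ∈ Icc 1 (G / 2 ^ t), ∑ p ∈ P, (1 / (p : ℝ)) * s (p * g)) / ((G / 2 ^ t : ℕ) : ℝ) := by
      rw [Finset.sum_comm, Finset.sum_div]
      refine Finset.sum_congr rfl fun p _ => ?_
      simp only [ha]
      rw [← Finset.mul_sum, mul_div_assoc]
    rw [h5, div_lt_iff₀ hH'0]
    exact h4
  have h4 := Finset.sum_lt_sum_of_nonempty (s := range (2 * T)) ⟨0, mem_range.mpr (by omega)⟩ h3
  rw [Finset.sum_const, card_range, nsmul_eq_mul] at h4
  push_cast at h4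
  linarith

/-- one dilate `g`, many primes -/
lemma pick (P : Finset ℕ) (hP : ∀ p ∈ P, p.Prime) (ρ : ℝ) (hρ : 0 < ρ)
    (hP0 : ∀ p ∈ P, 32 / ρ ≤ p) (H : ℕ) (hH : 0 < H)
    (s : ℕ → ℝ) (hs1 : ∀ u, s u ≤ 1)
    (hs : ρ / 8 * (∑ p ∈ P, 1 / (p : ℝ)) * H ≤ ∑ g ∈ Icc 1 H, ∑ p ∈ P, (1 / (p : ℝ)) * s (p * g)) :
    ∃ g ∈ Icc 1 H, 3 * ρ / 32 * (∑ p ∈ P, 1 / (p : ℝ))
      ≤ ∑ p ∈ P.filter (fun p => ¬ p ∣ g), (1 / (p : ℝ)) * s (p * g) := by
  classical
  set L : ℝ := ∑ p ∈ P, 1 / (p : ℝ) with hLdef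
  have hH0 : (0 : ℝ) < H := by exact_mod_cast hH
  -- the multiples
  have h1 : ∑ g ∈ Icc 1 H, ∑ p ∈ P.filter (fun p => p ∣ g), (1 / (p : ℝ)) * s (p * g)
      ≤ ρ / 32 * L * H := by
    calc _ ≤ ∑ g ∈ Icc 1 H, ∑ p ∈ P.filter (fun p => p ∣ g), (1 / (p : ℝ)) := by
          refine Finset.sum_le_sum fun g _ => Finset.sum_le_sum fun p _ => ?_
          exact mul_le_of_le_one_right (by positivity) (hs1 _)
      _ = ∑ g ∈ Icc 1 H, ∑ p ∈ P, (1 / (p : ℝ)) * (if p ∣ g then 1 else 0) := by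
          refine Finset.sum_congr rfl fun g _ => ?_
          rw [Finset.sum_filter]
          refine Finset.sum_congr rfl fun p _ => ?_
          split_ifs <;> ring
      _ = ∑ p ∈ P, (1 / (p : ℝ)) * ((H / p : ℕ) : ℝ) := by
          rw [Finset.sum_comm]
          refine Finset.sum_congr rfl fun p _ => ?_
          rw [← Finset.mul_sum, sum_dvd_one]
      _ ≤ ∑ p ∈ P, (1 / (p : ℝ)) * (ρ / 32 * H) := by
          refine Finset.sum_le_sum fun p hp => mul_le_mul_of_nonneg_left ?_ (by positivity)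
          have hp0 : (0 : ℝ) < p := by exact_mod_cast (hP p hp).pos
          have h2 := (nat_div_bounds H p (hP p hp).pos).1
          have h3 := hP0 p hp
          have h4 : 32 ≤ p * ρ := by rwa [div_le_iff₀ hρ] at h3
          have h5 : (0 : ℝ) ≤ ((H / p : ℕ) : ℝ) := Nat.cast_nonneg _
          nlinarith
      _ = _ := by rw [← Finset.sum_mul]; ring
  by_contra hcon
  push Not at hcon
  have h2 := Finset.sum_lt_sum_of_nonempty (s := Icc 1 H) ⟨1, mem_Icc.mpr ⟨le_refl _, hH⟩⟩ hcon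
  rw [Finset.sum_const, Nat.card_Icc, Nat.add_sub_cancel, nsmul_eq_mul] at h2
  have h3 : ∑ g ∈ Icc 1 H, ∑ p ∈ P, (1 / (p : ℝ)) * s (p * g)
      = ∑ g ∈ Icc 1 H, ∑ p ∈ P.filter (fun p => p ∣ g), (1 / (p : ℝ)) * s (p * g)
        + ∑ g ∈ Icc 1 H, ∑ p ∈ P.filter (fun p => ¬ p ∣ g), (1 / (p : ℝ)) * s (p * g) := by
    rw [← Finset.sum_add_distrib]
    refine Finset.sum_congr rfl fun g _ => ?_
    rw [Finset.sum_filter_add_sum_filter_not]
  have h4 : 3 * ρ / 32 * L * H + ρ / 32 * L * H = ρ / 8 * L * H := by ring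
  have h5 : (H : ℝ) * (3 * ρ / 32 * L) = 3 * ρ / 32 * L * H := by ring
  linarith

/-- one dyadic range -/
lemma dyadic (A : Finset ℕ) (hA : ∀ p ∈ A, 0 < p) (κ : ℝ) (hκ : 0 < κ)
    (h : 4 * κ < ∑ p ∈ A, 1 / (p : ℝ)) :
    ∃ i : ℕ, (A.filter (fun p => Nat.log 2 p = i)).Nonempty ∧
      κ ^ 2 * 2 ^ i ≤ ((A.filter (fun p => Nat.log 2 p = i)).card : ℝ) ^ 2 := by
  classical
  by_contra hcon
  push Not at hcon
  set N : ℕ := ∑ p ∈ A, (Nat.log 2 p + 1) with hN
  have hlog : ∀ p ∈ A, Nat.log 2 p ∈ range N := by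
    intro p hp
    rw [mem_range]
    have := Finset.single_le_sum (f := fun p => Nat.log 2 p + 1) (fun _ _ => Nat.zero_le _) hp
    omega
  have h1 : ∑ p ∈ A, 1 / (p : ℝ)
      = ∑ i ∈ range N, ∑ p ∈ A.filter (fun p => Nat.log 2 p = i), 1 / (p : ℝ) :=
    (Finset.sum_fiberwise_of_maps_to hlog _).symm
  have h2 : ∀ i ∈ range N, ∑ p ∈ A.filter (fun p => Nat.log 2 p = i), 1 / (p : ℝ)
      ≤ κ * (3 / 4) ^ i := by
    intro i _
    rcases Finset.eq_empty_or_nonempty (A.filter (fun p => Nat.log 2 p = i)) with h0 | h0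
    · rw [h0, Finset.sum_empty]; positivity
    have h3 := hcon i h0
    set c : ℝ := ((A.filter (fun p => Nat.log 2 p = i)).card : ℝ) with hc
    have hc0 : 0 ≤ c := Nat.cast_nonneg _
    have h4 : ∑ p ∈ A.filter (fun p => Nat.log 2 p = i), 1 / (p : ℝ) ≤ c / 2 ^ i := by
      calc _ ≤ ∑ _p ∈ A.filter (fun p => Nat.log 2 p = i), 1 / (2 : ℝ) ^ i := by
            refine Finset.sum_le_sum fun p hp => ?_
            rw [mem_filter] at hp
            have h5 : 2 ^ i ≤ p := by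
              rw [← hp.2]; exact Nat.pow_log_le_self 2 (hA p hp.1).ne'
            refine div_le_div_of_nonneg_left zero_le_one (by positivity) ?_
            exact_mod_cast h5
        _ = _ := by rw [Finset.sum_const, nsmul_eq_mul, hc]; ring
    refine h4.trans ?_
    have h5 : (c / 2 ^ i) ^ 2 ≤ (κ * (3 / 4) ^ i) ^ 2 := by
      have e1 : (c / 2 ^ i) ^ 2 = c ^ 2 / (2 ^ i * 2 ^ i) := by
        rw [div_pow, sq ((2 : ℝ) ^ i)]
      have e2 : c ^ 2 / (2 ^ i * 2 ^ i) ≤ κ ^ 2 * 2 ^ i / (2 ^ i * 2 ^ i) :=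
        div_le_div_of_nonneg_right h3.le (by positivity)
      have e3 : κ ^ 2 * 2 ^ i / (2 ^ i * 2 ^ i) = κ ^ 2 * (1 / 2) ^ i := by
        rw [one_div, inv_pow]
        field_simp
      have e4 : (1 / 2 : ℝ) ^ i ≤ (9 / 16) ^ i := pow_le_pow_left₀ (by norm_num) (by norm_num) i
      have e5 : (κ * (3 / 4) ^ i) ^ 2 = κ ^ 2 * (9 / 16) ^ i := by
        rw [mul_pow, ← pow_mul, mul_comm i 2, pow_mul]; norm_num
      rw [e1, e5]
      refine e2.trans (e3.le.trans ?_)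
      exact mul_le_mul_of_nonneg_left e4 (by positivity)
    exact (pow_le_pow_iff_left₀ (by positivity) (by positivity) (by norm_num)).mp h5
  have h3 : ∑ i ∈ range N, κ * (3 / 4 : ℝ) ^ i ≤ 4 * κ := by
    rw [← Finset.mul_sum, geom_sum_eq (by norm_num)]
    have : (0 : ℝ) ≤ (3 / 4) ^ N := by positivity
    have e : ((3 / 4 : ℝ) ^ N - 1) / (3 / 4 - 1) = 4 * (1 - (3 / 4) ^ N) := by ring
    rw [e]
    nlinarith
  have h4 := Finset.sum_le_sum h2
  linarith

/-- finite sets of large primes with large sum of reciprocals -/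
lemma exists_primes (P₀ : ℕ) (L₀ : ℝ) :
    ∃ P : Finset ℕ, (∀ p ∈ P, p.Prime) ∧ (∀ p ∈ P, P₀ ≤ p) ∧ L₀ ≤ ∑ p ∈ P, 1 / (p : ℝ) := by
  classical
  by_contra hcon
  push Not at hcon
  refine Nat.Primes.not_summable_one_div ?_
  refine summable_of_sum_le (c := L₀ + ∑ p ∈ range P₀, 1 / (p : ℝ)) (fun p => by positivity) ?_
  intro u
  have h1 : ∑ p ∈ u, 1 / ((p : ℕ) : ℝ) = ∑ p ∈ u.map ⟨Subtype.val, Subtype.val_injective⟩, 1 / (p : ℝ) := by
    rw [Finset.sum_map]; rfl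
  rw [h1, ← Finset.sum_filter_add_sum_filter_not _ (fun p => P₀ ≤ p)]
  refine add_le_add ?_ ?_
  · refine (hcon _ ?_ ?_).le
    · intro p hp
      rw [mem_filter, mem_map] at hp
      obtain ⟨⟨q, _, rfl⟩, _⟩ := hp
      exact q.2
    · intro p hp
      rw [mem_filter] at hp
      exact hp.2
  · refine Finset.sum_le_sum_of_subset_of_nonneg ?_ fun p _ _ => by positivity
    intro p hp
    rw [mem_filter] at hp
    rw [mem_range]
    omega

end Pool.Agent.N675.A3
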