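import Mathlib
import Pool.Agent.N675.A3.MM4
import Pool.Agent.N675.A3.Sel
import Pool.Agent.N675.A3.Stm

/-! Existence of a good scale. -/

namespace Pool.Agent.N675.A3

open Finset

lemma SS_nonneg (f : ℕ → ℝ) (b x K m : ℕ) (θ : ℝ) : 0 ≤ SS f b x K m θ := by
  unfold SS
  exact div_nonneg (Finset.sum_nonneg fun n _ => by positivity) (Nat.cast_nonneg _)

/-- local Fourier coefficients on shorter intervals -/
lemma SS_block {f : ℕ → ℝ} (hf : ∀ n, |f n| ≤ 1) (b y R K m : ℕ) (hR : 0 < R) (hK : 0 < K) (φ : ℝ) :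
    SS f b y (R * K) m φ ≤ SS f b y K m φ + 2 * (b * (R * K)) / y := by
  rcases Nat.eq_zero_or_pos y with hy | hy
  · subst hy; simp [SS]
  have hy0 : (0 : ℝ) < y := by exact_mod_cast hy
  have hR0 : (0 : ℝ) < R := by exact_mod_cast hR
  have hK0 : (0 : ℝ) < K := by exact_mod_cast hK
  -- the blocks
  set B : ℕ → ℝ := fun n => ‖(∑ k ∈ range K,
    ((f (n + b * k) * f (n + b * k + m) : ℝ) : ℂ) * eR (k * φ)) / K‖ ^ 2 with hB
  have hB1 : ∀ n, ‖B n‖ ≤ 1 := by
    intro n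
    rw [Real.norm_eq_abs, abs_of_nonneg (by positivity)]
    have h1 : ‖(∑ k ∈ range K,
        ((f (n + b * k) * f (n + b * k + m) : ℝ) : ℂ) * eR (k * φ)) / K‖ ≤ 1 := by
      rw [norm_div, Complex.norm_natCast, div_le_one hK0]
      refine (norm_sum_le _ _).trans ?_
      calc _ ≤ ∑ _k ∈ range K, (1 : ℝ) := by
            refine Finset.sum_le_sum fun k _ => ?_
            rw [norm_mul, norm_eR, mul_one, Complex.norm_real, Real.norm_eq_abs, abs_mul]
            exact mul_le_one₀ (hf _) (abs_nonneg _) (hf _)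
        _ = K := by simp
    exact pow_le_one₀ (norm_nonneg _) h1
  have h1 : ∀ n, ‖(∑ k ∈ range (R * K), ((f (n + b * k) * f (n + b * k + m) : ℝ) : ℂ)
      * eR (k * φ)) / ((R * K : ℕ) : ℂ)‖ ^ 2 ≤ (1 / (R : ℝ)) * ∑ j ∈ range R, B (n + b * (K * j)) := by
    intro n
    have e1 : ∑ k ∈ range (R * K), ((f (n + b * k) * f (n + b * k + m) : ℝ) : ℂ) * eR (k * φ)
        = ∑ j ∈ range R, eR ((K * j : ℕ) * φ) * ∑ k ∈ range K,
          ((f (n + b * (K * j) + b * k) * f (n + b * (K * j) + b * k + m) : ℝ) : ℂ) * eR (k * φ) := by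
      rw [mul_comm R K, sum_range_mul, Finset.sum_comm]
      refine Finset.sum_congr rfl fun j _ => ?_
      rw [Finset.mul_sum]
      refine Finset.sum_congr rfl fun k _ => ?_
      have e2 : ((K * j + k : ℕ) : ℝ) * φ = ((K * j : ℕ) : ℝ) * φ + k * φ := by push_cast; ring
      have e3 : n + b * (K * j + k) = n + b * (K * j) + b * k := by ring
      rw [e2, e3, eR_add]
      ring
    rw [e1, norm_div, div_pow, Complex.norm_natCast]
    have e4 := norm_sum_le (range R) (fun j => eR ((K * j : ℕ) * φ) * ∑ k ∈ range K,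
          ((f (n + b * (K * j) + b * k) * f (n + b * (K * j) + b * k + m) : ℝ) : ℂ) * eR (k * φ))
    have e5 := Finset.sum_mul_sq_le_sq_mul_sq (range R) (fun _ => (1 : ℝ))
      (fun j => ‖eR ((K * j : ℕ) * φ) * ∑ k ∈ range K,
          ((f (n + b * (K * j) + b * k) * f (n + b * (K * j) + b * k + m) : ℝ) : ℂ) * eR (k * φ)‖)
    simp only [one_mul, one_pow, Finset.sum_const, nsmul_eq_mul, mul_one, card_range] at e5
    have e6 := (pow_le_pow_left₀ (norm_nonneg _) e4 2).trans e5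
    have e7 : ∀ j ∈ range R, ‖eR ((K * j : ℕ) * φ) * ∑ k ∈ range K,
          ((f (n + b * (K * j) + b * k) * f (n + b * (K * j) + b * k + m) : ℝ) : ℂ) * eR (k * φ)‖ ^ 2
        = K ^ 2 * B (n + b * (K * j)) := by
      intro j _
      simp only [hB]
      rw [norm_mul, norm_eR, one_mul, norm_div, div_pow, Complex.norm_natCast, ← mul_div_assoc,
        mul_div_cancel_left₀ _ (by positivity : (K : ℝ) ^ 2 ≠ 0)]
    rw [Finset.sum_congr rfl e7, ← Finset.mul_sum] at e6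
    have e8 : (((R * K : ℕ) : ℝ)) ^ 2 = R * (R * K ^ 2) := by push_cast; ring
    rw [e8, div_le_iff₀ (by positivity)]
    calc _ ≤ _ := e6
      _ = _ := by field_simp
  have hSS : SS f b y K m φ = (∑ n ∈ Icc 1 y, B n) / y := rfl
  rw [hSS]
  unfold SS
  calc _ ≤ (∑ n ∈ Icc 1 y, (1 / (R : ℝ)) * ∑ j ∈ range R, B (n + b * (K * j))) / y :=
        div_le_div_of_nonneg_right (Finset.sum_le_sum fun n _ => h1 n) hy0.le
    _ = (1 / (R : ℝ)) * ∑ j ∈ range R, ((∑ n ∈ Icc 1 y, B (n + b * (K * j))) / y) := by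
        rw [← Finset.mul_sum, Finset.sum_comm, mul_div_assoc, Finset.sum_div]
    _ ≤ (1 / (R : ℝ)) * ∑ _j ∈ range R, ((∑ n ∈ Icc 1 y, B n) / y + 2 * (b * (R * K)) / y) := by
        refine mul_le_mul_of_nonneg_left (Finset.sum_le_sum fun j hj => ?_) (by positivity)
        rw [mem_range] at hj
        have h2 := shift_le y (b * (K * j)) 1 B hB1
        rw [Real.norm_eq_abs] at h2
        have h3 := (abs_le.mp h2).2
        rw [← add_div]
        refine div_le_div_of_nonneg_right ?_ hy0.le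
        have h4 : ((b * (K * j) : ℕ) : ℝ) ≤ b * (R * K) := by
          have : b * (K * j) ≤ b * (R * K) := by
            refine Nat.mul_le_mul_left b ?_
            rw [mul_comm R K]
            exact Nat.mul_le_mul_left K hj.le
          exact_mod_cast this
        linarith
    _ = _ := by
        rw [Finset.sum_const, card_range, nsmul_eq_mul]
        field_simp

lemma SS_mono (f : ℕ → ℝ) (b y y' K m : ℕ) (hy : 0 < y) (hyy : y ≤ y') (c : ℝ)
    (hc : (y' : ℝ) ≤ c * y) (φ : ℝ) :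
    SS f b y K m φ ≤ c * SS f b y' K m φ := by
  have hy0 : (0 : ℝ) < y := by exact_mod_cast hy
  have hy0' : (0 : ℝ) < y' := by exact_mod_cast (by omega : 0 < y')
  unfold SS
  set B : ℕ → ℝ := fun n => ‖(∑ k ∈ range K,
    ((f (n + b * k) * f (n + b * k + m) : ℝ) : ℂ) * eR (k * φ)) / K‖ ^ 2 with hB
  have h1 : ∑ n ∈ Icc 1 y, B n ≤ ∑ n ∈ Icc 1 y', B n :=
    Finset.sum_le_sum_of_subset_of_nonneg (Finset.Icc_subset_Icc_right hyy)
      fun n _ _ => by positivity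
  have h2 : 0 ≤ ∑ n ∈ Icc 1 y', B n := Finset.sum_nonneg fun n _ => by positivity
  rw [← mul_div_assoc, div_le_div_iff₀ hy0 hy0']
  nlinarith [mul_le_mul_of_nonneg_left hc h2]

lemma MA_mono {Q Q' K : ℕ} (h : Q ≤ Q') {θ : ℝ} (hM : MA Q K θ) : MA Q' K θ := by
  obtain ⟨q, hq, hqQ, j, hj⟩ := hM
  refine ⟨q, hq, hqQ.trans h, j, hj.trans ?_⟩
  exact div_le_div_of_nonneg_right (by exact_mod_cast h) (Nat.cast_nonneg _)

/-- the second family of frequencies -/
lemma second {f : ℕ → ℝ} (hf : ∀ n, |f n| ≤ 1) (b x p R K₁ m i : ℕ) (hp : 0 < p) (hR : 0 < R)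
    (hK₁ : 0 < K₁) (hpR : p ∣ R) (hpx : p ≤ x) (hi : 2 ^ i ≤ p) (hi' : p < 2 ^ (i + 1)) (φ δ e : ℝ)
    (hx : 16 * (b * (R * K₁)) / δ ≤ x) (hδ : 0 < δ) (he : e < δ / 4)
    (h : δ < SS f b (x / p) (R * K₁ / p) m φ + e) :
    δ / 8 ≤ SS f b (x / 2 ^ i) K₁ m φ := by
  obtain ⟨R', rfl⟩ := hpR
  have hR' : 0 < R' := by
    rcases Nat.eq_zero_or_pos R' with h0 | h0
    · subst h0; simp at hR
    · exact h0
  have hp0 : (0 : ℝ) < p := by exact_mod_cast hp
  have hx0 : (0 : ℝ) < x := by exact_mod_cast (by omega : 0 < x)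
  have hy : 0 < x / p := Nat.div_pos hpx hp
  have hy0 : (0 : ℝ) < ((x / p : ℕ) : ℝ) := by exact_mod_cast hy
  have e1 : p * R' * K₁ / p = R' * K₁ := by
    rw [mul_assoc, Nat.mul_div_cancel_left _ hp]
  rw [e1] at h
  have h1 := SS_block hf b (x / p) R' K₁ m hR' hK₁ φ
  have hxy : (x : ℝ) ≤ 2 * (p * ((x / p : ℕ) : ℝ)) := by
    have h10 := Nat.div_add_mod x p
    have h11 := Nat.mod_lt x hp
    have h12 : p * 1 ≤ p * (x / p) := Nat.mul_le_mul_left p hy
    exact_mod_cast (by omega : x ≤ 2 * (p * (x / p)))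
  have h2 : 2 * ((b : ℝ) * (R' * K₁)) / ((x / p : ℕ) : ℝ) ≤ δ / 4 := by
    rw [div_le_iff₀ hδ] at hx
    push_cast at hx
    rw [div_le_iff₀ hy0]
    have h3 : 16 * ((b : ℝ) * (p * R' * K₁)) ≤ 2 * (p * ((x / p : ℕ) : ℝ)) * δ :=
      hx.trans (mul_le_mul_of_nonneg_right hxy hδ.le)
    have h4 : (p : ℝ) * (16 * (b * (R' * K₁))) ≤ p * (2 * ((x / p : ℕ) : ℝ) * δ) := by linarith
    have h5 := le_of_mul_le_mul_left h4 hp0
    linarith
  have h3 : (((x / 2 ^ i : ℕ)) : ℝ) ≤ 4 * ((x / p : ℕ) : ℝ) := by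
    have e2 : (((x / 2 ^ i : ℕ)) : ℝ) ≤ x / 2 ^ i := by
      have := @Nat.cast_div_le ℝ _ _ _ x (2 ^ i)
      push_cast at this
      exact this
    have e3 : (x : ℝ) / 2 ^ i ≤ 4 * ((x / p : ℕ) : ℝ) := by
      rw [div_le_iff₀ (by positivity)]
      have e4 : (p : ℝ) ≤ 2 * 2 ^ i := by
        have : p ≤ 2 * 2 ^ i := by rw [← pow_succ']; exact hi'.le
        exact_mod_cast this
      nlinarith
    exact e2.trans e3
  have h4 := SS_mono f b (x / p) (x / 2 ^ i) K₁ m hy (Nat.div_le_div_left hi (by positivity)) 4 h3 φ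
  linarith

end Pool.Agent.N675.A3
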