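import Mathlib
import Pool.Agent.N675.A3.Scale

/-! Existence of a good scale. -/

namespace Pool.Agent.N675.A3

open Finset

theorem good_scale (hT1 : S_T1) (b b₂ : ℕ) (hb₂ : 0 < b₂) (C₃ N : ℕ) (hC₃ : 0 < C₃) (hN : 0 < N)
    (δ ρ : ℝ) (hδ : 0 < δ) (hδ1 : δ ≤ 1) (hρ : 0 < ρ) :
    ∃ Q N₁ Kst : ℕ, 0 < Q ∧ 0 < N₁ ∧ 0 < Kst ∧ ∀ f : ℕ → ℝ, (∀ n, f n = 1 ∨ f n = -1) →
      (∀ p : ℕ, p.Prime → ∀ n, 0 < n → f (p * n) = - f n) → ∀ D x : ℕ, Kst ≤ D → Kst * D ≤ x →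
      ∃ K H : ℕ, C₃ * D ≤ K ∧ K ≤ 2 * C₃ * D ∧ D ≤ N₁ * H ∧ N * H ≤ D ∧ 0 < H ∧
        ∃ Bad : Finset ℕ, (Bad.card : ℝ) ≤ ρ * H ∧
          ∀ g ∈ Icc 1 H, g ∉ Bad → ∀ θ : ℝ, ¬ MA Q K θ → SS f b x K (b₂ * g) θ ≤ δ := by
  classical
  obtain ⟨C₀, hC₀, hT1'⟩ := hT1 δ (δ / 8) hδ hδ1 (by positivity) (by linarith)
  obtain ⟨CM, hCM, hM⟩ := thmM b (ρ * δ / 256) (by positivity)
  obtain ⟨P, hP, hP0, hPL⟩ := exists_primes (⌈32 / ρ⌉₊ + b₂ + 1)
    (8 / ρ ^ 2 + 512 * CM / (ρ * δ) + 64 * Real.sqrt C₀ / ρ + 1)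
  obtain ⟨KM, hKM, hM'⟩ := hM P hP
  set L : ℝ := ∑ p ∈ P, 1 / (p : ℝ) with hL
  set R : ℕ := ∏ p ∈ P, p with hR
  set Sp : ℕ := ∑ p ∈ P, p with hSp
  set T : ℕ := Sp + 1 with hT
  have hRpos : 0 < R := Finset.prod_pos fun p hp => (hP p hp).pos
  have hpR : ∀ p ∈ P, p ∣ R := fun p hp => Finset.dvd_prod_of_mem _ hp
  have hpSp : ∀ p ∈ P, p ≤ Sp := fun p hp =>
    Finset.single_le_sum (f := fun p => p) (fun _ _ => Nat.zero_le _) hp
  have hlogT : ∀ p ∈ P, Nat.log 2 p ≤ T := fun p hp => by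
    have h1 := hpSp p hp
    have h2 := Nat.log_le_self 2 p
    omega
  choose Qf hQf0 hQf using fun i : ℕ => hT1' (2 ^ i) R (by positivity) hRpos
  set Q : ℕ := ∑ i ∈ range (T + 1), Qf i with hQ
  have hQi : ∀ i ≤ T, Qf i ≤ Q := fun i hi =>
    Finset.single_le_sum (f := Qf) (fun _ _ => Nat.zero_le _) (mem_range.mpr (by omega))
  have hQ0 : 0 < Q := lt_of_lt_of_le (hQf0 0) (hQi 0 (by omega))
  set N' : ℕ := N * (Sp + 1) * b₂ with hN'
  have hN'pos : 0 < N' := by positivity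
  obtain ⟨Nδ, hNδ⟩ := exists_nat_ge (32 * b * C₃ / δ : ℝ)
  refine ⟨Q, 2 * (N' * 2 ^ T), R + N' * ((Sp + 1) * 2 ^ (2 * T)) + KM * b₂ + KM * (2 * C₃) + Q * b₂
    + Nδ + 2 * C₃, hQ0, by positivity, by omega, fun f hf hfp D x hD hx => ?_⟩
  have hf1 : ∀ n, |f n| ≤ 1 := by
    intro n
    rcases hf n with h | h <;> rw [h] <;> norm_num
  have hDpos : 0 < D := by omega
  -- the consequences of the choice of the threshold
  have hxx : R * D + N' * ((Sp + 1) * 2 ^ (2 * T)) * D + KM * b₂ * D + KM * (2 * C₃) * D + Q * b₂ * D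
    + Nδ * D + 2 * C₃ * D ≤ x := by
    calc _ = (R + N' * ((Sp + 1) * 2 ^ (2 * T)) + KM * b₂ + KM * (2 * C₃) + Q * b₂
        + Nδ + 2 * C₃) * D := by ring
      _ ≤ x := hx
  set K₁ : ℕ := C₃ * D / R + 1 with hK₁
  have hK1 : C₃ * D ≤ R * K₁ := by
    rw [hK₁, Nat.mul_succ]
    have h1 := Nat.div_add_mod (C₃ * D) R
    have h2 := Nat.mod_lt (C₃ * D) hRpos
    omega
  have hK2 : R * K₁ ≤ 2 * C₃ * D := by
    rw [hK₁, Nat.mul_succ]
    have h1 := Nat.mul_div_le (C₃ * D) R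
    have h2 : R ≤ C₃ * D := by
      calc R ≤ D := by omega
        _ = 1 * D := (one_mul D).symm
        _ ≤ C₃ * D := Nat.mul_le_mul_right D hC₃
    have h3 : 2 * C₃ * D = 2 * (C₃ * D) := by ring
    omega
  have hK1pos : 0 < K₁ := Nat.succ_pos _
  set K : ℕ := R * K₁ with hK
  have hKpos : 0 < K := Nat.mul_pos hRpos hK1pos
  have hKx : K ≤ x := by
    have : K ≤ 2 * C₃ * D := hK2
    omega
  set G : ℕ := D / N' with hG
  have hG1 : (Sp + 1) * 2 ^ (2 * T) ≤ G := by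
    rw [hG, Nat.le_div_iff_mul_le hN'pos]
    calc _ = N' * ((Sp + 1) * 2 ^ (2 * T)) := by ring
      _ ≤ D := by omega
  have hGD : N' * G ≤ D := Nat.mul_div_le D N'
  have hDG : D < N' * (G + 1) := by
    have h1 := Nat.div_add_mod D N'
    have h2 := Nat.mod_lt D hN'pos
    rw [← hG] at h1
    rw [Nat.mul_succ]
    omega
  -- the bad dilates
  set bad : ℕ → Prop := fun u => ∃ θ : ℝ, ¬ MA Q K θ ∧ δ < SS f b x K (b₂ * u) θ with hbad
  by_contra hcon
  have hdense : ∀ t < T, ρ * ((G / 2 ^ t : ℕ) : ℝ) ≤ ∑ u ∈ Icc 1 (G / 2 ^ t),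
      (if bad u then (1 : ℝ) else 0) := by
    intro t ht
    by_contra hlt
    push Not at hlt
    refine hcon ⟨K, G / 2 ^ t, hK1, hK2, ?_, ?_, ?_, (Icc 1 (G / 2 ^ t)).filter bad, ?_, ?_⟩
    · have hpos : 0 < G / 2 ^ t := by
        refine Nat.div_pos ?_ (by positivity)
        calc 2 ^ t ≤ 2 ^ (2 * T) := Nat.pow_le_pow_right (by norm_num) (by omega)
          _ ≤ (Sp + 1) * 2 ^ (2 * T) := Nat.le_mul_of_pos_left _ (by omega)
          _ ≤ G := hG1
      have h1 : G < 2 ^ t * (G / 2 ^ t + 1) := by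
        have h1 := Nat.div_add_mod G (2 ^ t)
        have h2 := Nat.mod_lt G (by positivity : 0 < 2 ^ t)
        rw [Nat.mul_succ]
        omega
      calc D ≤ N' * (G + 1) := hDG.le
        _ ≤ N' * (2 ^ t * (G / 2 ^ t + 1)) := Nat.mul_le_mul_left _ h1
        _ ≤ N' * (2 ^ T * (2 * (G / 2 ^ t))) := by
            refine Nat.mul_le_mul_left _ (Nat.mul_le_mul ?_ (by omega))
            exact Nat.pow_le_pow_right (by norm_num) (by omega)
        _ = _ := by ring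
    · calc N * (G / 2 ^ t) ≤ N * G := Nat.mul_le_mul_left _ (Nat.div_le_self _ _)
        _ ≤ N' * G := by
            refine Nat.mul_le_mul_right _ ?_
            rw [hN', mul_assoc]
            exact Nat.le_mul_of_pos_right _ (by positivity)
        _ ≤ D := hGD
    · refine Nat.div_pos ?_ (by positivity)
      calc 2 ^ t ≤ 2 ^ (2 * T) := Nat.pow_le_pow_right (by norm_num) (by omega)
        _ ≤ (Sp + 1) * 2 ^ (2 * T) := Nat.le_mul_of_pos_left _ (by omega)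
        _ ≤ G := hG1
    · rw [Finset.sum_ite, Finset.sum_const_zero, add_zero, Finset.sum_const, nsmul_eq_mul,
        mul_one] at hlt
      exact hlt.le
    · intro g hg hgb θ hθ
      by_contra h1
      push Not at h1
      exact hgb (mem_filter.mpr ⟨hg, θ, hθ, h1⟩)
  have hL1 : 0 < L := lt_of_lt_of_le (by positivity) hPL
  have hL2 : 8 / ρ ^ 2 ≤ L := by
    refine le_trans ?_ hPL
    have : 0 ≤ 512 * CM / (ρ * δ) := by positivity
    have : 0 ≤ 64 * Real.sqrt C₀ / ρ := by positivity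
    linarith
  have hL3 : 512 * CM / (ρ * δ) ≤ L := by
    refine le_trans ?_ hPL
    have : 0 ≤ 8 / ρ ^ 2 := by positivity
    have : 0 ≤ 64 * Real.sqrt C₀ / ρ := by positivity
    linarith
  have hL4 : 64 * Real.sqrt C₀ / ρ < L := by
    refine lt_of_lt_of_le ?_ hPL
    have : 0 ≤ 8 / ρ ^ 2 := by positivity
    have : 0 ≤ 512 * CM / (ρ * δ) := by positivity
    linarith
  have hs0 : ∀ u, 0 ≤ (if bad u then (1 : ℝ) else 0) := fun u => by split_ifs <;> norm_num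
  have hs1 : ∀ u, (if bad u then (1 : ℝ) else 0) ≤ 1 := fun u => by split_ifs <;> norm_num
  obtain ⟨t, ht, hsel⟩ := select P hP T (by omega) hlogT ρ hρ hL2 G hG1
    (fun u => if bad u then (1 : ℝ) else 0) hs0 hs1 hdense
  have hHpos : 0 < G / 2 ^ t := by
    refine Nat.div_pos ?_ (by positivity)
    calc 2 ^ t ≤ 2 ^ (2 * T) := Nat.pow_le_pow_right (by norm_num) (by omega)
      _ ≤ (Sp + 1) * 2 ^ (2 * T) := Nat.le_mul_of_pos_left _ (by omega)
      _ ≤ G := hG1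
  obtain ⟨g, hg, hpick⟩ := pick P hP ρ hρ (fun p hp => by
      have h1 : 32 / ρ ≤ (⌈32 / ρ⌉₊ : ℝ) := Nat.le_ceil _
      have h2 : (⌈32 / ρ⌉₊ : ℝ) ≤ p := by
        have := hP0 p hp
        exact_mod_cast (by omega : ⌈32 / ρ⌉₊ ≤ p)
      exact h1.trans h2) (G / 2 ^ t) hHpos (fun u => if bad u then (1 : ℝ) else 0) hs1 hsel
  rw [mem_Icc] at hg
  have hgG : g ≤ G := hg.2.trans (Nat.div_le_self _ _)
  set m : ℕ := b₂ * g with hm
  have hmpos : 0 < m := Nat.mul_pos hb₂ hg.1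
  have hmD : (Sp + 1) * m ≤ D := by
    calc (Sp + 1) * m ≤ (Sp + 1) * (b₂ * G) := Nat.mul_le_mul_left _ (Nat.mul_le_mul_left _ hgG)
      _ = 1 * (Sp + 1) * b₂ * G := by ring
      _ ≤ N' * G := by
          rw [hN']
          exact Nat.mul_le_mul_right _ (Nat.mul_le_mul_right _ (Nat.mul_le_mul_right _ hN))
      _ ≤ D := hGD
  have hmD' : m ≤ D := le_trans (Nat.le_mul_of_pos_left _ (by omega)) hmD
  have hmbD : m ≤ b₂ * D := le_trans hmD' (Nat.le_mul_of_pos_left _ hb₂)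
  have hpdvd : ∀ p ∈ P, p ∣ m → p ∣ g := by
    intro p hp h
    rw [hm] at h
    rcases (hP p hp).dvd_mul.mp h with h1 | h1
    · have h2 := Nat.le_of_dvd hb₂ h1
      have h3 := hP0 p hp
      omega
    · exact h1
  obtain ⟨e, he0, he1, he2⟩ := hM' f hf (fun p hp => hfp p (hP p hp)) x K m hmpos hKpos (by
      calc KM * m ≤ KM * (b₂ * D) := Nat.mul_le_mul_left _ hmbD
        _ = KM * b₂ * D := by ring
        _ ≤ x := by omega) (by
      calc KM * K ≤ KM * (2 * C₃ * D) := Nat.mul_le_mul_left _ hK2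
        _ = KM * (2 * C₃) * D := by ring
        _ ≤ x := by omega) (fun p hp => Dvd.dvd.mul_right (hpR p hp) K₁) (by
      intro p hp
      calc p * m ≤ (Sp + 1) * m := Nat.mul_le_mul_right _ (by have := hpSp p hp; omega)
        _ ≤ D := hmD
        _ = 1 * D := (one_mul D).symm
        _ ≤ C₃ * D := Nat.mul_le_mul_right D hC₃
        _ ≤ K := hK1)
  -- the set of primes
  set A : Finset ℕ := P.filter (fun p => ¬ p ∣ g ∧ bad (p * g) ∧ e p < δ / 4) with hA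
  have hAsum : 4 * Real.sqrt C₀ < ∑ p ∈ A, 1 / (p : ℝ) := by
    have h1 : ∀ p ∈ P.filter (fun p => ¬ p ∣ g), (1 / (p : ℝ)) * (if bad (p * g) then (1 : ℝ) else 0)
        ≤ (if bad (p * g) ∧ e p < δ / 4 then 1 / (p : ℝ) else 0)
          + (4 / δ) * ((1 / (p : ℝ)) * e p) := by
      intro p _
      have e0 := he0 p
      by_cases hb : bad (p * g)
      · by_cases he : e p < δ / 4
        · rw [if_pos hb, if_pos ⟨hb, he⟩]
          have : 0 ≤ (4 / δ) * ((1 / (p : ℝ)) * e p) := by positivity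
          linarith
        · rw [if_pos hb, if_neg (fun h => he h.2)]
          push Not at he
          have h2 : 1 ≤ (4 / δ) * e p := by
            calc (1 : ℝ) = (4 / δ) * (δ / 4) := by field_simp
              _ ≤ _ := mul_le_mul_of_nonneg_left he (by positivity)
          have h3 := mul_le_mul_of_nonneg_left h2 (by positivity : 0 ≤ 1 / (p : ℝ))
          calc _ ≤ _ := h3
            _ = _ := by ring
      · rw [if_neg hb, if_neg (fun h => hb h.1)]
        have : 0 ≤ (4 / δ) * ((1 / (p : ℝ)) * e p) := by positivity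
        linarith
    have h2 := Finset.sum_le_sum h1
    rw [Finset.sum_add_distrib, ← Finset.mul_sum, ← Finset.sum_filter, Finset.filter_filter] at h2
    have h3 : ∑ p ∈ P.filter (fun p => ¬ p ∣ g), (1 / (p : ℝ)) * e p
        ≤ CM + (ρ * δ / 256) * L := by
      refine le_trans (le_of_eq ?_) he2
      congr 1
      refine Finset.filter_congr fun p hp => ?_
      refine not_congr ⟨fun h => Dvd.dvd.mul_left h b₂, hpdvd p hp⟩
    have h4 := mul_le_mul_of_nonneg_left h3 (by positivity : 0 ≤ 4 / δ)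
    have h5 : 4 / δ * (CM + (ρ * δ / 256) * L) = 4 * CM / δ + ρ / 64 * L := by
      field_simp
      ring
    have h6 : 4 * CM / δ ≤ ρ / 128 * L := by
      have := mul_le_mul_of_nonneg_left hL3 (by positivity : 0 ≤ ρ / 128)
      calc 4 * CM / δ = ρ / 128 * (512 * CM / (ρ * δ)) := by field_simp; ring
        _ ≤ _ := this
    have h7 : 4 * Real.sqrt C₀ < ρ / 16 * L := by
      have := mul_lt_mul_of_pos_left hL4 (by positivity : 0 < ρ / 16)
      calc 4 * Real.sqrt C₀ = ρ / 16 * (64 * Real.sqrt C₀ / ρ) := by field_simp; ring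
        _ < _ := this
    have h8 : ∑ p ∈ A, 1 / (p : ℝ)
        = ∑ p ∈ P.filter (fun p => ¬ p ∣ g ∧ (bad (p * g) ∧ e p < δ / 4)), 1 / (p : ℝ) := by
      rw [hA]
    rw [h8]
    have h9 : 0 < ρ * L := by positivity
    linarith
  obtain ⟨i, hne, hcard⟩ := dyadic A (fun p hp => (hP p (mem_filter.mp hp).1).pos) (Real.sqrt C₀)
    (Real.sqrt_pos.mpr hC₀) hAsum
  rw [Real.sq_sqrt hC₀.le] at hcard
  have hiT : i ≤ T := by
    obtain ⟨p, hp⟩ := hne
    rw [mem_filter] at hp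
    rw [← hp.2]
    exact hlogT p (mem_filter.mp hp.1).1
  have hex : ∀ p, ∃ θ : ℝ, p ∈ A → ¬ MA Q K θ ∧ δ < SS f b x K (b₂ * (p * g)) θ := by
    intro p
    by_cases hp : p ∈ A
    · obtain ⟨θ, hθ⟩ := (mem_filter.mp hp).2.2.1
      exact ⟨θ, fun _ => hθ⟩
    · exact ⟨0, fun h => absurd h hp⟩
  choose θ hθ using hex
  have hmem : ∀ p ∈ A.filter (fun p => Nat.log 2 p = i), p ∈ P ∧ ¬ p ∣ g ∧ e p < δ / 4 ∧ p ∈ A ∧
      2 ^ i ≤ p ∧ p < 2 ^ (i + 1) := by
    intro p hp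
    rw [mem_filter] at hp
    have h1 := mem_filter.mp hp.1
    have h2 := (hP p h1.1).pos
    refine ⟨h1.1, h1.2.1, h1.2.2.2, hp.1, ?_, ?_⟩
    · rw [← hp.2]; exact Nat.pow_log_le_self 2 h2.ne'
    · rw [← hp.2]; exact Nat.lt_pow_succ_log_self (by norm_num) p
  have hSS : ∀ p ∈ A, δ < SS f b x K (p * m) (θ p) := by
    intro p hp
    have h1 := (hθ p hp).2
    have h2 : b₂ * (p * g) = p * m := by rw [hm]; ring
    rwa [h2] at h1
  obtain ⟨p, hp, hMA⟩ := hQf i f hf1 b x (x / 2 ^ i) K K₁ m (A.filter (fun p => Nat.log 2 p = i)) θ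
    hK1pos (Nat.le_mul_of_pos_left _ hRpos) (le_refl _) (by
      calc Qf i * m ≤ Q * (b₂ * D) := Nat.mul_le_mul (hQi i hiT) hmbD
        _ = Q * b₂ * D := by ring
        _ ≤ x := by omega) (by
      intro p hp
      have h1 := hmem p hp
      refine ⟨h1.2.2.2.2.1, ?_⟩
      rw [← pow_succ']
      exact h1.2.2.2.2.2) (by push_cast; exact hcard)
    (fun p hp => (hSS p (mem_filter.mp hp).1).le) (by
      intro p hp
      have h1 := hmem p hp
      have hp0 := (hP p h1.1).pos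
      have hpx : p ≤ x := by
        have h2 := hpSp p h1.1
        have h3 : Sp + 1 ≤ (Sp + 1) * m := Nat.le_mul_of_pos_right _ hmpos
        have h4 : D ≤ 2 * C₃ * D := Nat.le_mul_of_pos_left _ (by positivity)
        omega
      refine second hf1 b x p R K₁ m i hp0 hRpos hK1pos (hpR p h1.1) hpx h1.2.2.2.2.1 h1.2.2.2.2.2
        (p * θ p) δ (e p) ?_ hδ h1.2.2.1 ?_
      · have h2 : (((R * K₁ : ℕ)) : ℝ) ≤ 2 * C₃ * D := by exact_mod_cast hK2
        push_cast at h2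
        have h3 : ((Nδ * D : ℕ) : ℝ) ≤ x := by exact_mod_cast (by omega : Nδ * D ≤ x)
        push_cast at h3
        rw [div_le_iff₀ hδ] at hNδ ⊢
        have h4 : 16 * ((b : ℝ) * (R * K₁)) ≤ 16 * (b * (2 * C₃ * D)) :=
          mul_le_mul_of_nonneg_left (mul_le_mul_of_nonneg_left h2 (Nat.cast_nonneg _)) (by norm_num)
        have h5 : 16 * ((b : ℝ) * (2 * C₃ * D)) = (32 * b * C₃) * D := by ring
        have h6 := mul_le_mul_of_nonneg_right hNδ (Nat.cast_nonneg (α := ℝ) D)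
        have h7 := mul_le_mul_of_nonneg_right h3 hδ.le
        calc _ ≤ (32 * (b : ℝ) * C₃) * D := by linarith
          _ ≤ Nδ * δ * D := h6
          _ = Nδ * D * δ := by ring
          _ ≤ _ := h7
      · have h2 := he1 p h1.1 (fun h => h1.2.1 (hpdvd p h1.1 h)) (θ p)
        exact lt_of_lt_of_le (hSS p h1.2.2.2.1) h2)
  exact (hθ p (mem_filter.mp hp).1).1 (MA_mono (hQi i hiT) hMA)

end Pool.Agent.N675.A3
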