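import Mathlib
import Pool.Agent.N675.A3.Good
import Pool.Agent.N675.AllFinal

/-! The monic case of the theorem. -/

namespace Pool.Agent.N675.A3

open Finset

/-- the Liouville function -/
noncomputable def lf (n : ℕ) : ℝ := (-1 : ℝ) ^ ArithmeticFunction.cardFactors n

lemma lf_or (n : ℕ) : lf n = 1 ∨ lf n = -1 := by
  unfold lf
  exact neg_one_pow_eq_or ℝ _

lemma abs_lf_le (n : ℕ) : |lf n| ≤ 1 := by
  rcases lf_or n with h | h <;> rw [h] <;> norm_num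

lemma lf_mul (m n : ℕ) (hm : 0 < m) (hn : 0 < n) : lf (m * n) = lf m * lf n := by
  unfold lf
  rw [ArithmeticFunction.cardFactors_mul hm.ne' hn.ne', pow_add]

lemma lf_prime (p : ℕ) (hp : p.Prime) (n : ℕ) (hn : 0 < n) : lf (p * n) = - lf n := by
  rw [lf_mul p n hp.pos hn]
  unfold lf
  rw [ArithmeticFunction.cardFactors_apply_prime hp]
  ring

/-- sums over a box of dimension two -/
lemma sum_box2 (x T : ℕ) (g : ℤ → ℤ → ℂ) :
    ∑ y ∈ Box (fun s : Bool => if s then T else x), g (y false) (y true)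
      = ∑ n ∈ Icc 1 x, ∑ t ∈ Icc 1 T, g n t := by
  rw [← Finset.sum_product']
  symm
  refine Finset.sum_bij (fun z _ => fun s : Bool => if s then (z.2 : ℤ) else (z.1 : ℤ)) ?_ ?_ ?_ ?_
  · intro z hz
    rw [mem_product, mem_Icc, mem_Icc] at hz
    rw [mem_Box]
    intro s
    cases s
    · simp only [Bool.false_eq_true, if_false]
      omega
    · simp only [if_true]
      omega
  · intro z _ z' _ h
    have h1 := congrFun h false
    have h2 := congrFun h true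
    simp only [Bool.false_eq_true, if_false, if_true] at h1 h2
    exact Prod.ext (by exact_mod_cast h1) (by exact_mod_cast h2)
  · intro y hy
    rw [mem_Box] at hy
    have h1 := hy false
    have h2 := hy true
    simp only [Bool.false_eq_true, if_false, if_true] at h1 h2
    refine ⟨((y false).toNat, (y true).toNat), ?_, ?_⟩
    · rw [mem_product, mem_Icc, mem_Icc]
      simp only
      omega
    · funext s
      cases s
      · simp only [Bool.false_eq_true, if_false]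
        omega
      · simp only [if_true]
        omega
  · intro z _
    simp only [Bool.false_eq_true, if_false, if_true]

/-- the averaged three point correlations -/
lemma odd3 (b₁ b₂ : ℕ) (ε : ℝ) (hε : 0 < ε) :
    ∃ K : ℕ, ∀ x T : ℕ, K ≤ x → K ≤ T → ∀ γ ξ : ℝ,
      ‖∑ n ∈ Icc 1 x, ∑ t ∈ Icc 1 T, eR (γ * n + ξ * t) *
        ((lf n * lf (n + b₁ * t) * lf (n + b₂ * t) : ℝ) : ℂ)‖ ≤ ε * (x * T) := by
  classical
  let ψ : Fin 3 → Bool → ℤ := fun i s => if s then (if i = 0 then 0 else if i = 1 then b₁ else b₂) else 1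
  obtain ⟨K, hK⟩ := odd_all_final ψ (fun i h => by
      have := congrFun h false
      simp [ψ] at this) (by rw [Fintype.card_fin]; decide) ε hε
  refine ⟨K, fun x T hx hT γ ξ => ?_⟩
  have h1 := hK (fun s : Bool => if s then T else x) (fun s => by cases s <;> simp [hx, hT])
    (fun s => if s then ξ else γ)
  have h2 := sum_box2 x T (fun n t => eR (γ * n + ξ * t) *
        ((lamA n * lamA (n + b₁ * t) * lamA (n + b₂ * t) : ℝ) : ℂ))
  have h3 : ∑ y ∈ Box (fun s : Bool => if s then T else x),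
      eR (∑ s, (if s then ξ else γ) * y s) * ∏ i, ((lamA (LL ψ i y) : ℝ) : ℂ)
      = ∑ n ∈ Icc 1 x, ∑ t ∈ Icc 1 T, eR (γ * n + ξ * t) *
        ((lf n * lf (n + b₁ * t) * lf (n + b₂ * t) : ℝ) : ℂ) := by
    refine Eq.trans ?_ (h2.trans ?_)
    · refine Finset.sum_congr rfl fun y _ => ?_
      have e1 : ∑ s : Bool, (if s then ξ else γ) * (y s : ℝ) = γ * (y false : ℤ) + ξ * (y true : ℤ) := by
        rw [Fintype.sum_bool]
        simp only [if_true, Bool.false_eq_true, if_false]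
        ring
      rw [e1, Fin.prod_univ_three]
      have e2 : LL ψ 0 y = y false := by simp [LL, ψ]
      have e3 : LL ψ 1 y = y false + b₁ * y true := by simp [LL, ψ]; ring
      have e4 : LL ψ 2 y = y false + b₂ * y true := by simp [LL, ψ]; ring
      rw [e2, e3, e4]
      push_cast
      ring
    · refine Finset.sum_congr rfl fun n _ => Finset.sum_congr rfl fun t _ => ?_
      have e1 : lamA ((n : ℕ) : ℤ) = lf n := by unfold lamA lf; rw [Int.natAbs_natCast]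
      have e2 : lamA (((n : ℕ) : ℤ) + b₁ * ((t : ℕ) : ℤ)) = lf (n + b₁ * t) := by
        unfold lamA lf
        have : ((n : ℕ) : ℤ) + b₁ * ((t : ℕ) : ℤ) = ((n + b₁ * t : ℕ) : ℤ) := by push_cast; ring
        rw [this, Int.natAbs_natCast]
      have e3 : lamA (((n : ℕ) : ℤ) + b₂ * ((t : ℕ) : ℤ)) = lf (n + b₂ * t) := by
        unfold lamA lf
        have : ((n : ℕ) : ℤ) + b₂ * ((t : ℕ) : ℤ) = ((n + b₂ * t : ℕ) : ℤ) := by push_cast; ring
        rw [this, Int.natAbs_natCast]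
      rw [e1, e2, e3]
      push_cast
      rfl
  rw [h3] at h1
  refine h1.trans (le_of_eq ?_)
  rw [Fintype.prod_bool]
  simp only [if_true, Bool.false_eq_true, if_false]
  ring

lemma TT_le {f : ℕ → ℝ} (hf : ∀ n, |f n| ≤ 1) (b₁ b₂ x : ℕ) (γ : ℝ) (d : ℕ) :
    ‖TT f b₁ b₂ x γ d‖ ≤ 1 := by
  rcases Nat.eq_zero_or_pos x with hx | hx
  · subst hx; simp [TT]
  have hx0 : (0 : ℝ) < x := by exact_mod_cast hx
  unfold TT
  rw [norm_div, Complex.norm_natCast, div_le_one hx0]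
  refine (norm_sum_le _ _).trans ?_
  calc _ ≤ ∑ _n ∈ Icc 1 x, (1 : ℝ) := by
        refine Finset.sum_le_sum fun n _ => ?_
        rw [norm_mul, norm_eR, one_mul, Complex.norm_real, Real.norm_eq_abs, abs_mul, abs_mul]
        exact mul_le_one₀ (mul_le_one₀ (hf _) (abs_nonneg _) (hf _)) (abs_nonneg _) (hf _)
    _ = x := by simp

/-- the monic case in mean square -/
theorem three_sq (hT1 : S_T1) (hT2 : S_T2) (hT3 : S_T3) (b₁ b : ℕ) (hb2 : 0 < b₁ + b)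
    (ε : ℝ) (hε : 0 < ε) (hε1 : ε ≤ 1) :
    ∃ Kst : ℕ, 0 < Kst ∧ ∀ D x : ℕ, Kst ≤ D → Kst * D ≤ x → ∀ γ : ℝ,
      (∑ d ∈ Icc 1 D, ‖TT lf b₁ (b₁ + b) x γ d‖ ^ 2) / D ≤ ε := by
  classical
  obtain ⟨C₃, hC₃⟩ := exists_nat_ge (64 / ε ^ 4 : ℝ)
  have hC₃pos : 0 < C₃ := by
    have h1 : (0 : ℝ) < 64 / ε ^ 4 := by positivity
    exact_mod_cast lt_of_lt_of_le h1 hC₃
  have hC₃0 : (0 : ℝ) < C₃ := by exact_mod_cast hC₃pos
  obtain ⟨N, hN⟩ := exists_nat_ge (16 / ε ^ 2 : ℝ)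
  have hNpos : 0 < N := by
    have h1 : (0 : ℝ) < 16 / ε ^ 2 := by positivity
    exact_mod_cast lt_of_lt_of_le h1 hN
  have hN0 : (0 : ℝ) < N := by exact_mod_cast hNpos
  have hε4 : ε ^ 4 ≤ 1 := pow_le_one₀ hε.le hε1
  have hε4' : 0 < ε ^ 4 := by positivity
  have hδ1 : ε ^ 4 / (256 * C₃) ≤ 1 := by
    rw [div_le_one (by positivity)]
    have : (1 : ℝ) ≤ C₃ := by exact_mod_cast hC₃pos
    linarith
  obtain ⟨Q, N₁, Kg, hQ, hN₁, hKg, hgood⟩ := good_scale hT1 b (b₁ + b) hb2 C₃ N hC₃pos hNpos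
    (ε ^ 4 / (256 * C₃)) (ε ^ 4 / 128) (by positivity) hδ1 (by positivity)
  have hQ0 : (0 : ℝ) < Q := by exact_mod_cast hQ
  have hN₁0 : (0 : ℝ) < N₁ := by exact_mod_cast hN₁
  set ε₁ : ℝ := ε ^ 2 / (64 * Q * N₁) with hε₁
  have hε₁0 : 0 < ε₁ := by positivity
  obtain ⟨Ko, hKo⟩ := odd3 b₁ (b₁ + b) (ε₁ / 2) (by positivity)
  obtain ⟨Ka, hKa⟩ := exists_nat_ge (64 * N₁ / ε ^ 4 : ℝ)
  obtain ⟨Kb, hKb⟩ := exists_nat_ge (640 * (2 * b * C₃ + (b₁ + b)) / ε ^ 4 : ℝ)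
  obtain ⟨Kc, hKc⟩ := exists_nat_ge (16 * b₁ / ε ^ 2 : ℝ)
  refine ⟨Kg + Ko + Ka + Kb + Kc + 1, by omega, fun D x hD hx γ => ?_⟩
  have hxx : Kg * D + Ko * D + Ka * D + Kb * D + Kc * D + D ≤ x := by
    calc _ = (Kg + Ko + Ka + Kb + Kc + 1) * D := by ring
      _ ≤ x := hx
  have hDpos : 0 < D := by omega
  have hD0 : (0 : ℝ) < D := by exact_mod_cast hDpos
  have hxpos : 0 < x := by omega
  have hx0 : (0 : ℝ) < x := by exact_mod_cast hxpos
  obtain ⟨K, H, hK1, hK2, hDH, hHD, hHpos, Bad, hBad, hgd⟩ := hgood lf lf_or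
    (fun p hp n hn => lf_prime p hp n hn) D x (by omega) (by omega)
  have hH0 : (0 : ℝ) < H := by exact_mod_cast hHpos
  have hHD' : H ≤ D := le_trans (Nat.le_mul_of_pos_left _ hNpos) hHD
  have hDK : D ≤ K := le_trans (Nat.le_mul_of_pos_left _ hC₃pos) hK1
  have hK0 : (0 : ℝ) < K := by exact_mod_cast (by omega : 0 < K)
  set E : ℝ := (∑ d ∈ Icc 1 D, ‖TT lf b₁ (b₁ + b) x γ d‖ ^ 2) / D with hE
  have hE0 : 0 ≤ E := div_nonneg (Finset.sum_nonneg fun _ _ => by positivity) hD0.le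
  have h3 := hT3 lf abs_lf_le b₁ b x D H hxpos hDpos hHpos hHD' γ
  set c : ℕ → ℂ := fun d => (starRingEnd ℂ) (TT lf b₁ (b₁ + b) x γ d) with hc
  have hc1 : ∀ t, ‖c t‖ ≤ 1 := by
    intro t
    simp only [hc, RCLike.norm_conj]
    exact TT_le abs_lf_le _ _ _ _ _
  have hcsum : ∀ ξ : ℝ, ‖∑ t ∈ Icc 1 (D + H), c t * eR (t * ξ)‖ ≤ ε₁ * D := by
    intro ξ
    have e1 : ∑ t ∈ Icc 1 (D + H), c t * eR (t * ξ)
        = (starRingEnd ℂ) ((∑ n ∈ Icc 1 x, ∑ t ∈ Icc 1 (D + H), eR (γ * n + (-ξ) * t) *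
          ((lf n * lf (n + b₁ * t) * lf (n + (b₁ + b) * t) : ℝ) : ℂ)) / x) := by
      rw [Finset.sum_comm, Finset.sum_div, map_sum]
      refine Finset.sum_congr rfl fun t _ => ?_
      simp only [hc, TT]
      have e2 : eR (t * ξ) = (starRingEnd ℂ) (eR ((-ξ) * t)) := by
        rw [← eR_neg]; congr 1; ring
      rw [e2, ← map_mul]
      congr 1
      rw [div_mul_eq_mul_div, Finset.sum_mul]
      congr 1
      refine Finset.sum_congr rfl fun n _ => ?_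
      rw [eR_add]
      ring
    rw [e1, RCLike.norm_conj, norm_div, Complex.norm_natCast, div_le_iff₀ hx0]
    refine (hKo x (D + H) (by omega) (by omega) γ (-ξ)).trans ?_
    push_cast
    have : (H : ℝ) ≤ D := by exact_mod_cast hHD'
    have h5 : ε₁ / 2 * ((x : ℝ) * (D + H)) ≤ ε₁ / 2 * (x * (D + D)) := by
      refine mul_le_mul_of_nonneg_left (mul_le_mul_of_nonneg_left (by linarith) hx0.le) (by positivity)
    linarith
  have h2 := hT2 lf abs_lf_le b (b₁ + b) x K D H Q hxpos hDpos hHpos hHD' hDK hQ c hc1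
    (ε ^ 4 / (256 * C₃)) (ε ^ 4 / 128) ε₁ (by positivity) (by positivity) hε₁0.le Bad hBad hgd hcsum
  set QA : ℝ := (∑ h ∈ Icc 1 H, ∑ h' ∈ Icc 1 H, QQ lf b (b₁ + b) x D c h h') / (H : ℝ) ^ 2 with hQA
  -- the numerical estimates
  have hDH' : (D : ℝ) ≤ N₁ * H := by exact_mod_cast hDH
  have hHD'' : (N : ℝ) * H ≤ D := by exact_mod_cast hHD
  have hK1' : (C₃ : ℝ) * D ≤ K := by exact_mod_cast hK1
  have hK2' : (K : ℝ) ≤ 2 * C₃ * D := by exact_mod_cast hK2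
  have hKaD : (Ka : ℝ) ≤ D := by exact_mod_cast (by omega : Ka ≤ D)
  have hKbx : (Kb : ℝ) * D ≤ x := by exact_mod_cast (by omega : Kb * D ≤ x)
  have hKcx : (Kc : ℝ) * D ≤ x := by exact_mod_cast (by omega : Kc * D ≤ x)
  have t1 : 1 / (H : ℝ) ≤ ε ^ 4 / 64 := by
    rw [div_le_iff₀ hε4'] at hKa
    rw [div_le_div_iff₀ hH0 (by norm_num)]
    have h5 : 64 * (N₁ : ℝ) ≤ N₁ * H * ε ^ 4 :=
      hKa.trans (mul_le_mul_of_nonneg_right (hKaD.trans hDH') hε4'.le)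
    have h6 : (N₁ : ℝ) * 64 ≤ N₁ * (ε ^ 4 * H) := by linarith
    have := le_of_mul_le_mul_left h6 hN₁0
    linarith
  have t2 : 2 * (D : ℝ) / K ≤ ε ^ 4 / 32 := by
    rw [div_le_iff₀ hε4'] at hC₃
    rw [div_le_div_iff₀ hK0 (by norm_num)]
    have h5 : 64 * (D : ℝ) ≤ C₃ * ε ^ 4 * D := mul_le_mul_of_nonneg_right hC₃ hD0.le
    have h6 : C₃ * ε ^ 4 * (D : ℝ) ≤ ε ^ 4 * K := by
      have := mul_le_mul_of_nonneg_left hK1' hε4'.le
      linarith
    linarith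
  have t3 : 2 * (ε ^ 4 / (256 * C₃)) * K / D ≤ ε ^ 4 / 64 := by
    rw [div_le_div_iff₀ hD0 (by norm_num)]
    have h5 : 2 * (ε ^ 4 / (256 * C₃)) * (K : ℝ) ≤ 2 * (ε ^ 4 / (256 * C₃)) * (2 * C₃ * D) :=
      mul_le_mul_of_nonneg_left hK2' (by positivity)
    have h6 : 2 * (ε ^ 4 / (256 * (C₃ : ℝ))) * (2 * C₃ * D) = ε ^ 4 / 64 * D := by
      field_simp
      norm_num
    linarith
  have t4 : 20 * (Q : ℝ) ^ 2 * ε₁ ^ 2 * D / H ≤ ε ^ 4 / 64 := by
    have h5 : 20 * (Q : ℝ) ^ 2 * ε₁ ^ 2 * D / H ≤ 20 * (Q : ℝ) ^ 2 * ε₁ ^ 2 * N₁ := by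
      rw [div_le_iff₀ hH0]
      have := mul_le_mul_of_nonneg_left hDH' (by positivity : 0 ≤ 20 * (Q : ℝ) ^ 2 * ε₁ ^ 2)
      linarith
    have h6 : 20 * (Q : ℝ) ^ 2 * ε₁ ^ 2 * N₁ = 20 / 4096 * ε ^ 4 / N₁ := by
      rw [hε₁]
      field_simp
      norm_num
    have h7 : 20 / 4096 * ε ^ 4 / (N₁ : ℝ) ≤ 20 / 4096 * ε ^ 4 := by
      refine div_le_self (by positivity) ?_
      exact_mod_cast hN₁
    have h8 : 20 / 4096 * ε ^ 4 ≤ ε ^ 4 / 64 := by linarith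
    linarith
  have t5 : 10 * (b * K + ((b₁ + b : ℕ) : ℝ) * H) / x ≤ ε ^ 4 / 64 := by
    rw [div_le_iff₀ hε4'] at hKb
    rw [div_le_div_iff₀ hx0 (by norm_num)]
    have h5 : (b : ℝ) * K ≤ b * (2 * C₃ * D) := mul_le_mul_of_nonneg_left hK2' (Nat.cast_nonneg _)
    have h6 : ((b₁ + b : ℕ) : ℝ) * H ≤ ((b₁ + b : ℕ) : ℝ) * D :=
      mul_le_mul_of_nonneg_left (by exact_mod_cast hHD') (Nat.cast_nonneg _)
    have h7 := mul_le_mul_of_nonneg_right hKb hD0.le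
    have h8 := mul_le_mul_of_nonneg_right hKbx hε4'.le
    push_cast at h6 ⊢
    nlinarith
  have t6 : 4 * (b₁ : ℝ) * D / x ≤ ε ^ 2 / 4 := by
    have hε2 : 0 < ε ^ 2 := by positivity
    rw [div_le_iff₀ hε2] at hKc
    rw [div_le_div_iff₀ hx0 (by norm_num)]
    have h7 := mul_le_mul_of_nonneg_right hKc hD0.le
    have h8 := mul_le_mul_of_nonneg_right hKcx hε2.le
    nlinarith
  have t7 : 4 * (H : ℝ) / D ≤ ε ^ 2 / 4 := by
    have hε2 : 0 < ε ^ 2 := by positivity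
    rw [div_le_iff₀ hε2] at hN
    rw [div_le_div_iff₀ hD0 (by norm_num)]
    have h7 := mul_le_mul_of_nonneg_right hN hH0.le
    have h8 := mul_le_mul_of_nonneg_right hHD'' hε2.le
    nlinarith
  have hQA1 : QA ≤ ε ^ 4 / 8 := by linarith
  have hsq : Real.sqrt QA ≤ ε ^ 2 * (3 / 8) := by
    rw [show ε ^ 2 * (3 / 8) = Real.sqrt ((ε ^ 2 * (3 / 8)) ^ 2) from
      (Real.sqrt_sq (by positivity)).symm]
    refine Real.sqrt_le_sqrt (hQA1.trans ?_)
    have : (ε ^ 2 * (3 / 8)) ^ 2 = ε ^ 4 * (9 / 64) := by ring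
    rw [this]
    linarith
  have hE2 : E ^ 2 ≤ ε ^ 2 := by
    have hε2 : 0 < ε ^ 2 := by positivity
    linarith
  exact (pow_le_pow_iff_left₀ hE0 hε.le (by norm_num)).mp hE2

end Pool.Agent.N675.A3
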