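import Mathlib
import Pool.Agent.N675.A3.Fin1
import Pool.Agent.N368.A3.Fou

/-! The general case of the theorem. -/

namespace Pool.Agent.N675.A3

open Finset

/-- three shifts in increasing order -/
theorem mono3 (hT1 : S_T1) (hT2 : S_T2) (hT3 : S_T3) (β₀ β₁ β₂ : ℕ) (h01 : β₀ < β₁) (h12 : β₁ < β₂)
    (ε : ℝ) (hε : 0 < ε) :
    ∃ K : ℕ, 0 < K ∧ ∀ D X : ℕ, K ≤ D → K * D ≤ X → ∀ γ : ℝ,
      ∑ d ∈ Icc 1 D, ‖∑ n ∈ Icc 1 X, eR (γ * n) *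
        ((lf (n + β₀ * d) * lf (n + β₁ * d) * lf (n + β₂ * d) : ℝ) : ℂ)‖ ≤ ε * (X * D) := by
  classical
  set ε' : ℝ := min 1 (ε ^ 2 / 4) with hε'
  have hε'0 : 0 < ε' := lt_min one_pos (by positivity)
  have hε'1 : ε' ≤ ε ^ 2 / 4 := min_le_right _ _
  obtain ⟨K₁, hK₁, h1⟩ := three_sq hT1 hT2 hT3 (β₁ - β₀) (β₂ - β₁) (by omega) ε' hε'0 (min_le_left _ _)
  obtain ⟨K₂, hK₂⟩ := exists_nat_ge (8 * β₀ / ε : ℝ)
  refine ⟨K₁ + K₂, by omega, fun D X hD hX γ => ?_⟩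
  have hDpos : 0 < D := by omega
  have hX1 : K₁ * D ≤ X := by rw [add_mul] at hX; omega
  have hX2 : K₂ * D ≤ X := by rw [add_mul] at hX; omega
  have hXpos : 0 < X := lt_of_lt_of_le (Nat.mul_pos hK₁ hDpos) hX1
  have hD0 : (0 : ℝ) < D := by exact_mod_cast hDpos
  have hX0 : (0 : ℝ) < X := by exact_mod_cast hXpos
  have h2 := h1 D X (by omega) hX1 γ
  have e0 : β₁ - β₀ + (β₂ - β₁) = β₂ - β₀ := by omega
  rw [e0, div_le_iff₀ hD0] at h2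
  have h3 : ∀ d ∈ Icc 1 D, ‖∑ n ∈ Icc 1 X, eR (γ * n) *
        ((lf (n + β₀ * d) * lf (n + β₁ * d) * lf (n + β₂ * d) : ℝ) : ℂ)‖
      ≤ X * (ε / 4 + (1 / ε) * ‖TT lf (β₁ - β₀) (β₂ - β₀) X γ d‖ ^ 2) + 2 * β₀ * D := by
    intro d hd
    rw [mem_Icc] at hd
    have h4 := shift_le X (β₀ * d) 1 (fun n => eR (γ * n) *
      ((lf n * lf (n + (β₁ - β₀) * d) * lf (n + (β₂ - β₀) * d) : ℝ) : ℂ)) (by
        intro n
        rw [norm_mul, norm_eR, one_mul, Complex.norm_real, Real.norm_eq_abs, abs_mul, abs_mul]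
        exact mul_le_one₀ (mul_le_one₀ (abs_lf_le _) (abs_nonneg _) (abs_lf_le _)) (abs_nonneg _)
          (abs_lf_le _))
    have h5 : ∑ n ∈ Icc 1 X, eR (γ * n) *
        ((lf (n + β₀ * d) * lf (n + β₁ * d) * lf (n + β₂ * d) : ℝ) : ℂ)
        = eR (-(γ * (β₀ * d : ℕ))) * ∑ n ∈ Icc 1 X, eR (γ * (n + β₀ * d : ℕ)) *
        ((lf (n + β₀ * d) * lf (n + β₀ * d + (β₁ - β₀) * d)
          * lf (n + β₀ * d + (β₂ - β₀) * d) : ℝ) : ℂ) := by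
      rw [Finset.mul_sum]
      refine Finset.sum_congr rfl fun n _ => ?_
      have e1 : n + β₀ * d + (β₁ - β₀) * d = n + β₁ * d := by
        rw [add_assoc, ← add_mul]; congr 2; omega
      have e2 : n + β₀ * d + (β₂ - β₀) * d = n + β₂ * d := by
        rw [add_assoc, ← add_mul]; congr 2; omega
      rw [e1, e2, ← mul_assoc, ← eR_add]
      congr 2
      push_cast
      ring
    have h6 : ‖∑ n ∈ Icc 1 X, eR (γ * n) *
        ((lf n * lf (n + (β₁ - β₀) * d) * lf (n + (β₂ - β₀) * d) : ℝ) : ℂ)‖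
        = X * ‖TT lf (β₁ - β₀) (β₂ - β₀) X γ d‖ := by
      unfold TT
      rw [norm_div, Complex.norm_natCast]
      field_simp
    rw [h5, norm_mul, norm_eR, one_mul]
    have h7 := norm_sub_norm_le (∑ n ∈ Icc 1 X, eR (γ * (n + β₀ * d : ℕ)) *
        ((lf (n + β₀ * d) * lf (n + β₀ * d + (β₁ - β₀) * d)
          * lf (n + β₀ * d + (β₂ - β₀) * d) : ℝ) : ℂ)) (∑ n ∈ Icc 1 X, eR (γ * n) *
      ((lf n * lf (n + (β₁ - β₀) * d) * lf (n + (β₂ - β₀) * d) : ℝ) : ℂ))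
    rw [h6] at h7
    have h8 : 2 * ((β₀ * d : ℕ) : ℝ) * 1 ≤ 2 * β₀ * D := by
      have : ((β₀ * d : ℕ) : ℝ) ≤ β₀ * D := by exact_mod_cast Nat.mul_le_mul_left β₀ hd.2
      linarith
    have h9 : ‖TT lf (β₁ - β₀) (β₂ - β₀) X γ d‖ ≤ ε / 4
        + (1 / ε) * ‖TT lf (β₁ - β₀) (β₂ - β₀) X γ d‖ ^ 2 := by
      set y := ‖TT lf (β₁ - β₀) (β₂ - β₀) X γ d‖
      have e3 : 0 ≤ (1 / ε) * (y - ε / 2) ^ 2 := by positivity
      have e4 : (1 / ε) * (y - ε / 2) ^ 2 = (1 / ε) * y ^ 2 - y + ε / 4 := by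
        field_simp
        ring
      linarith
    have h10 := mul_le_mul_of_nonneg_left h9 hX0.le
    have h11 := h4.trans h8
    linarith
  have h4 := Finset.sum_le_sum h3
  refine h4.trans ?_
  rw [Finset.sum_add_distrib, ← Finset.mul_sum, Finset.sum_add_distrib, ← Finset.mul_sum,
    Finset.sum_const, Finset.sum_const, Nat.card_Icc, Nat.add_sub_cancel, nsmul_eq_mul, nsmul_eq_mul]
  have h5 : (1 / ε) * ∑ d ∈ Icc 1 D, ‖TT lf (β₁ - β₀) (β₂ - β₀) X γ d‖ ^ 2 ≤ ε / 4 * D := by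
    have h6 := mul_le_mul_of_nonneg_left h2 (by positivity : 0 ≤ 1 / ε)
    have h7 : (1 / ε) * (ε' * D) ≤ (1 / ε) * ((ε ^ 2 / 4) * D) :=
      mul_le_mul_of_nonneg_left (mul_le_mul_of_nonneg_right hε'1 hD0.le) (by positivity)
    have h8 : (1 / ε) * ((ε ^ 2 / 4) * (D : ℝ)) = ε / 4 * D := by field_simp
    linarith
  have h6 : (D : ℝ) * (2 * β₀ * D) ≤ ε / 4 * (X * D) := by
    rw [div_le_iff₀ hε] at hK₂
    have h7 : (K₂ : ℝ) * D ≤ X := by exact_mod_cast hX2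
    have h8 : 8 * (β₀ : ℝ) * D ≤ K₂ * ε * D := mul_le_mul_of_nonneg_right hK₂ hD0.le
    have h9 : K₂ * ε * (D : ℝ) ≤ ε * X := by nlinarith
    have h10 : 2 * (β₀ : ℝ) * D ≤ ε / 4 * X := by linarith
    have h11 := mul_le_mul_of_nonneg_right h10 hD0.le
    linarith
  have h7 := mul_le_mul_of_nonneg_left h5 hX0.le
  have h8 : 0 ≤ ε * ((X : ℝ) * D) := by positivity
  nlinarith

/-- three different shifts -/
theorem any3 (hT1 : S_T1) (hT2 : S_T2) (hT3 : S_T3) (β₀ β₁ β₂ : ℕ) (h01 : β₀ ≠ β₁) (h12 : β₁ ≠ β₂)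
    (h02 : β₀ ≠ β₂) (ε : ℝ) (hε : 0 < ε) :
    ∃ K : ℕ, 0 < K ∧ ∀ D X : ℕ, K ≤ D → K * D ≤ X → ∀ γ : ℝ,
      ∑ d ∈ Icc 1 D, ‖∑ n ∈ Icc 1 X, eR (γ * n) *
        ((lf (n + β₀ * d) * lf (n + β₁ * d) * lf (n + β₂ * d) : ℝ) : ℂ)‖ ≤ ε * (X * D) := by
  have key : ∀ u v w : ℕ, u < v → v < w → (∀ d n, lf (n + u * d) * lf (n + v * d) * lf (n + w * d)
      = lf (n + β₀ * d) * lf (n + β₁ * d) * lf (n + β₂ * d)) →
      ∃ K : ℕ, 0 < K ∧ ∀ D X : ℕ, K ≤ D → K * D ≤ X → ∀ γ : ℝ,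
      ∑ d ∈ Icc 1 D, ‖∑ n ∈ Icc 1 X, eR (γ * n) *
        ((lf (n + β₀ * d) * lf (n + β₁ * d) * lf (n + β₂ * d) : ℝ) : ℂ)‖ ≤ ε * (X * D) := by
    intro u v w huv hvw h
    have := mono3 hT1 hT2 hT3 u v w huv hvw ε hε
    simpa only [h] using this
  rcases lt_or_gt_of_ne h01 with h | h <;> rcases lt_or_gt_of_ne h12 with h' | h' <;>
    rcases lt_or_gt_of_ne h02 with h'' | h''
  · exact key β₀ β₁ β₂ h h' fun d n => rfl
  · omega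
  · exact key β₀ β₂ β₁ h'' h' fun d n => by ring
  · exact key β₂ β₀ β₁ h'' h fun d n => by ring
  · exact key β₁ β₀ β₂ h h'' fun d n => by ring
  · exact key β₁ β₂ β₀ h' h'' fun d n => by ring
  · omega
  · exact key β₂ β₁ β₀ h' h fun d n => by ring

/-- restriction to the multiples of `A` -/
lemma restrict (A : ℕ) (hA : 0 < A) (x : ℕ) (γ : ℝ) (F : ℕ → ℂ) :
    ∑ n ∈ Icc 1 x, eR (γ * n) * F (A * n)
      = (1 / (A : ℂ)) * ∑ r ∈ range A, ∑ N ∈ Icc 1 (A * x), eR (((r + γ) / A : ℝ) * N) * F N := by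
  have hA0 : (A : ℂ) ≠ 0 := by exact_mod_cast hA.ne'
  have hA0' : (A : ℝ) ≠ 0 := by exact_mod_cast hA.ne'
  have h1 : ∀ N ∈ Icc 1 (A * x), ∑ r ∈ range A, eR (((r + γ) / A : ℝ) * N) * F N
      = (if A ∣ N then (A : ℂ) * (eR (γ / A * N) * F N) else 0) := by
    intro N _
    have h2 : ∀ r ∈ range A, eR (((r + γ) / A : ℝ) * N) * F N
        = eR (((N : ℤ) : ℝ) * ((r : ℝ) / A)) * (eR (γ / A * N) * F N) := by
      intro r _
      rw [← mul_assoc, ← eR_add]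
      congr 2
      push_cast
      ring
    rw [Finset.sum_congr rfl h2, ← Finset.sum_mul, Pool.Agent.N368.A3.orth A hA N]
    by_cases h : A ∣ N
    · rw [if_pos h, if_pos (by exact_mod_cast h)]
    · rw [if_neg h, if_neg (by exact_mod_cast h), zero_mul]
  rw [Finset.sum_comm, Finset.sum_congr rfl h1, ← Finset.sum_filter, ← Finset.mul_sum,
    ← mul_assoc, one_div, inv_mul_cancel₀ hA0, one_mul]
  refine Finset.sum_bij (fun n _ => A * n) ?_ ?_ ?_ ?_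
  · intro n hn
    rw [mem_Icc] at hn
    rw [mem_filter, mem_Icc]
    exact ⟨⟨Nat.mul_pos hA hn.1, Nat.mul_le_mul_left A hn.2⟩, Dvd.intro _ rfl⟩
  · intro n _ n' _ h
    exact Nat.eq_of_mul_eq_mul_left hA h
  · intro N hN
    rw [mem_filter, mem_Icc] at hN
    obtain ⟨⟨h2, h3⟩, k, rfl⟩ := hN
    refine ⟨k, ?_, rfl⟩
    rw [mem_Icc]
    constructor
    · rcases Nat.eq_zero_or_pos k with h0 | h0
      · subst h0; omega
      · exact h0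
    · exact Nat.le_of_mul_le_mul_left h3 hA
  · intro n _
    congr 2
    push_cast
    field_simp

/-- the general case -/
theorem gen3 (hT1 : S_T1) (hT2 : S_T2) (hT3 : S_T3) (a₀ a₁ a₂ b₀ b₁ b₂ : ℕ) (ha₀ : 0 < a₀)
    (ha₁ : 0 < a₁) (ha₂ : 0 < a₂) (h01 : a₀ * b₁ ≠ a₁ * b₀) (h12 : a₁ * b₂ ≠ a₂ * b₁)
    (h02 : a₀ * b₂ ≠ a₂ * b₀) (ε : ℝ) (hε : 0 < ε) :
    ∃ K : ℕ, 0 < K ∧ ∀ D x : ℕ, K ≤ D → K * D ≤ x → ∀ γ : ℝ,
      ∑ d ∈ Icc 1 D, ‖∑ n ∈ Icc 1 x, eR (γ * n) *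
        ((lf (a₀ * n + b₀ * d) * lf (a₁ * n + b₁ * d) * lf (a₂ * n + b₂ * d) : ℝ) : ℂ)‖
        ≤ ε * (x * D) := by
  classical
  set A : ℕ := a₀ * a₁ * a₂ with hA
  have hApos : 0 < A := by positivity
  have hA0 : (0 : ℝ) < A := by exact_mod_cast hApos
  obtain ⟨K, hK, h1⟩ := any3 hT1 hT2 hT3 (a₁ * a₂ * b₀) (a₀ * a₂ * b₁) (a₀ * a₁ * b₂)
    (fun h => h01 (by
      have h2 : a₂ * (a₀ * b₁) = a₂ * (a₁ * b₀) := by linarith
      exact Nat.eq_of_mul_eq_mul_left ha₂ h2))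
    (fun h => h12 (by
      have h2 : a₀ * (a₁ * b₂) = a₀ * (a₂ * b₁) := by linarith
      exact Nat.eq_of_mul_eq_mul_left ha₀ h2))
    (fun h => h02 (by
      have h2 : a₁ * (a₀ * b₂) = a₁ * (a₂ * b₀) := by linarith
      exact Nat.eq_of_mul_eq_mul_left ha₁ h2)) (ε / A) (by positivity)
  refine ⟨K, hK, fun D x hD hx γ => ?_⟩
  have hAx : K * D ≤ A * x := hx.trans (Nat.le_mul_of_pos_left _ hApos)
  have h2 : ∀ d ∈ Icc 1 D, ‖∑ n ∈ Icc 1 x, eR (γ * n) *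
        ((lf (a₀ * n + b₀ * d) * lf (a₁ * n + b₁ * d) * lf (a₂ * n + b₂ * d) : ℝ) : ℂ)‖
      ≤ (1 / (A : ℝ)) * ∑ r ∈ range A, ‖∑ N ∈ Icc 1 (A * x), eR (((r + γ) / A : ℝ) * N) *
        ((lf (N + a₁ * a₂ * b₀ * d) * lf (N + a₀ * a₂ * b₁ * d)
          * lf (N + a₀ * a₁ * b₂ * d) : ℝ) : ℂ)‖ := by
    intro d _
    have h3 : ∑ n ∈ Icc 1 x, eR (γ * n) *
        ((lf (a₀ * n + b₀ * d) * lf (a₁ * n + b₁ * d) * lf (a₂ * n + b₂ * d) : ℝ) : ℂ)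
        = ((lf (a₁ * a₂) * lf (a₀ * a₂) * lf (a₀ * a₁) : ℝ) : ℂ) * ∑ n ∈ Icc 1 x, eR (γ * n) *
          ((lf (A * n + a₁ * a₂ * b₀ * d) * lf (A * n + a₀ * a₂ * b₁ * d)
          * lf (A * n + a₀ * a₁ * b₂ * d) : ℝ) : ℂ) := by
      rw [Finset.mul_sum]
      refine Finset.sum_congr rfl fun n hn => ?_
      rw [mem_Icc] at hn
      have hsq : ∀ m, lf m * lf m = 1 := by
        intro m
        rcases lf_or m with h | h <;> rw [h] <;> norm_num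
      have hn0 : ∀ a b : ℕ, 0 < a → 0 < a * n + b * d := fun a b ha => by
        have : 0 < a * n := Nat.mul_pos ha hn.1
        omega
      have e0 : A * n + a₁ * a₂ * b₀ * d = (a₁ * a₂) * (a₀ * n + b₀ * d) := by rw [hA]; ring
      have e1 : A * n + a₀ * a₂ * b₁ * d = (a₀ * a₂) * (a₁ * n + b₁ * d) := by rw [hA]; ring
      have e2 : A * n + a₀ * a₁ * b₂ * d = (a₀ * a₁) * (a₂ * n + b₂ * d) := by rw [hA]; ring
      rw [e0, e1, e2, lf_mul _ _ (by positivity) (hn0 a₀ b₀ ha₀),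
        lf_mul _ _ (by positivity) (hn0 a₁ b₁ ha₁), lf_mul _ _ (by positivity) (hn0 a₂ b₂ ha₂)]
      have e3 : lf (a₀ * n + b₀ * d) * lf (a₁ * n + b₁ * d) * lf (a₂ * n + b₂ * d)
          = (lf (a₁ * a₂) * lf (a₀ * a₂) * lf (a₀ * a₁)) *
            (lf (a₁ * a₂) * lf (a₀ * n + b₀ * d) * (lf (a₀ * a₂) * lf (a₁ * n + b₁ * d))
              * (lf (a₀ * a₁) * lf (a₂ * n + b₂ * d))) := by
        have : (lf (a₁ * a₂) * lf (a₀ * a₂) * lf (a₀ * a₁)) *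
            (lf (a₁ * a₂) * lf (a₀ * n + b₀ * d) * (lf (a₀ * a₂) * lf (a₁ * n + b₁ * d))
              * (lf (a₀ * a₁) * lf (a₂ * n + b₂ * d)))
            = (lf (a₁ * a₂) * lf (a₁ * a₂)) * (lf (a₀ * a₂) * lf (a₀ * a₂))
              * (lf (a₀ * a₁) * lf (a₀ * a₁))
              * (lf (a₀ * n + b₀ * d) * lf (a₁ * n + b₁ * d) * lf (a₂ * n + b₂ * d)) := by ring
        rw [this, hsq, hsq, hsq]
        ring
      rw [e3]
      push_cast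
      ring
    rw [h3, norm_mul]
    have h4 : ‖((lf (a₁ * a₂) * lf (a₀ * a₂) * lf (a₀ * a₁) : ℝ) : ℂ)‖ ≤ 1 := by
      rw [Complex.norm_real, Real.norm_eq_abs, abs_mul, abs_mul]
      exact mul_le_one₀ (mul_le_one₀ (abs_lf_le _) (abs_nonneg _) (abs_lf_le _)) (abs_nonneg _)
          (abs_lf_le _)
    refine (mul_le_of_le_one_left (norm_nonneg _) h4).trans ?_
    rw [restrict A hApos x γ (fun N => ((lf (N + a₁ * a₂ * b₀ * d) * lf (N + a₀ * a₂ * b₁ * d)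
          * lf (N + a₀ * a₁ * b₂ * d) : ℝ) : ℂ)), norm_mul]
    have h5 : ‖(1 / (A : ℂ))‖ = 1 / (A : ℝ) := by
      rw [norm_div, norm_one, Complex.norm_natCast]
    rw [h5]
    exact mul_le_mul_of_nonneg_left (norm_sum_le _ _) (by positivity)
  refine (Finset.sum_le_sum h2).trans ?_
  rw [← Finset.mul_sum, Finset.sum_comm]
  have h3 : ∀ r ∈ range A, ∑ d ∈ Icc 1 D, ‖∑ N ∈ Icc 1 (A * x), eR (((r + γ) / A : ℝ) * N) *
        ((lf (N + a₁ * a₂ * b₀ * d) * lf (N + a₀ * a₂ * b₁ * d)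
          * lf (N + a₀ * a₁ * b₂ * d) : ℝ) : ℂ)‖ ≤ ε / A * (((A * x : ℕ) : ℝ) * D) :=
    fun r _ => h1 D (A * x) hD hAx _
  have h4 := mul_le_mul_of_nonneg_left (Finset.sum_le_sum h3) (by positivity : 0 ≤ 1 / (A : ℝ))
  refine h4.trans (le_of_eq ?_)
  rw [Finset.sum_const, card_range, nsmul_eq_mul]
  push_cast
  field_simp

end Pool.Agent.N675.A3
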