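import Mathlib
import Pool.Agent.N675.A3.Fin2
import Pool.Agent.TH823.MRS.Circ3
import Pool.Agent.TH823.MRS.Fun

/-! One and two point correlations along dilates (known results, from the library). -/

namespace Pool.Agent.N675.A3

open Finset

lemma ee_eq (x : ℝ) : Pool.Agent.H807R2.Dav.ee x = eR x := by
  unfold Pool.Agent.H807R2.Dav.ee eR
  congr 1
  push_cast
  ring

/-- energy of a progression -/
lemma energy_one (x u : ℕ) (hu : 0 < u) :
    Pool.Agent.H373R2.T7.energy 1 x (fun m => ((u * m : ℕ) : ℤ)) ≤ x := by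
  unfold Pool.Agent.H373R2.T7.energy
  have h1 : (((Fintype.piFinset fun _ : Fin 1 => Icc 1 x) ×ˢ
      (Fintype.piFinset fun _ : Fin 1 => Icc 1 x)).filter
      (fun q => ∑ i, ((u * q.1 i : ℕ) : ℤ) = ∑ i, ((u * q.2 i : ℕ) : ℤ))).card
      ≤ (Icc 1 x).card := by
    refine Finset.card_le_card_of_injOn (fun q => q.1 0) ?_ ?_
    · intro q hq
      simp only [coe_filter, mem_product, Fintype.mem_piFinset, Set.mem_ofPred_eq] at hq
      exact_mod_cast hq.1.1 0
    · intro q hq q' hq' h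
      simp only [coe_filter, mem_product, Fintype.mem_piFinset, Set.mem_ofPred_eq,
        Fin.sum_univ_one] at hq hq'
      have e1 : u * q.1 0 = u * q.2 0 := by exact_mod_cast hq.2
      have e2 : u * q'.1 0 = u * q'.2 0 := by exact_mod_cast hq'.2
      have e3 := Nat.eq_of_mul_eq_mul_left hu e1
      have e4 := Nat.eq_of_mul_eq_mul_left hu e2
      simp only at h
      refine Prod.ext ?_ ?_
      · funext i
        rw [Fin.fin_one_eq_zero i]; exact h
      · funext i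
        rw [Fin.fin_one_eq_zero i, ← e3, ← e4]; exact h
  rwa [Nat.card_Icc, Nat.add_sub_cancel] at h1

/-- the two point correlations -/
lemma two_base (u : ℕ) (hu : 0 < u) (ε : ℝ) (hε : 0 < ε) :
    ∃ K : ℕ, 0 < K ∧ ∀ D X : ℕ, K ≤ D → K * D ≤ X → ∀ γ : ℝ,
      ∑ d ∈ Icc 1 D, ‖∑ n ∈ Icc 1 X, eR (γ * n) * ((lf n * lf (n + u * d) : ℝ) : ℂ)‖
        ≤ ε * (X * D) := by
  obtain ⟨H₀, N₀, h⟩ := Pool.Agent.TH823.MRS.l1_short
    (fun n => ((Pool.Agent.H376R2.MR.lam n : ℤ) : ℂ)) (by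
      intro n
      unfold Pool.Agent.H376R2.MR.lam
      push_cast
      rw [norm_pow, norm_neg, norm_one, one_pow])
    Pool.Agent.TH823.MRS.expo_lam 1 u (Nat.cast_nonneg _) ε hε
  refine ⟨H₀ + N₀ + u + 1, by omega, fun D X hD hX γ => ?_⟩
  have hX1 : (H₀ + N₀ + u + 1) * D = H₀ * D + N₀ * D + u * D + D := by ring
  rw [hX1] at hX
  have hDpos : 0 < D := by omega
  have hN : N₀ ≤ X := by
    have : N₀ * 1 ≤ N₀ * D := Nat.mul_le_mul_left _ hDpos
    omega
  have hH : H₀ ≤ u * D := by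
    have : 1 * D ≤ u * D := Nat.mul_le_mul_right _ hu
    omega
  have h1 := h X hN (u * D) hH (by omega) D (fun m => ((u * m : ℕ) : ℤ)) (by
      intro m hm
      rw [mem_Icc] at hm
      rw [abs_of_nonneg (by positivity)]
      exact_mod_cast Nat.mul_le_mul_left u hm.2) (by
      have h2 : ((Pool.Agent.H373R2.T7.energy 1 D (fun m => ((u * m : ℕ) : ℤ)) : ℕ) : ℝ) ≤ D := by
        exact_mod_cast energy_one D u hu
      push_cast at h2 ⊢
      have h3 : (0 : ℝ) ≤ u * D := by positivity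
      nlinarith [mul_le_mul_of_nonneg_right h2 h3])
    (fun a => if 1 ≤ a then eR (γ * a) * ((lf a.toNat : ℝ) : ℂ) else 0) (by
      intro a
      split_ifs
      · rw [norm_mul, norm_eR, one_mul, Complex.norm_real, Real.norm_eq_abs]
        exact abs_lf_le _
      · simp)
  have h2 : ∀ d ∈ Icc 1 D, ‖∑ n ∈ Icc 1 X, eR (γ * n) * ((lf n * lf (n + u * d) : ℝ) : ℂ)‖
      = ‖∑ a ∈ Ioc (-((u * D : ℕ) : ℤ)) X, (if 1 ≤ a then eR (γ * a) * ((lf a.toNat : ℝ) : ℂ) else 0)
        * Pool.Agent.H373R2.T7.exI (fun n => ((Pool.Agent.H376R2.MR.lam n : ℤ) : ℂ))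
          (a + ((u * d : ℕ) : ℤ))‖ := by
    intro d _
    congr 1
    have e1 : ∑ a ∈ Ioc (-((u * D : ℕ) : ℤ)) X, (if 1 ≤ a then eR (γ * a) * ((lf a.toNat : ℝ) : ℂ) else 0)
        * Pool.Agent.H373R2.T7.exI (fun n => ((Pool.Agent.H376R2.MR.lam n : ℤ) : ℂ))
          (a + ((u * d : ℕ) : ℤ))
        = ∑ a ∈ (Ioc (-((u * D : ℕ) : ℤ)) X).filter (fun a => 1 ≤ a), (eR (γ * a) * ((lf a.toNat : ℝ) : ℂ))
        * Pool.Agent.H373R2.T7.exI (fun n => ((Pool.Agent.H376R2.MR.lam n : ℤ) : ℂ))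
          (a + ((u * d : ℕ) : ℤ)) := by
      rw [Finset.sum_filter]
      refine Finset.sum_congr rfl fun a _ => ?_
      split_ifs
      · rfl
      · rw [zero_mul]
    rw [e1]
    refine Finset.sum_bij (fun n _ => (n : ℤ)) ?_ ?_ ?_ ?_
    · intro n hn
      rw [mem_Icc] at hn
      rw [mem_filter, mem_Ioc]
      omega
    · intro n _ n' _ h
      exact_mod_cast h
    · intro a ha
      rw [mem_filter, mem_Ioc] at ha
      refine ⟨a.toNat, ?_, ?_⟩
      · rw [mem_Icc]; omega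
      · omega
    · intro n hn
      rw [mem_Icc] at hn
      unfold Pool.Agent.H373R2.T7.exI
      have e2 : (1 : ℤ) ≤ (n : ℤ) + ((u * d : ℕ) : ℤ) := by omega
      rw [if_pos e2]
      have e3 : ((n : ℤ) + ((u * d : ℕ) : ℤ)).toNat = n + u * d := by omega
      rw [e3, Int.toNat_natCast]
      unfold lf Pool.Agent.H376R2.MR.lam
      push_cast
      ring
  rw [Finset.sum_congr rfl h2]
  refine h1.trans (le_of_eq (by ring))

end Pool.Agent.N675.A3
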