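import Mathlib
import Pool.Agent.N675.A3.Two

/-! Sign patterns along dilates. -/

namespace Pool.Agent.N675.A3

open Finset

/-- the supremum over the frequencies -/
lemma sup1 (ε : ℝ) (hε : 0 < ε) :
    ∃ K : ℕ, 0 < K ∧ ∀ X : ℕ, K ≤ X → ∀ γ : ℝ,
      ‖∑ n ∈ Icc 1 X, eR (γ * n) * ((lf n : ℝ) : ℂ)‖ ≤ ε * X := by
  obtain ⟨K, hK⟩ := odd3 0 0 ε hε
  refine ⟨K + 1, by omega, fun X hX γ => ?_⟩
  have h1 := hK X (K + 1) (by omega) (by omega) γ 0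
  have h2 : ∑ n ∈ Icc 1 X, ∑ t ∈ Icc 1 (K + 1), eR (γ * n + 0 * t) *
        ((lf n * lf (n + 0 * t) * lf (n + 0 * t) : ℝ) : ℂ)
      = ((K + 1 : ℕ) : ℂ) * ∑ n ∈ Icc 1 X, eR (γ * n) * ((lf n : ℝ) : ℂ) := by
    rw [Finset.mul_sum]
    refine Finset.sum_congr rfl fun n _ => ?_
    have e : lf n * lf n * lf n = lf n := by
      rcases lf_or n with h | h <;> rw [h] <;> norm_num
    simp only [zero_mul, add_zero, e, Finset.sum_const, Nat.card_Icc, Nat.add_sub_cancel,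
      nsmul_eq_mul]
  rw [h2, norm_mul, Complex.norm_natCast] at h1
  have h3 : (0 : ℝ) < ((K + 1 : ℕ) : ℝ) := by positivity
  have h4 : ((K + 1 : ℕ) : ℝ) * ‖∑ n ∈ Icc 1 X, eR (γ * n) * ((lf n : ℝ) : ℂ)‖
      ≤ ((K + 1 : ℕ) : ℝ) * (ε * X) := by linarith
  exact le_of_mul_le_mul_left h4 h3

/-- a shift inside a twisted sum -/
lemma shift_norm (X s : ℕ) (γ : ℝ) (G : ℕ → ℂ) (hG : ∀ n, ‖G n‖ ≤ 1) :
    ‖∑ n ∈ Icc 1 X, eR (γ * n) * G (n + s)‖ ≤ ‖∑ n ∈ Icc 1 X, eR (γ * n) * G n‖ + 2 * s := by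
  have h4 := shift_le X s 1 (fun n => eR (γ * n) * G n) (by
        intro n
        rw [norm_mul, norm_eR, one_mul]
        exact hG n)
  have h5 : ∑ n ∈ Icc 1 X, eR (γ * n) * G (n + s)
      = eR (-(γ * s)) * ∑ n ∈ Icc 1 X, eR (γ * (n + s : ℕ)) * G (n + s) := by
    rw [Finset.mul_sum]
    refine Finset.sum_congr rfl fun n _ => ?_
    rw [← mul_assoc, ← eR_add]
    congr 2
    push_cast
    ring
  rw [h5, norm_mul, norm_eR, one_mul]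
  have h7 := norm_sub_norm_le (∑ n ∈ Icc 1 X, eR (γ * (n + s : ℕ)) * G (n + s))
    (∑ n ∈ Icc 1 X, eR (γ * n) * G n)
  linarith

/-- sum over the dilates of a bound up to a shift -/
lemma shift_sum (F G : ℕ → ℝ) (D X s : ℕ) (ε : ℝ) (h : ∀ d ∈ Icc 1 D, F d ≤ G d + 2 * (s * d))
    (hG : ∑ d ∈ Icc 1 D, G d ≤ ε / 2 * (X * D)) (hX : 4 * s / ε * D ≤ X) (hε : 0 < ε) :
    ∑ d ∈ Icc 1 D, F d ≤ ε * (X * D) := by
  have h1 : ∑ d ∈ Icc 1 D, F d ≤ ∑ d ∈ Icc 1 D, (G d + 2 * (s * D)) := by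
    refine Finset.sum_le_sum fun d hd => (h d hd).trans ?_
    rw [mem_Icc] at hd
    have : (d : ℝ) ≤ D := by exact_mod_cast hd.2
    have := mul_le_mul_of_nonneg_left this (Nat.cast_nonneg (α := ℝ) s)
    linarith
  rw [Finset.sum_add_distrib, Finset.sum_const, Nat.card_Icc, Nat.add_sub_cancel, nsmul_eq_mul] at h1
  have h2 : 4 * (s : ℝ) * D ≤ ε * X := by
    have := mul_le_mul_of_nonneg_left hX hε.le
    have e : ε * (4 * s / ε * D) = 4 * (s : ℝ) * D := by field_simp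
    linarith
  have h3 := mul_le_mul_of_nonneg_right h2 (Nat.cast_nonneg (α := ℝ) D)
  linarith

lemma one_base (β : ℕ) (ε : ℝ) (hε : 0 < ε) :
    ∃ K : ℕ, 0 < K ∧ ∀ D X : ℕ, K ≤ D → K * D ≤ X → ∀ γ : ℝ,
      ∑ d ∈ Icc 1 D, ‖∑ n ∈ Icc 1 X, eR (γ * n) * ((lf (n + β * d) : ℝ) : ℂ)‖ ≤ ε * (X * D) := by
  obtain ⟨K, hK, h⟩ := sup1 (ε / 2) (by positivity)
  obtain ⟨K₂, hK₂⟩ := exists_nat_ge (4 * β / ε : ℝ)
  refine ⟨K + K₂, by omega, fun D X hD hX γ => ?_⟩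
  have hX' : K * D + K₂ * D ≤ X := by rw [← add_mul]; exact hX
  have hDpos : 0 < D := by omega
  have hKX : K ≤ X := by
    have : K * 1 ≤ K * D := Nat.mul_le_mul_left _ hDpos
    omega
  refine shift_sum _ (fun _ => ε / 2 * X) D X β ε (fun d _ => ?_) ?_ ?_ hε
  · have h1 := shift_norm X (β * d) γ (fun n => ((lf n : ℝ) : ℂ)) (fun n => by
      rw [Complex.norm_real]; exact abs_lf_le n)
    have h2 := h X hKX γ
    push_cast at h1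
    linarith
  · rw [Finset.sum_const, Nat.card_Icc, Nat.add_sub_cancel, nsmul_eq_mul]
    exact le_of_eq (by ring)
  · have h3 : ((K₂ * D : ℕ) : ℝ) ≤ X := by exact_mod_cast (by omega : K₂ * D ≤ X)
    push_cast at h3
    exact (mul_le_mul_of_nonneg_right hK₂ (Nat.cast_nonneg D)).trans h3

lemma two_lt (β₀ β₁ : ℕ) (h01 : β₀ < β₁) (ε : ℝ) (hε : 0 < ε) :
    ∃ K : ℕ, 0 < K ∧ ∀ D X : ℕ, K ≤ D → K * D ≤ X → ∀ γ : ℝ,
      ∑ d ∈ Icc 1 D, ‖∑ n ∈ Icc 1 X, eR (γ * n) *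
        ((lf (n + β₀ * d) * lf (n + β₁ * d) : ℝ) : ℂ)‖ ≤ ε * (X * D) := by
  obtain ⟨K, hK, h⟩ := two_base (β₁ - β₀) (by omega) (ε / 2) (by positivity)
  obtain ⟨K₂, hK₂⟩ := exists_nat_ge (4 * β₀ / ε : ℝ)
  refine ⟨K + K₂, by omega, fun D X hD hX γ => ?_⟩
  have hX' : K * D + K₂ * D ≤ X := by rw [← add_mul]; exact hX
  refine shift_sum _ (fun d => ‖∑ n ∈ Icc 1 X, eR (γ * n) *
    ((lf n * lf (n + (β₁ - β₀) * d) : ℝ) : ℂ)‖) D X β₀ ε (fun d _ => ?_) ?_ ?_ hε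
  · have h1 := shift_norm X (β₀ * d) γ (fun n => ((lf n * lf (n + (β₁ - β₀) * d) : ℝ) : ℂ))
      (fun n => by
        rw [Complex.norm_real, Real.norm_eq_abs, abs_mul]
        exact mul_le_one₀ (abs_lf_le _) (abs_nonneg _) (abs_lf_le _))
    have e : ∀ n : ℕ, n + β₀ * d + (β₁ - β₀) * d = n + β₁ * d := by
      intro n
      rw [add_assoc, ← add_mul]; congr 2; omega
    simp only [e] at h1
    push_cast at h1 ⊢
    exact h1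
  · exact h D X (by omega) (by omega) γ
  · have h3 : ((K₂ * D : ℕ) : ℝ) ≤ X := by exact_mod_cast (by omega : K₂ * D ≤ X)
    push_cast at h3
    exact (mul_le_mul_of_nonneg_right hK₂ (Nat.cast_nonneg D)).trans h3

lemma two_ne (β₀ β₁ : ℕ) (h01 : β₀ ≠ β₁) (ε : ℝ) (hε : 0 < ε) :
    ∃ K : ℕ, 0 < K ∧ ∀ D X : ℕ, K ≤ D → K * D ≤ X → ∀ γ : ℝ,
      ∑ d ∈ Icc 1 D, ‖∑ n ∈ Icc 1 X, eR (γ * n) *
        ((lf (n + β₀ * d) * lf (n + β₁ * d) : ℝ) : ℂ)‖ ≤ ε * (X * D) := by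
  rcases lt_or_gt_of_ne h01 with h | h
  · exact two_lt β₀ β₁ h ε hε
  · obtain ⟨K, hK, h1⟩ := two_lt β₁ β₀ h ε hε
    refine ⟨K, hK, fun D X hD hX γ => ?_⟩
    have := h1 D X hD hX γ
    simpa only [mul_comm (lf (_ + β₁ * _))] using this

/-- a factor of the product, or `1` -/
noncomputable def ph (c : Bool) (v : ℕ) : ℝ := if c then lf v else 1

lemma ph_or (c : Bool) (v : ℕ) : ph c v = 1 ∨ ph c v = -1 := by
  cases c
  · left; rfl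
  · exact lf_or v

lemma abs_ph_le (c : Bool) (v : ℕ) : |ph c v| ≤ 1 := by
  rcases ph_or c v with h | h <;> rw [h] <;> norm_num

lemma ph_mul (c : Bool) (m n : ℕ) (hm : 0 < m) (hn : 0 < n) : ph c (m * n) = ph c m * ph c n := by
  cases c
  · simp [ph]
  · exact lf_mul m n hm hn

lemma monic_c (hT1 : S_T1) (hT2 : S_T2) (hT3 : S_T3) (β₀ β₁ β₂ : ℕ) (h01 : β₀ ≠ β₁) (h12 : β₁ ≠ β₂)
    (h02 : β₀ ≠ β₂) (c₀ c₁ c₂ : Bool) (hc : ¬ (c₀ = false ∧ c₁ = false ∧ c₂ = false))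
    (ε : ℝ) (hε : 0 < ε) :
    ∃ K : ℕ, 0 < K ∧ ∀ D X : ℕ, K ≤ D → K * D ≤ X → ∀ γ : ℝ,
      ∑ d ∈ Icc 1 D, ‖∑ n ∈ Icc 1 X, eR (γ * n) *
        ((ph c₀ (n + β₀ * d) * ph c₁ (n + β₁ * d) * ph c₂ (n + β₂ * d) : ℝ) : ℂ)‖
        ≤ ε * (X * D) := by
  cases c₀ <;> cases c₁ <;> cases c₂
  · exact absurd ⟨rfl, rfl, rfl⟩ hc
  · simpa only [ph, if_true, Bool.false_eq_true, if_false, one_mul, mul_one] using one_base β₂ ε hε
  · simpa only [ph, if_true, Bool.false_eq_true, if_false, one_mul, mul_one] using one_base β₁ ε hε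
  · simpa only [ph, if_true, Bool.false_eq_true, if_false, one_mul, mul_one] using two_ne β₁ β₂ h12 ε hε
  · simpa only [ph, if_true, Bool.false_eq_true, if_false, one_mul, mul_one] using one_base β₀ ε hε
  · simpa only [ph, if_true, Bool.false_eq_true, if_false, one_mul, mul_one] using two_ne β₀ β₂ h02 ε hε
  · simpa only [ph, if_true, Bool.false_eq_true, if_false, one_mul, mul_one] using two_ne β₀ β₁ h01 ε hε
  · simpa only [ph, if_true] using any3 hT1 hT2 hT3 β₀ β₁ β₂ h01 h12 h02 ε hε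

/-- the general case -/
theorem gen_c (hT1 : S_T1) (hT2 : S_T2) (hT3 : S_T3) (a₀ a₁ a₂ b₀ b₁ b₂ : ℕ) (ha₀ : 0 < a₀)
    (ha₁ : 0 < a₁) (ha₂ : 0 < a₂) (h01 : a₀ * b₁ ≠ a₁ * b₀) (h12 : a₁ * b₂ ≠ a₂ * b₁)
    (h02 : a₀ * b₂ ≠ a₂ * b₀) (c₀ c₁ c₂ : Bool) (hc : ¬ (c₀ = false ∧ c₁ = false ∧ c₂ = false))
    (ε : ℝ) (hε : 0 < ε) :
    ∃ K : ℕ, 0 < K ∧ ∀ D x : ℕ, K ≤ D → K * D ≤ x → ∀ γ : ℝ,
      ∑ d ∈ Icc 1 D, ‖∑ n ∈ Icc 1 x, eR (γ * n) *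
        ((ph c₀ (a₀ * n + b₀ * d) * ph c₁ (a₁ * n + b₁ * d) * ph c₂ (a₂ * n + b₂ * d) : ℝ) : ℂ)‖
        ≤ ε * (x * D) := by
  classical
  set A : ℕ := a₀ * a₁ * a₂ with hA
  have hApos : 0 < A := by positivity
  have hA0 : (0 : ℝ) < A := by exact_mod_cast hApos
  obtain ⟨K, hK, h1⟩ := monic_c hT1 hT2 hT3 (a₁ * a₂ * b₀) (a₀ * a₂ * b₁) (a₀ * a₁ * b₂)
    (fun h => h01 (by
      have h2 : a₂ * (a₀ * b₁) = a₂ * (a₁ * b₀) := by linarith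
      exact Nat.eq_of_mul_eq_mul_left ha₂ h2))
    (fun h => h12 (by
      have h2 : a₀ * (a₁ * b₂) = a₀ * (a₂ * b₁) := by linarith
      exact Nat.eq_of_mul_eq_mul_left ha₀ h2))
    (fun h => h02 (by
      have h2 : a₁ * (a₀ * b₂) = a₁ * (a₂ * b₀) := by linarith
      exact Nat.eq_of_mul_eq_mul_left ha₁ h2)) c₀ c₁ c₂ hc (ε / A) (by positivity)
  refine ⟨K, hK, fun D x hD hx γ => ?_⟩
  have hAx : K * D ≤ A * x := hx.trans (Nat.le_mul_of_pos_left _ hApos)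
  have h2 : ∀ d ∈ Icc 1 D, ‖∑ n ∈ Icc 1 x, eR (γ * n) *
        ((ph c₀ (a₀ * n + b₀ * d) * ph c₁ (a₁ * n + b₁ * d) * ph c₂ (a₂ * n + b₂ * d) : ℝ) : ℂ)‖
      ≤ (1 / (A : ℝ)) * ∑ r ∈ range A, ‖∑ N ∈ Icc 1 (A * x), eR (((r + γ) / A : ℝ) * N) *
        ((ph c₀ (N + a₁ * a₂ * b₀ * d) * ph c₁ (N + a₀ * a₂ * b₁ * d)
          * ph c₂ (N + a₀ * a₁ * b₂ * d) : ℝ) : ℂ)‖ := by
    intro d _
    have h3 : ∑ n ∈ Icc 1 x, eR (γ * n) *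
        ((ph c₀ (a₀ * n + b₀ * d) * ph c₁ (a₁ * n + b₁ * d) * ph c₂ (a₂ * n + b₂ * d) : ℝ) : ℂ)
        = ((ph c₀ (a₁ * a₂) * ph c₁ (a₀ * a₂) * ph c₂ (a₀ * a₁) : ℝ) : ℂ) *
          ∑ n ∈ Icc 1 x, eR (γ * n) *
          ((ph c₀ (A * n + a₁ * a₂ * b₀ * d) * ph c₁ (A * n + a₀ * a₂ * b₁ * d)
          * ph c₂ (A * n + a₀ * a₁ * b₂ * d) : ℝ) : ℂ) := by
      rw [Finset.mul_sum]
      refine Finset.sum_congr rfl fun n hn => ?_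
      rw [mem_Icc] at hn
      have hsq : ∀ c m, ph c m * ph c m = 1 := by
        intro c m
        rcases ph_or c m with h | h <;> rw [h] <;> norm_num
      have hn0 : ∀ a b : ℕ, 0 < a → 0 < a * n + b * d := fun a b ha => by
        have : 0 < a * n := Nat.mul_pos ha hn.1
        omega
      have e0 : A * n + a₁ * a₂ * b₀ * d = (a₁ * a₂) * (a₀ * n + b₀ * d) := by rw [hA]; ring
      have e1 : A * n + a₀ * a₂ * b₁ * d = (a₀ * a₂) * (a₁ * n + b₁ * d) := by rw [hA]; ring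
      have e2 : A * n + a₀ * a₁ * b₂ * d = (a₀ * a₁) * (a₂ * n + b₂ * d) := by rw [hA]; ring
      rw [e0, e1, e2, ph_mul _ _ _ (by positivity) (hn0 a₀ b₀ ha₀),
        ph_mul _ _ _ (by positivity) (hn0 a₁ b₁ ha₁), ph_mul _ _ _ (by positivity) (hn0 a₂ b₂ ha₂)]
      have e3 : ph c₀ (a₀ * n + b₀ * d) * ph c₁ (a₁ * n + b₁ * d) * ph c₂ (a₂ * n + b₂ * d)
          = (ph c₀ (a₁ * a₂) * ph c₁ (a₀ * a₂) * ph c₂ (a₀ * a₁)) *
            (ph c₀ (a₁ * a₂) * ph c₀ (a₀ * n + b₀ * d) * (ph c₁ (a₀ * a₂) * ph c₁ (a₁ * n + b₁ * d))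
              * (ph c₂ (a₀ * a₁) * ph c₂ (a₂ * n + b₂ * d))) := by
        have : (ph c₀ (a₁ * a₂) * ph c₁ (a₀ * a₂) * ph c₂ (a₀ * a₁)) *
            (ph c₀ (a₁ * a₂) * ph c₀ (a₀ * n + b₀ * d) * (ph c₁ (a₀ * a₂) * ph c₁ (a₁ * n + b₁ * d))
              * (ph c₂ (a₀ * a₁) * ph c₂ (a₂ * n + b₂ * d)))
            = (ph c₀ (a₁ * a₂) * ph c₀ (a₁ * a₂)) * (ph c₁ (a₀ * a₂) * ph c₁ (a₀ * a₂))
              * (ph c₂ (a₀ * a₁) * ph c₂ (a₀ * a₁))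
              * (ph c₀ (a₀ * n + b₀ * d) * ph c₁ (a₁ * n + b₁ * d) * ph c₂ (a₂ * n + b₂ * d)) := by
          ring
        rw [this, hsq, hsq, hsq]
        ring
      rw [e3]
      push_cast
      ring
    rw [h3, norm_mul]
    have h4 : ‖((ph c₀ (a₁ * a₂) * ph c₁ (a₀ * a₂) * ph c₂ (a₀ * a₁) : ℝ) : ℂ)‖ ≤ 1 := by
      rw [Complex.norm_real, Real.norm_eq_abs, abs_mul, abs_mul]
      exact mul_le_one₀ (mul_le_one₀ (abs_ph_le _ _) (abs_nonneg _) (abs_ph_le _ _)) (abs_nonneg _)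
          (abs_ph_le _ _)
    refine (mul_le_of_le_one_left (norm_nonneg _) h4).trans ?_
    rw [restrict A hApos x γ (fun N => ((ph c₀ (N + a₁ * a₂ * b₀ * d) * ph c₁ (N + a₀ * a₂ * b₁ * d)
          * ph c₂ (N + a₀ * a₁ * b₂ * d) : ℝ) : ℂ)), norm_mul]
    have h5 : ‖(1 / (A : ℂ))‖ = 1 / (A : ℝ) := by
      rw [norm_div, norm_one, Complex.norm_natCast]
    rw [h5]
    exact mul_le_mul_of_nonneg_left (norm_sum_le _ _) (by positivity)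
  refine (Finset.sum_le_sum h2).trans ?_
  rw [← Finset.mul_sum, Finset.sum_comm]
  have h3 : ∀ r ∈ range A, ∑ d ∈ Icc 1 D, ‖∑ N ∈ Icc 1 (A * x), eR (((r + γ) / A : ℝ) * N) *
        ((ph c₀ (N + a₁ * a₂ * b₀ * d) * ph c₁ (N + a₀ * a₂ * b₁ * d)
          * ph c₂ (N + a₀ * a₁ * b₂ * d) : ℝ) : ℂ)‖ ≤ ε / A * (((A * x : ℕ) : ℝ) * D) :=
    fun r _ => h1 D (A * x) hD hAx _
  have h4 := mul_le_mul_of_nonneg_left (Finset.sum_le_sum h3) (by positivity : 0 ≤ 1 / (A : ℝ))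
  refine h4.trans (le_of_eq ?_)
  rw [Finset.sum_const, card_range, nsmul_eq_mul]
  push_cast
  field_simp

end Pool.Agent.N675.A3
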