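import Mathlib
import Pool.Agent.N675.A3.Pat

/-! Sign patterns along dilates: the final statement. -/

namespace Pool.Agent.N675.A3

open Finset

lemma sgn_ind (u : ℝ) (hu : u = 1 ∨ u = -1) (s : ℝ) (hs : s = 1 ∨ s = -1) :
    (if u = s then (1 : ℝ) else 0) = (1 + s * u) / 2 := by
  rcases hu with h | h <;> rcases hs with h' | h' <;> rw [h, h'] <;> norm_num

lemma ind3 (A B C : Prop) [Decidable A] [Decidable B] [Decidable C] :
    (if A ∧ B ∧ C then (1 : ℝ) else 0)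
      = (if A then (1 : ℝ) else 0) * (if B then (1 : ℝ) else 0) * (if C then (1 : ℝ) else 0) := by
  by_cases hA : A <;> by_cases hB : B <;> by_cases hC : C <;> simp [hA, hB, hC]

theorem patterns (hT1 : S_T1) (hT2 : S_T2) (hT3 : S_T3) (a₀ a₁ a₂ b₀ b₁ b₂ : ℕ) (ha₀ : 0 < a₀)
    (ha₁ : 0 < a₁) (ha₂ : 0 < a₂) (h01 : a₀ * b₁ ≠ a₁ * b₀) (h12 : a₁ * b₂ ≠ a₂ * b₁)
    (h02 : a₀ * b₂ ≠ a₂ * b₀) (ε : ℝ) (hε : 0 < ε) :
    ∃ K : ℕ, 0 < K ∧ ∀ D x : ℕ, K ≤ D → K * D ≤ x → ∀ γ : ℝ, ∀ s₀ s₁ s₂ : ℝ,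
      (s₀ = 1 ∨ s₀ = -1) → (s₁ = 1 ∨ s₁ = -1) → (s₂ = 1 ∨ s₂ = -1) →
      ∑ d ∈ Icc 1 D, ‖∑ n ∈ Icc 1 x, eR (γ * n) *
        (((if lf (a₀ * n + b₀ * d) = s₀ ∧ lf (a₁ * n + b₁ * d) = s₁ ∧ lf (a₂ * n + b₂ * d) = s₂
          then (1 : ℝ) else 0) - 1 / 8 : ℝ) : ℂ)‖ ≤ ε * (x * D) := by
  classical
  have hgen := fun c₀ c₁ c₂ hc => gen_c hT1 hT2 hT3 a₀ a₁ a₂ b₀ b₁ b₂ ha₀ ha₁ ha₂ h01 h12 h02
    c₀ c₁ c₂ hc ε hε
  obtain ⟨K1, hK1, g1⟩ := hgen true false false (by simp)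
  obtain ⟨K2, hK2, g2⟩ := hgen false true false (by simp)
  obtain ⟨K3, hK3, g3⟩ := hgen false false true (by simp)
  obtain ⟨K4, hK4, g4⟩ := hgen true true false (by simp)
  obtain ⟨K5, hK5, g5⟩ := hgen true false true (by simp)
  obtain ⟨K6, hK6, g6⟩ := hgen false true true (by simp)
  obtain ⟨K7, hK7, g7⟩ := hgen true true true (by simp)
  refine ⟨K1 + K2 + K3 + K4 + K5 + K6 + K7, by omega, fun D x hD hx γ s₀ s₁ s₂ hs₀ hs₁ hs₂ => ?_⟩
  have hx' : K1 * D + K2 * D + K3 * D + K4 * D + K5 * D + K6 * D + K7 * D ≤ x := by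
    calc _ = (K1 + K2 + K3 + K4 + K5 + K6 + K7) * D := by ring
      _ ≤ x := hx
  have e1 := g1 D x (by omega) (by omega) γ
  have e2 := g2 D x (by omega) (by omega) γ
  have e3 := g3 D x (by omega) (by omega) γ
  have e4 := g4 D x (by omega) (by omega) γ
  have e5 := g5 D x (by omega) (by omega) γ
  have e6 := g6 D x (by omega) (by omega) γ
  have e7 := g7 D x (by omega) (by omega) γ
  -- the seven sums
  set Z : Bool → Bool → Bool → ℕ → ℂ := fun c₀ c₁ c₂ d => ∑ n ∈ Icc 1 x, eR (γ * n) *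
        ((ph c₀ (a₀ * n + b₀ * d) * ph c₁ (a₁ * n + b₁ * d) * ph c₂ (a₂ * n + b₂ * d) : ℝ) : ℂ) with hZ
  have hone : ∀ s : ℝ, (s = 1 ∨ s = -1) → ‖((s : ℝ) : ℂ)‖ = 1 := by
    intro s hs
    rw [Complex.norm_real, Real.norm_eq_abs]
    rcases hs with h | h <;> rw [h] <;> norm_num
  have h1 : ∀ d ∈ Icc 1 D, ‖∑ n ∈ Icc 1 x, eR (γ * n) *
        (((if lf (a₀ * n + b₀ * d) = s₀ ∧ lf (a₁ * n + b₁ * d) = s₁ ∧ lf (a₂ * n + b₂ * d) = s₂
          then (1 : ℝ) else 0) - 1 / 8 : ℝ) : ℂ)‖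
      ≤ (1 / 8) * (‖Z true false false d‖ + ‖Z false true false d‖ + ‖Z false false true d‖
        + ‖Z true true false d‖ + ‖Z true false true d‖ + ‖Z false true true d‖
        + ‖Z true true true d‖) := by
    intro d _
    have h2 : ∑ n ∈ Icc 1 x, eR (γ * n) *
        (((if lf (a₀ * n + b₀ * d) = s₀ ∧ lf (a₁ * n + b₁ * d) = s₁ ∧ lf (a₂ * n + b₂ * d) = s₂
          then (1 : ℝ) else 0) - 1 / 8 : ℝ) : ℂ)
        = (1 / 8 : ℂ) * ((s₀ : ℂ) * Z true false false d + (s₁ : ℂ) * Z false true false d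
          + (s₂ : ℂ) * Z false false true d + (s₀ : ℂ) * s₁ * Z true true false d
          + (s₀ : ℂ) * s₂ * Z true false true d + (s₁ : ℂ) * s₂ * Z false true true d
          + (s₀ : ℂ) * s₁ * s₂ * Z true true true d) := by
      simp only [hZ, Finset.mul_sum, ← Finset.sum_add_distrib]
      refine Finset.sum_congr rfl fun n _ => ?_
      have h3 : (if lf (a₀ * n + b₀ * d) = s₀ ∧ lf (a₁ * n + b₁ * d) = s₁ ∧ lf (a₂ * n + b₂ * d) = s₂
          then (1 : ℝ) else 0) = (if lf (a₀ * n + b₀ * d) = s₀ then (1 : ℝ) else 0)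
            * (if lf (a₁ * n + b₁ * d) = s₁ then (1 : ℝ) else 0)
            * (if lf (a₂ * n + b₂ * d) = s₂ then (1 : ℝ) else 0) := ind3 _ _ _
      rw [h3, sgn_ind _ (lf_or _) _ hs₀, sgn_ind _ (lf_or _) _ hs₁, sgn_ind _ (lf_or _) _ hs₂]
      simp only [ph, if_true, Bool.false_eq_true, if_false, one_mul, mul_one]
      push_cast
      ring
    rw [h2, norm_mul]
    have h4 : ‖(1 / 8 : ℂ)‖ = 1 / 8 := by norm_num
    rw [h4]
    refine mul_le_mul_of_nonneg_left ?_ (by norm_num)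
    have n0 := hone s₀ hs₀
    have n1 := hone s₁ hs₁
    have n2 := hone s₂ hs₂
    refine (norm_add_le _ _).trans ?_
    refine add_le_add ((norm_add_le _ _).trans ?_) (by rw [norm_mul, norm_mul, norm_mul, n0, n1, n2]; simp)
    refine add_le_add ((norm_add_le _ _).trans ?_) (by rw [norm_mul, norm_mul, n1, n2]; simp)
    refine add_le_add ((norm_add_le _ _).trans ?_) (by rw [norm_mul, norm_mul, n0, n2]; simp)
    refine add_le_add ((norm_add_le _ _).trans ?_) (by rw [norm_mul, norm_mul, n0, n1]; simp)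
    refine add_le_add ((norm_add_le _ _).trans ?_) (by rw [norm_mul, n2]; simp)
    refine add_le_add ?_ ?_
    · rw [norm_mul, n0]; simp
    · rw [norm_mul, n1]; simp
  refine (Finset.sum_le_sum h1).trans ?_
  rw [← Finset.mul_sum]
  simp only [Finset.sum_add_distrib]
  have hnn : 0 ≤ ε * ((x : ℝ) * D) := by positivity
  linarith

end Pool.Agent.N675.A3
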