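import Mathlib
import Pool.Agent.N675.A3.Pat

/-! Sign patterns of four terms in progression along dilates. -/

namespace Pool.Agent.N675.A3

open Finset

/-- products of some of four terms in progression -/
noncomputable def Z4 (x : ℕ) (c₀ c₁ c₂ c₃ : Bool) (d : ℕ) : ℝ :=
  ∑ n ∈ Icc 1 x, ph c₀ n * ph c₁ (n + d) * ph c₂ (n + 2 * d) * ph c₃ (n + 3 * d)

/-- smallness of the average over the dilates -/
def Sm (F : ℕ → ℕ → ℝ) : Prop := ∀ ε : ℝ, 0 < ε → ∃ K : ℕ, 0 < K ∧ ∀ D x : ℕ, K ≤ D → K * D ≤ x →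
  ∑ d ∈ Icc 1 D, |F x d| ≤ ε * (x * D)

lemma Sm_abs {F : ℕ → ℕ → ℝ} (hF : Sm F) : Sm (fun x d => |F x d|) := by
  intro ε hε
  obtain ⟨K₁, hK₁, h1⟩ := hF ε hε
  refine ⟨K₁, hK₁, fun D x hD hx => ?_⟩
  simpa only [abs_abs] using h1 D x hD hx

lemma Sm_add {F G : ℕ → ℕ → ℝ} (hF : Sm F) (hF0 : ∀ x d, 0 ≤ F x d) (hG : Sm G) :
    Sm (fun x d => F x d + |G x d|) := by
  intro ε hε
  obtain ⟨K₁, hK₁, h1⟩ := hF (ε / 2) (by positivity)
  obtain ⟨K₂, hK₂, h2⟩ := hG (ε / 2) (by positivity)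
  refine ⟨K₁ + K₂, by omega, fun D x hD hx => ?_⟩
  have hx' : K₁ * D + K₂ * D ≤ x := by rw [← add_mul]; exact hx
  have e1 := h1 D x (by omega) (by omega)
  have e2 := h2 D x (by omega) (by omega)
  have e3 : ∀ d ∈ Icc 1 D, |(F x d + |G x d|)| = |F x d| + |G x d| := fun d _ => by
    rw [abs_of_nonneg (add_nonneg (hF0 x d) (abs_nonneg _)), abs_of_nonneg (hF0 x d)]
  rw [Finset.sum_congr rfl e3, Finset.sum_add_distrib]
  linarith

lemma Sm_gen (hT1 : S_T1) (hT2 : S_T2) (hT3 : S_T3) (b₀ b₁ b₂ : ℕ) (h01 : b₀ ≠ b₁) (h12 : b₁ ≠ b₂)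
    (h02 : b₀ ≠ b₂) (c₀ c₁ c₂ : Bool) (hc : ¬ (c₀ = false ∧ c₁ = false ∧ c₂ = false)) :
    Sm (fun x d => ∑ n ∈ Icc 1 x, ph c₀ (n + b₀ * d) * ph c₁ (n + b₁ * d) * ph c₂ (n + b₂ * d)) := by
  intro ε hε
  obtain ⟨K, hK, h⟩ := monic_c hT1 hT2 hT3 b₀ b₁ b₂ h01 h12 h02 c₀ c₁ c₂ hc ε hε
  refine ⟨K, hK, fun D x hD hx => ?_⟩
  have h1 := h D x hD hx 0
  refine le_trans (le_of_eq ?_) h1
  refine Finset.sum_congr rfl fun d _ => ?_
  have e : ∑ n ∈ Icc 1 x, eR (0 * n) * ((ph c₀ (n + b₀ * d) * ph c₁ (n + b₁ * d)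
      * ph c₂ (n + b₂ * d) : ℝ) : ℂ)
      = ((∑ n ∈ Icc 1 x, ph c₀ (n + b₀ * d) * ph c₁ (n + b₁ * d) * ph c₂ (n + b₂ * d) : ℝ) : ℂ) := by
    push_cast
    refine Finset.sum_congr rfl fun n _ => ?_
    rw [zero_mul]
    have : eR 0 = 1 := by unfold eR; simp
    rw [this, one_mul]
  rw [e, Complex.norm_real, Real.norm_eq_abs]

lemma Sm_Z4 (hT1 : S_T1) (hT2 : S_T2) (hT3 : S_T3) (c₀ c₁ c₂ c₃ : Bool)
    (hc : ¬ (c₀ = false ∧ c₁ = false ∧ c₂ = false ∧ c₃ = false))
    (hc' : ¬ (c₀ = true ∧ c₁ = true ∧ c₂ = true ∧ c₃ = true)) :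
    Sm (fun x d => Z4 x c₀ c₁ c₂ c₃ d) := by
  unfold Z4
  cases c₀
  · have := Sm_gen hT1 hT2 hT3 1 2 3 (by norm_num) (by norm_num) (by norm_num) c₁ c₂ c₃ (by tauto)
    simpa only [ph, Bool.false_eq_true, if_false, one_mul] using this
  cases c₁
  · have := Sm_gen hT1 hT2 hT3 0 2 3 (by norm_num) (by norm_num) (by norm_num) true c₂ c₃ (by tauto)
    simpa only [ph, Bool.false_eq_true, if_false, one_mul, mul_one, zero_mul, add_zero] using this
  cases c₂
  · have := Sm_gen hT1 hT2 hT3 0 1 3 (by norm_num) (by norm_num) (by norm_num) true true c₃ (by tauto)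
    simpa only [ph, Bool.false_eq_true, if_false, one_mul, mul_one, zero_mul, add_zero] using this
  cases c₃
  · have := Sm_gen hT1 hT2 hT3 0 1 2 (by norm_num) (by norm_num) (by norm_num) true true true (by tauto)
    simpa only [ph, Bool.false_eq_true, if_false, one_mul, mul_one, zero_mul, add_zero] using this
  · exact absurd ⟨rfl, rfl, rfl, rfl⟩ hc'

lemma Sm_04 : Sm (fun x d => ∑ n ∈ Icc 1 x, lf n * lf (n + 4 * d)) := by
  intro ε hε
  obtain ⟨K, hK, h⟩ := two_base 4 (by norm_num) ε hε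
  refine ⟨K, hK, fun D x hD hx => ?_⟩
  have h1 := h D x hD hx 0
  refine le_trans (le_of_eq ?_) h1
  refine Finset.sum_congr rfl fun d _ => ?_
  have e : ∑ n ∈ Icc 1 x, eR (0 * n) * ((lf n * lf (n + 4 * d) : ℝ) : ℂ)
      = ((∑ n ∈ Icc 1 x, lf n * lf (n + 4 * d) : ℝ) : ℂ) := by
    push_cast
    refine Finset.sum_congr rfl fun n _ => ?_
    rw [zero_mul]
    have : eR 0 = 1 := by unfold eR; simp
    rw [this, one_mul]
  rw [e, Complex.norm_real, Real.norm_eq_abs]

/-- the product of four terms in progression -/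
noncomputable def A4 (d n : ℕ) : ℝ := lf n * lf (n + d) * lf (n + 2 * d) * lf (n + 3 * d)

lemma A4_or (d n : ℕ) : A4 d n = 1 ∨ A4 d n = -1 := by
  unfold A4
  rcases lf_or n with h | h <;> rcases lf_or (n + d) with h' | h' <;>
    rcases lf_or (n + 2 * d) with h'' | h'' <;> rcases lf_or (n + 3 * d) with h''' | h''' <;>
    rw [h, h', h'', h'''] <;> norm_num

/-- the four point correlation is at most one half -/
lemma A4_half (x d : ℕ) :
    |∑ n ∈ Icc 1 x, A4 d n| ≤ x / 2 + |∑ n ∈ Icc 1 x, lf n * lf (n + 4 * d)| / 2 + d := by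
  set S : ℝ := ∑ n ∈ Icc 1 x, A4 d n with hS
  set S' : ℝ := ∑ n ∈ Icc 1 x, lf n * lf (n + 4 * d) with hS'
  have hsh := shift_le x d 1 (fun n => A4 d n) (fun n => by
    rw [Real.norm_eq_abs]
    rcases A4_or d n with h | h <;> rw [h] <;> norm_num)
  rw [← hS, Real.norm_eq_abs, abs_le] at hsh
  have hprod : ∀ n, A4 d n * A4 d (n + d) = lf n * lf (n + 4 * d) := by
    intro n
    unfold A4
    have e1 : n + d + d = n + 2 * d := by ring
    have e2 : n + d + 2 * d = n + 3 * d := by ring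
    have e3 : n + d + 3 * d = n + 4 * d := by ring
    rw [e1, e2, e3]
    have hsq : ∀ m, lf m * lf m = 1 := by
      intro m
      rcases lf_or m with h | h <;> rw [h] <;> norm_num
    calc _ = (lf (n + d) * lf (n + d)) * (lf (n + 2 * d) * lf (n + 2 * d))
          * (lf (n + 3 * d) * lf (n + 3 * d)) * (lf n * lf (n + 4 * d)) := by ring
      _ = _ := by rw [hsq, hsq, hsq]; ring
  have hcount : ∑ _n ∈ Icc 1 x, (1 : ℝ) = x := by simp
  have key : ∀ σ : ℝ, (σ = 1 ∨ σ = -1) → x - S' ≤ (x - σ * S) + (x - σ * ∑ n ∈ Icc 1 x, A4 d (n + d)) := by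
    intro σ hσ
    have h1 : ∀ n ∈ Icc 1 x, 1 - lf n * lf (n + 4 * d)
        ≤ (1 - σ * A4 d n) + (1 - σ * A4 d (n + d)) := by
      intro n _
      rw [← hprod]
      rcases hσ with h | h <;> rcases A4_or d n with h' | h' <;>
        rcases A4_or d (n + d) with h'' | h'' <;> rw [h, h', h''] <;> norm_num
    have h2 := Finset.sum_le_sum h1
    simp only [Finset.sum_sub_distrib, Finset.sum_add_distrib, ← Finset.mul_sum, hcount] at h2
    exact h2
  have k1 := key 1 (Or.inl rfl)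
  have k2 := key (-1) (Or.inr rfl)
  have h3 := neg_abs_le S'
  have h4 := le_abs_self S'
  rw [abs_le]
  constructor <;> linarith [hsh.1, hsh.2]

/-- the number of occurrences of a sign pattern -/
lemma count4 (x d : ℕ) (s₀ s₁ s₂ s₃ : ℝ) (hs₀ : s₀ = 1 ∨ s₀ = -1) (hs₁ : s₁ = 1 ∨ s₁ = -1)
    (hs₂ : s₂ = 1 ∨ s₂ = -1) (hs₃ : s₃ = 1 ∨ s₃ = -1) (W : ℝ)
    (hW : |Z4 x true false false false d| + |Z4 x false true false false d|
      + |Z4 x false false true false d| + |Z4 x false false false true d|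
      + |Z4 x true true false false d| + |Z4 x true false true false d|
      + |Z4 x true false false true d| + |Z4 x false true true false d|
      + |Z4 x false true false true d| + |Z4 x false false true true d|
      + |Z4 x true true true false d| + |Z4 x true true false true d|
      + |Z4 x true false true true d| + |Z4 x false true true true d| ≤ W) :
    (x : ℝ) / 16 - (W + |∑ n ∈ Icc 1 x, A4 d n|) / 16
      ≤ (((Icc 1 x).filter (fun n => lf n = s₀ ∧ lf (n + d) = s₁ ∧ lf (n + 2 * d) = s₂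
        ∧ lf (n + 3 * d) = s₃)).card : ℝ) := by
  have h1 : (((Icc 1 x).filter (fun n => lf n = s₀ ∧ lf (n + d) = s₁ ∧ lf (n + 2 * d) = s₂
        ∧ lf (n + 3 * d) = s₃)).card : ℝ)
      = ∑ n ∈ Icc 1 x, (1 + s₀ * lf n) / 2 * ((1 + s₁ * lf (n + d)) / 2)
        * ((1 + s₂ * lf (n + 2 * d)) / 2) * ((1 + s₃ * lf (n + 3 * d)) / 2) := by
    rw [Finset.card_eq_sum_ones, Finset.sum_filter]
    push_cast
    refine Finset.sum_congr rfl fun n _ => ?_
    have hind : ∀ (u s : ℝ), (u = 1 ∨ u = -1) → (s = 1 ∨ s = -1) →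
        (u = s ∧ (1 + s * u) / 2 = 1) ∨ (u ≠ s ∧ (1 + s * u) / 2 = 0) := by
      intro u s hu hs
      rcases hu with h | h <;> rcases hs with h' | h' <;> rw [h, h'] <;> norm_num
    rcases hind _ _ (lf_or n) hs₀ with ⟨e0, v0⟩ | ⟨e0, v0⟩
    · rcases hind _ _ (lf_or (n + d)) hs₁ with ⟨e1, v1⟩ | ⟨e1, v1⟩
      · rcases hind _ _ (lf_or (n + 2 * d)) hs₂ with ⟨e2, v2⟩ | ⟨e2, v2⟩
        · rcases hind _ _ (lf_or (n + 3 * d)) hs₃ with ⟨e3, v3⟩ | ⟨e3, v3⟩
          · rw [if_pos ⟨e0, e1, e2, e3⟩, v0, v1, v2, v3]; norm_num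
          · rw [if_neg (fun h => e3 h.2.2.2), v3, mul_zero]
        · rw [if_neg (fun h => e2 h.2.2.1), v2, mul_zero, zero_mul]
      · rw [if_neg (fun h => e1 h.2.1), v1, mul_zero, zero_mul, zero_mul]
    · rw [if_neg (fun h => e0 h.1), v0, zero_mul, zero_mul, zero_mul]
  have h2 : ∑ n ∈ Icc 1 x, (1 + s₀ * lf n) / 2 * ((1 + s₁ * lf (n + d)) / 2)
        * ((1 + s₂ * lf (n + 2 * d)) / 2) * ((1 + s₃ * lf (n + 3 * d)) / 2)
      = (1 / 16) * (x + s₀ * Z4 x true false false false d + s₁ * Z4 x false true false false d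
      + s₂ * Z4 x false false true false d + s₃ * Z4 x false false false true d
      + s₀ * s₁ * Z4 x true true false false d + s₀ * s₂ * Z4 x true false true false d
      + s₀ * s₃ * Z4 x true false false true d + s₁ * s₂ * Z4 x false true true false d
      + s₁ * s₃ * Z4 x false true false true d + s₂ * s₃ * Z4 x false false true true d
      + s₀ * s₁ * s₂ * Z4 x true true true false d + s₀ * s₁ * s₃ * Z4 x true true false true d
      + s₀ * s₂ * s₃ * Z4 x true false true true d + s₁ * s₂ * s₃ * Z4 x false true true true d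
      + s₀ * s₁ * s₂ * s₃ * ∑ n ∈ Icc 1 x, A4 d n) := by
    have hcount : (x : ℝ) = ∑ _n ∈ Icc 1 x, (1 : ℝ) := by simp
    rw [hcount]
    unfold Z4 A4
    simp only [Finset.mul_sum, ← Finset.sum_add_distrib]
    refine Finset.sum_congr rfl fun n _ => ?_
    simp only [ph, if_true, Bool.false_eq_true, if_false, one_mul, mul_one]
    ring
  rw [h1, h2]
  have hb : ∀ s z : ℝ, (s = 1 ∨ s = -1) → -|z| ≤ s * z := by
    intro s z hs
    rcases hs with h | h
    · rw [h, one_mul]; exact neg_abs_le z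
    · rw [h, neg_one_mul]; linarith [le_abs_self z]
  have hm : ∀ s t : ℝ, (s = 1 ∨ s = -1) → (t = 1 ∨ t = -1) → (s * t = 1 ∨ s * t = -1) := by
    intro s t hs ht
    rcases hs with h | h <;> rcases ht with h' | h' <;> rw [h, h'] <;> norm_num
  have p01 := hm _ _ hs₀ hs₁
  have p02 := hm _ _ hs₀ hs₂
  have p03 := hm _ _ hs₀ hs₃
  have p12 := hm _ _ hs₁ hs₂
  have p13 := hm _ _ hs₁ hs₃
  have p23 := hm _ _ hs₂ hs₃
  have p012 := hm _ _ p01 hs₂
  have p013 := hm _ _ p01 hs₃
  have p023 := hm _ _ p02 hs₃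
  have p123 := hm _ _ p12 hs₃
  have p0123 := hm _ _ p012 hs₃
  have q0 := hb _ (Z4 x true false false false d) hs₀
  have q1 := hb _ (Z4 x false true false false d) hs₁
  have q2 := hb _ (Z4 x false false true false d) hs₂
  have q3 := hb _ (Z4 x false false false true d) hs₃
  have q4 := hb _ (Z4 x true true false false d) p01
  have q5 := hb _ (Z4 x true false true false d) p02
  have q6 := hb _ (Z4 x true false false true d) p03
  have q7 := hb _ (Z4 x false true true false d) p12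
  have q8 := hb _ (Z4 x false true false true d) p13
  have q9 := hb _ (Z4 x false false true true d) p23
  have q10 := hb _ (Z4 x true true true false d) p012
  have q11 := hb _ (Z4 x true true false true d) p013
  have q12 := hb _ (Z4 x true false true true d) p023
  have q13 := hb _ (Z4 x false true true true d) p123
  have q14 := hb _ (∑ n ∈ Icc 1 x, A4 d n) p0123
  linarith

open Classical in
theorem four_patterns (hT1 : S_T1) (hT2 : S_T2) (hT3 : S_T3) (ε : ℝ) (hε : 0 < ε) :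
    ∃ K : ℕ, 0 < K ∧ ∀ D x : ℕ, K ≤ D → K * D ≤ x →
      (((Icc 1 D).filter (fun d => ∃ s₀ s₁ s₂ s₃ : ℝ, (s₀ = 1 ∨ s₀ = -1) ∧ (s₁ = 1 ∨ s₁ = -1) ∧
        (s₂ = 1 ∨ s₂ = -1) ∧ (s₃ = 1 ∨ s₃ = -1) ∧
        (((Icc 1 x).filter (fun n => lf n = s₀ ∧ lf (n + d) = s₁ ∧ lf (n + 2 * d) = s₂
        ∧ lf (n + 3 * d) = s₃)).card : ℝ) < (1 / 32 - ε) * x)).card : ℝ) ≤ ε * D := by
  classical
  have z := fun c₀ c₁ c₂ c₃ hc hc' => Sm_Z4 hT1 hT2 hT3 c₀ c₁ c₂ c₃ hc hc'
  have a1 := Sm_abs (z true false false false (by simp) (by simp))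
  have a2 := Sm_add a1 (fun x d => by positivity) (z false true false false (by simp) (by simp))
  have a3 := Sm_add a2 (fun x d => by positivity) (z false false true false (by simp) (by simp))
  have a4 := Sm_add a3 (fun x d => by positivity) (z false false false true (by simp) (by simp))
  have a5 := Sm_add a4 (fun x d => by positivity) (z true true false false (by simp) (by simp))
  have a6 := Sm_add a5 (fun x d => by positivity) (z true false true false (by simp) (by simp))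
  have a7 := Sm_add a6 (fun x d => by positivity) (z true false false true (by simp) (by simp))
  have a8 := Sm_add a7 (fun x d => by positivity) (z false true true false (by simp) (by simp))
  have a9 := Sm_add a8 (fun x d => by positivity) (z false true false true (by simp) (by simp))
  have a10 := Sm_add a9 (fun x d => by positivity) (z false false true true (by simp) (by simp))
  have a11 := Sm_add a10 (fun x d => by positivity) (z true true true false (by simp) (by simp))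
  have a12 := Sm_add a11 (fun x d => by positivity) (z true true false true (by simp) (by simp))
  have a13 := Sm_add a12 (fun x d => by positivity) (z true false true true (by simp) (by simp))
  have a14 := Sm_add a13 (fun x d => by positivity) (z false true true true (by simp) (by simp))
  have hall := Sm_add a14 (fun x d => by positivity) Sm_04
  obtain ⟨K, hK, h⟩ := hall (ε * ε) (by positivity)
  obtain ⟨K₂, hK₂⟩ := exists_nat_ge (1 / ε : ℝ)
  refine ⟨K + K₂, by omega, fun D x hD hx => ?_⟩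
  have hx' : K * D + K₂ * D ≤ x := by rw [← add_mul]; exact hx
  have hDpos : 0 < D := by omega
  have hxpos : 0 < x := by
    have : 0 < K * D := Nat.mul_pos hK hDpos
    omega
  have hD0 : (0 : ℝ) < D := by exact_mod_cast hDpos
  have hx0 : (0 : ℝ) < x := by exact_mod_cast hxpos
  have h1 := h D x (by omega) (by omega)
  set F : ℕ → ℝ := fun d => |Z4 x true false false false d| + |Z4 x false true false false d|
      + |Z4 x false false true false d| + |Z4 x false false false true d|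
      + |Z4 x true true false false d| + |Z4 x true false true false d|
      + |Z4 x true false false true d| + |Z4 x false true true false d|
      + |Z4 x false true false true d| + |Z4 x false false true true d|
      + |Z4 x true true true false d| + |Z4 x true true false true d|
      + |Z4 x true false true true d| + |Z4 x false true true true d|
      + |∑ n ∈ Icc 1 x, lf n * lf (n + 4 * d)| with hF
  have hF0 : ∀ d, 0 ≤ F d := fun d => by simp only [hF]; positivity
  have h1' : ∑ d ∈ Icc 1 D, F d ≤ ε * ε * (x * D) := by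
    refine le_trans (le_of_eq ?_) h1
    refine Finset.sum_congr rfl fun d _ => ?_
    exact (abs_of_nonneg (hF0 d)).symm
  -- the exceptional dilates have large `F`
  have h2 : ∀ d ∈ (Icc 1 D).filter (fun d => ∃ s₀ s₁ s₂ s₃ : ℝ, (s₀ = 1 ∨ s₀ = -1) ∧
        (s₁ = 1 ∨ s₁ = -1) ∧ (s₂ = 1 ∨ s₂ = -1) ∧ (s₃ = 1 ∨ s₃ = -1) ∧
        (((Icc 1 x).filter (fun n => lf n = s₀ ∧ lf (n + d) = s₁ ∧ lf (n + 2 * d) = s₂
        ∧ lf (n + 3 * d) = s₃)).card : ℝ) < (1 / 32 - ε) * x), ε * x ≤ F d := by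
    intro d hd
    rw [mem_filter, mem_Icc] at hd
    obtain ⟨⟨hd1, hd2⟩, s₀, s₁, s₂, s₃, hs₀, hs₁, hs₂, hs₃, hlt⟩ := hd
    by_contra hcon
    push Not at hcon
    have e1 := count4 x d s₀ s₁ s₂ s₃ hs₀ hs₁ hs₂ hs₃ _ (le_refl _)
    have e2 := A4_half x d
    have e3 : (d : ℝ) ≤ ε * x := by
      have e4 : ((K₂ * D : ℕ) : ℝ) ≤ x := by exact_mod_cast (by omega : K₂ * D ≤ x)
      push_cast at e4
      have e5 : (d : ℝ) ≤ D := by exact_mod_cast hd2
      rw [div_le_iff₀ hε] at hK₂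
      have e6 := mul_le_mul_of_nonneg_right hK₂ hD0.le
      have e7 := mul_le_mul_of_nonneg_left e4 hε.le
      nlinarith
    simp only [hF] at hcon
    have e5 : 0 ≤ |∑ n ∈ Icc 1 x, lf n * lf (n + 4 * d)| := abs_nonneg _
    have e6 : 0 ≤ |Z4 x true false false false d| + |Z4 x false true false false d|
      + |Z4 x false false true false d| + |Z4 x false false false true d|
      + |Z4 x true true false false d| + |Z4 x true false true false d|
      + |Z4 x true false false true d| + |Z4 x false true true false d|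
      + |Z4 x false true false true d| + |Z4 x false false true true d|
      + |Z4 x true true true false d| + |Z4 x true true false true d|
      + |Z4 x true false true true d| + |Z4 x false true true true d| := by positivity
    linarith
  have h3 : (((Icc 1 D).filter (fun d => ∃ s₀ s₁ s₂ s₃ : ℝ, (s₀ = 1 ∨ s₀ = -1) ∧
        (s₁ = 1 ∨ s₁ = -1) ∧ (s₂ = 1 ∨ s₂ = -1) ∧ (s₃ = 1 ∨ s₃ = -1) ∧
        (((Icc 1 x).filter (fun n => lf n = s₀ ∧ lf (n + d) = s₁ ∧ lf (n + 2 * d) = s₂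
        ∧ lf (n + 3 * d) = s₃)).card : ℝ) < (1 / 32 - ε) * x)).card : ℝ) * (ε * x)
      ≤ ∑ d ∈ Icc 1 D, F d := by
    calc _ = ∑ _d ∈ (Icc 1 D).filter (fun d => ∃ s₀ s₁ s₂ s₃ : ℝ, (s₀ = 1 ∨ s₀ = -1) ∧
        (s₁ = 1 ∨ s₁ = -1) ∧ (s₂ = 1 ∨ s₂ = -1) ∧ (s₃ = 1 ∨ s₃ = -1) ∧
        (((Icc 1 x).filter (fun n => lf n = s₀ ∧ lf (n + d) = s₁ ∧ lf (n + 2 * d) = s₂
        ∧ lf (n + 3 * d) = s₃)).card : ℝ) < (1 / 32 - ε) * x), ε * x := by
          rw [Finset.sum_const, nsmul_eq_mul]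
      _ ≤ _ := Finset.sum_le_sum h2
      _ ≤ _ := Finset.sum_le_sum_of_subset_of_nonneg (Finset.filter_subset _ _) fun d _ _ => hF0 d
  have h4 := h3.trans h1'
  have h5 : (0 : ℝ) < ε * x := by positivity
  have h6 : ε * ε * ((x : ℝ) * D) = (ε * D) * (ε * x) := by ring
  rw [h6] at h4
  exact le_of_mul_le_mul_right h4 h5

end Pool.Agent.N675.A3
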