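import Mathlib
import Pool.Agent.N675.A3.Stm
import Pool.Agent.N675.A3.Pre

/-! Two applications of the Cauchy-Schwarz inequality. -/

namespace Pool.Agent.N675.A3

open Finset

lemma sq_avg_le {ι : Type} (s : Finset ι) (a : ι → ℝ) : (∑ i ∈ s, a i) ^ 2 ≤ s.card * ∑ i ∈ s, a i ^ 2 := by
  have h := Finset.sum_mul_sq_le_sq_mul_sq s (fun _ => (1 : ℝ)) a
  simpa only [one_mul, one_pow, Finset.sum_const, nsmul_eq_mul, mul_one] using h

/-- van der Corput -/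
lemma vdc (D H : ℕ) (hD : 0 < D) (hH : 0 < H) (z : ℕ → ℂ) (hz : ∀ d, ‖z d‖ ≤ 1) :
    ‖(∑ d ∈ Icc 1 D, z d) / D‖ ^ 2
      ≤ (∑ d ∈ Icc 1 D, ‖∑ h ∈ Icc 1 H, z (d + h)‖ ^ 2) / ((H : ℝ) ^ 2 * D) + 4 * H / D := by
  have hD0 : (0 : ℝ) < D := by exact_mod_cast hD
  have hH0 : (0 : ℝ) < H := by exact_mod_cast hH
  set S : ℂ := ∑ d ∈ Icc 1 D, z d with hS
  set S' : ℂ := ∑ d ∈ Icc 1 D, ∑ h ∈ Icc 1 H, z (d + h) with hS'
  have h1 : ‖S' - H * S‖ ≤ 2 * H * H := by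
    have e : S' - H * S = ∑ h ∈ Icc 1 H, (∑ d ∈ Icc 1 D, z (d + h) - ∑ d ∈ Icc 1 D, z d) := by
      rw [hS', hS, Finset.sum_comm, Finset.sum_sub_distrib, Finset.sum_const, Nat.card_Icc,
        Nat.add_sub_cancel, nsmul_eq_mul]
    rw [e]
    refine (norm_sum_le _ _).trans ?_
    calc _ ≤ ∑ _h ∈ Icc 1 H, 2 * (H : ℝ) := by
          refine Finset.sum_le_sum fun h hh => ?_
          rw [mem_Icc] at hh
          refine (shift_le D h 1 z hz).trans ?_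
          have : (h : ℝ) ≤ H := by exact_mod_cast hh.2
          linarith
      _ = _ := by rw [Finset.sum_const, Nat.card_Icc, Nat.add_sub_cancel, nsmul_eq_mul]; ring
  have hSn : ‖S‖ ≤ D := by
    rw [hS]
    refine (norm_sum_le _ _).trans ((Finset.sum_le_sum fun d _ => hz d).trans ?_)
    simp
  have hS'n : ‖S'‖ ≤ D * H := by
    rw [hS']
    refine (norm_sum_le _ _).trans ?_
    calc _ ≤ ∑ _d ∈ Icc 1 D, (H : ℝ) := by
          refine Finset.sum_le_sum fun d _ => (norm_sum_le _ _).trans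
            ((Finset.sum_le_sum fun h _ => hz _).trans ?_)
          simp
      _ = _ := by rw [Finset.sum_const, Nat.card_Icc, Nat.add_sub_cancel, nsmul_eq_mul]
  have h2 : H * ‖S‖ ≤ ‖S'‖ + 2 * H * H := by
    have e : (H : ℂ) * S = S' - (S' - H * S) := by ring
    have := norm_sub_le S' (S' - H * S)
    rw [← e, norm_mul, Complex.norm_natCast] at this
    linarith
  have h3 : (H * ‖S‖) ^ 2 ≤ ‖S'‖ ^ 2 + 4 * H * H * (H * D) := by
    have e1 : 0 ≤ ‖S'‖ := norm_nonneg _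
    have e2 : 0 ≤ H * ‖S‖ := by positivity
    rcases le_total (H * ‖S‖) ‖S'‖ with h | h
    · have := pow_le_pow_left₀ e2 h 2
      have : 0 ≤ 4 * (H : ℝ) * H * (H * D) := by positivity
      linarith
    · have e3 : (H * ‖S‖) ^ 2 - ‖S'‖ ^ 2 = (H * ‖S‖ - ‖S'‖) * (H * ‖S‖ + ‖S'‖) := by ring
      have e4 : H * ‖S‖ + ‖S'‖ ≤ 2 * (H * D) := by nlinarith
      have e5 : (H * ‖S‖ - ‖S'‖) * (H * ‖S‖ + ‖S'‖) ≤ (2 * H * H) * (2 * (H * D)) :=
        mul_le_mul (by linarith) e4 (by positivity) (by positivity)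
      linarith
  have h4 : ‖S'‖ ^ 2 ≤ D * ∑ d ∈ Icc 1 D, ‖∑ h ∈ Icc 1 H, z (d + h)‖ ^ 2 := by
    have e1 : ‖S'‖ ≤ ∑ d ∈ Icc 1 D, ‖∑ h ∈ Icc 1 H, z (d + h)‖ := norm_sum_le _ _
    have e2 := sq_avg_le (Icc 1 D) (fun d => ‖∑ h ∈ Icc 1 H, z (d + h)‖)
    rw [Nat.card_Icc, Nat.add_sub_cancel] at e2
    exact (pow_le_pow_left₀ (norm_nonneg _) e1 2).trans e2
  rw [norm_div, Complex.norm_natCast, div_pow, div_le_iff₀ (by positivity)]
  have e : ((∑ d ∈ Icc 1 D, ‖∑ h ∈ Icc 1 H, z (d + h)‖ ^ 2) / ((H : ℝ) ^ 2 * D) + 4 * H / D) * (D : ℝ) ^ 2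
      = (D * (∑ d ∈ Icc 1 D, ‖∑ h ∈ Icc 1 H, z (d + h)‖ ^ 2) + 4 * H * H * (H * D)) / (H : ℝ) ^ 2 := by
    field_simp
  rw [e, le_div_iff₀ (by positivity)]
  calc ‖S‖ ^ 2 * (H : ℝ) ^ 2 = (H * ‖S‖) ^ 2 := by ring
    _ ≤ _ := by linarith

theorem t3 : S_T3 := by
  intro f hf b₁ b x D H hx hD hH hHD γ
  have hx0 : (0 : ℝ) < x := by exact_mod_cast hx
  have hD0 : (0 : ℝ) < D := by exact_mod_cast hD
  have hH0 : (0 : ℝ) < H := by exact_mod_cast hH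
  set T : ℕ → ℂ := fun d => TT f b₁ (b₁ + b) x γ d with hT
  have hT1 : ∀ d, ‖T d‖ ≤ 1 := by
    intro d
    simp only [hT]
    unfold TT
    rw [norm_div, Complex.norm_natCast, div_le_one hx0]
    refine (norm_sum_le _ _).trans ?_
    calc _ ≤ ∑ _n ∈ Icc 1 x, (1 : ℝ) := by
          refine Finset.sum_le_sum fun n _ => ?_
          rw [norm_mul, norm_eR, one_mul, Complex.norm_real, Real.norm_eq_abs, abs_mul, abs_mul]
          exact mul_le_one₀ (mul_le_one₀ (hf _) (abs_nonneg _) (hf _)) (abs_nonneg _) (hf _)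
      _ = x := by simp
  set c : ℕ → ℂ := fun d => (starRingEnd ℂ) (T d) with hc
  have hc1 : ∀ d, ‖c d‖ ≤ 1 := by
    intro d
    simp only [hc, RCLike.norm_conj]
    exact hT1 d
  have hcc : ∀ d d', ‖c d * (starRingEnd ℂ) (c d')‖ ≤ 1 := by
    intro d d'
    have h1 : ‖(starRingEnd ℂ) (c d')‖ = ‖c d'‖ := RCLike.norm_conj _
    rw [norm_mul, h1]
    exact mul_le_one₀ (hc1 _) (norm_nonneg _) (hc1 _)
  set z : ℕ → ℕ → ℂ := fun n d => c d * ((f (n + b₁ * d) * f (n + (b₁ + b) * d) : ℝ) : ℂ) with hz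
  have hff : ∀ m n, |f m * f n| ≤ 1 := fun m n => by
    rw [abs_mul]; exact mul_le_one₀ (hf _) (abs_nonneg _) (hf _)
  have hz1 : ∀ n d, ‖z n d‖ ≤ 1 := by
    intro n d
    simp only [hz]
    rw [norm_mul, Complex.norm_real, Real.norm_eq_abs]
    exact mul_le_one₀ (hc1 _) (abs_nonneg _) (hff _ _)
  set E : ℝ := (∑ d ∈ Icc 1 D, ‖T d‖ ^ 2) / D with hE
  have hE0 : 0 ≤ E := div_nonneg (Finset.sum_nonneg fun _ _ => by positivity) hD0.le
  -- step 1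
  have hstep1 : E ^ 2 ≤ (∑ n ∈ Icc 1 x, ‖(∑ d ∈ Icc 1 D, z n d) / D‖ ^ 2) / x := by
    have e1 : ((E : ℝ) : ℂ) = (∑ n ∈ Icc 1 x, eR (γ * n) * ((f n : ℝ) : ℂ)
        * ((∑ d ∈ Icc 1 D, z n d) / D)) / x := by
      have e2 : ∑ n ∈ Icc 1 x, eR (γ * n) * ((f n : ℝ) : ℂ) * ((∑ d ∈ Icc 1 D, z n d) / D)
          = (∑ d ∈ Icc 1 D, c d * (x * T d)) / D := by
        have e3 : ∀ n ∈ Icc 1 x, eR (γ * n) * ((f n : ℝ) : ℂ) * ((∑ d ∈ Icc 1 D, z n d) / D)
            = (∑ d ∈ Icc 1 D, eR (γ * n) * ((f n : ℝ) : ℂ) * z n d) / D := by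
          intro n _
          rw [← mul_div_assoc, Finset.mul_sum]
        rw [Finset.sum_congr rfl e3, ← Finset.sum_div, Finset.sum_comm]
        congr 1
        refine Finset.sum_congr rfl fun d _ => ?_
        have e4 : (x : ℂ) * T d = ∑ n ∈ Icc 1 x, eR (γ * n)
            * ((f n * f (n + b₁ * d) * f (n + (b₁ + b) * d) : ℝ) : ℂ) := by
          simp only [hT]
          unfold TT
          have : (x : ℂ) ≠ 0 := by exact_mod_cast hx.ne'
          field_simp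
        rw [e4, Finset.mul_sum]
        refine Finset.sum_congr rfl fun n _ => ?_
        simp only [hz]
        push_cast
        ring
      rw [e2]
      have e5 : ∀ d ∈ Icc 1 D, c d * (x * T d) = (x : ℂ) * ((‖T d‖ ^ 2 : ℝ) : ℂ) := by
        intro d _
        have e6 : ((‖T d‖ ^ 2 : ℝ) : ℂ) = T d * c d := by
          simp only [hc]
          rw [Complex.mul_conj, Complex.normSq_eq_norm_sq]
        rw [e6]; ring
      rw [Finset.sum_congr rfl e5, ← Finset.mul_sum, hE]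
      have : (x : ℂ) ≠ 0 := by exact_mod_cast hx.ne'
      push_cast
      field_simp
    have e2 : E ≤ (∑ n ∈ Icc 1 x, ‖(∑ d ∈ Icc 1 D, z n d) / D‖) / x := by
      have e3 : E = ‖((E : ℝ) : ℂ)‖ := by
        rw [Complex.norm_real, Real.norm_eq_abs, abs_of_nonneg hE0]
      rw [e3, e1, norm_div, Complex.norm_natCast]
      refine div_le_div_of_nonneg_right ((norm_sum_le _ _).trans (Finset.sum_le_sum fun n _ => ?_)) hx0.le
      rw [norm_mul, norm_mul, norm_eR, one_mul, Complex.norm_real, Real.norm_eq_abs]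
      exact mul_le_of_le_one_left (norm_nonneg _) (hf n)
    have e3 := sq_avg_le (Icc 1 x) (fun n => ‖(∑ d ∈ Icc 1 D, z n d) / D‖)
    rw [Nat.card_Icc, Nat.add_sub_cancel] at e3
    calc E ^ 2 ≤ ((∑ n ∈ Icc 1 x, ‖(∑ d ∈ Icc 1 D, z n d) / D‖) / x) ^ 2 :=
          pow_le_pow_left₀ hE0 e2 2
      _ = (∑ n ∈ Icc 1 x, ‖(∑ d ∈ Icc 1 D, z n d) / D‖) ^ 2 / (x : ℝ) ^ 2 := by rw [div_pow]
      _ ≤ (x * ∑ n ∈ Icc 1 x, ‖(∑ d ∈ Icc 1 D, z n d) / D‖ ^ 2) / (x : ℝ) ^ 2 :=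
          div_le_div_of_nonneg_right e3 (by positivity)
      _ = _ := by field_simp
  -- step 2
  set V : ℝ := ∑ n ∈ Icc 1 x, ∑ d ∈ Icc 1 D, ‖∑ h ∈ Icc 1 H, z n (d + h)‖ ^ 2 with hV
  have hstep2 : E ^ 2 ≤ V / ((H : ℝ) ^ 2 * D * x) + 4 * H / D := by
    refine hstep1.trans ?_
    rw [div_le_iff₀ hx0]
    calc _ ≤ ∑ n ∈ Icc 1 x, ((∑ d ∈ Icc 1 D, ‖∑ h ∈ Icc 1 H, z n (d + h)‖ ^ 2) / ((H : ℝ) ^ 2 * D)
          + 4 * H / D) := Finset.sum_le_sum fun n _ => vdc D H hD hH (z n) (hz1 n)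
      _ = V / ((H : ℝ) ^ 2 * D) + x * (4 * H / D) := by
          rw [Finset.sum_add_distrib, ← Finset.sum_div, Finset.sum_const, Nat.card_Icc,
            Nat.add_sub_cancel, nsmul_eq_mul]
      _ = _ := by field_simp
  -- step 3
  set G : ℕ → ℕ → ℕ → ℕ → ℝ := fun h h' d n => f (n + b₁ * h) * f (n + b₁ * h') *
    (f (n + b * d + (b₁ + b) * h) * f (n + b * d + (b₁ + b) * h')) with hG
  have hG1 : ∀ h h' d n, ‖G h h' d n‖ ≤ 1 := by
    intro h h' d n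
    simp only [hG]
    rw [Real.norm_eq_abs, abs_mul]
    exact mul_le_one₀ (hff _ _) (abs_nonneg _) (hff _ _)
  have hVe : ((V : ℝ) : ℂ) = ∑ h ∈ Icc 1 H, ∑ h' ∈ Icc 1 H, ∑ d ∈ Icc 1 D,
      c (d + h) * (starRingEnd ℂ) (c (d + h')) * ((∑ n ∈ Icc 1 x, G h h' d (n + b₁ * d) : ℝ) : ℂ) := by
    have e1 : ∀ n ∈ Icc 1 x, ∀ d ∈ Icc 1 D, ((‖∑ h ∈ Icc 1 H, z n (d + h)‖ ^ 2 : ℝ) : ℂ)
        = ∑ h ∈ Icc 1 H, ∑ h' ∈ Icc 1 H, c (d + h) * (starRingEnd ℂ) (c (d + h'))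
          * ((G h h' d (n + b₁ * d) : ℝ) : ℂ) := by
      intro n _ d _
      have e2 : ((‖∑ h ∈ Icc 1 H, z n (d + h)‖ ^ 2 : ℝ) : ℂ)
          = (∑ h ∈ Icc 1 H, z n (d + h)) * (starRingEnd ℂ) (∑ h ∈ Icc 1 H, z n (d + h)) := by
        rw [Complex.mul_conj, Complex.normSq_eq_norm_sq]
      rw [e2, map_sum, Finset.sum_mul_sum]
      refine Finset.sum_congr rfl fun h _ => Finset.sum_congr rfl fun h' _ => ?_
      simp only [hz, hG]
      rw [map_mul, Complex.conj_ofReal]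
      have a1 : n + b₁ * (d + h) = n + b₁ * d + b₁ * h := by ring
      have a2 : n + (b₁ + b) * (d + h) = n + b₁ * d + b * d + (b₁ + b) * h := by ring
      have a3 : n + b₁ * (d + h') = n + b₁ * d + b₁ * h' := by ring
      have a4 : n + (b₁ + b) * (d + h') = n + b₁ * d + b * d + (b₁ + b) * h' := by ring
      rw [a1, a2, a3, a4]
      push_cast
      ring
    rw [hV]
    push_cast
    have e3 : ∑ n ∈ Icc 1 x, ∑ d ∈ Icc 1 D, ((‖∑ h ∈ Icc 1 H, z n (d + h)‖ : ℝ) : ℂ) ^ 2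
        = ∑ n ∈ Icc 1 x, ∑ d ∈ Icc 1 D, ∑ h ∈ Icc 1 H, ∑ h' ∈ Icc 1 H,
          c (d + h) * (starRingEnd ℂ) (c (d + h')) * ((G h h' d (n + b₁ * d) : ℝ) : ℂ) := by
      refine Finset.sum_congr rfl fun n hn => Finset.sum_congr rfl fun d hd => ?_
      rw [← e1 n hn d hd]
      push_cast
      rfl
    rw [e3]
    simp only [Finset.mul_sum]
    calc _ = ∑ n ∈ Icc 1 x, ∑ h ∈ Icc 1 H, ∑ h' ∈ Icc 1 H, ∑ d ∈ Icc 1 D,
          c (d + h) * (starRingEnd ℂ) (c (d + h')) * ((G h h' d (n + b₁ * d) : ℝ) : ℂ) := by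
          refine Finset.sum_congr rfl fun n _ => ?_
          rw [Finset.sum_comm]
          refine Finset.sum_congr rfl fun h _ => ?_
          rw [Finset.sum_comm]
      _ = _ := by
          rw [Finset.sum_comm]
          refine Finset.sum_congr rfl fun h _ => ?_
          rw [Finset.sum_comm]
          refine Finset.sum_congr rfl fun h' _ => ?_
          rw [Finset.sum_comm]
  set V' : ℂ := ∑ h ∈ Icc 1 H, ∑ h' ∈ Icc 1 H, ∑ d ∈ Icc 1 D,
      c (d + h) * (starRingEnd ℂ) (c (d + h')) * ((∑ n ∈ Icc 1 x, G h h' d n : ℝ) : ℂ) with hV'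
  have hVV' : ‖((V : ℝ) : ℂ) - V'‖ ≤ H * (H * (D * (2 * (b₁ * D)))) := by
    rw [hVe, hV']
    simp only [← Finset.sum_sub_distrib, ← mul_sub]
    refine (norm_sum_le _ _).trans ?_
    calc _ ≤ ∑ _h ∈ Icc 1 H, ((H : ℝ) * (D * (2 * (b₁ * D)))) := by
          refine Finset.sum_le_sum fun h _ => (norm_sum_le _ _).trans ?_
          calc _ ≤ ∑ _h' ∈ Icc 1 H, ((D : ℝ) * (2 * (b₁ * D))) := by
                refine Finset.sum_le_sum fun h' _ => (norm_sum_le _ _).trans ?_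
                calc _ ≤ ∑ _d ∈ Icc 1 D, (2 * ((b₁ : ℝ) * D)) := by
                      refine Finset.sum_le_sum fun d hd => ?_
                      rw [mem_Icc] at hd
                      rw [norm_mul]
                      have e1 := shift_le x (b₁ * d) 1 (G h h' d) (hG1 h h' d)
                      have e2 : ‖((∑ n ∈ Icc 1 x, G h h' d (n + b₁ * d) : ℝ) : ℂ)
                          - ((∑ n ∈ Icc 1 x, G h h' d n : ℝ) : ℂ)‖ ≤ 2 * (b₁ * D) := by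
                        rw [← Complex.ofReal_sub, Complex.norm_real]
                        refine e1.trans ?_
                        push_cast
                        have : (d : ℝ) ≤ D := by exact_mod_cast hd.2
                        have := mul_le_mul_of_nonneg_left this (Nat.cast_nonneg (α := ℝ) b₁)
                        linarith
                      calc _ ≤ 1 * (2 * ((b₁ : ℝ) * D)) :=
                            mul_le_mul (hcc _ _) e2 (norm_nonneg _) zero_le_one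
                        _ = _ := one_mul _
                  _ = _ := by rw [Finset.sum_const, Nat.card_Icc, Nat.add_sub_cancel, nsmul_eq_mul]
            _ = _ := by rw [Finset.sum_const, Nat.card_Icc, Nat.add_sub_cancel, nsmul_eq_mul]
      _ = _ := by rw [Finset.sum_const, Nat.card_Icc, Nat.add_sub_cancel, nsmul_eq_mul]
  -- step 4
  set W : ℕ → ℕ → ℕ → ℝ := fun h h' n => ‖(∑ d ∈ Icc 1 D, c (d + h) * (starRingEnd ℂ) (c (d + h')) *
    ((f (n + b * d + (b₁ + b) * h) * f (n + b * d + (b₁ + b) * h') : ℝ) : ℂ)) / D‖ with hW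
  have hW0 : ∀ h h' n, 0 ≤ W h h' n := fun h h' n => norm_nonneg _
  have hQQ : ∀ h h', QQ f b (b₁ + b) x D c h h' = (∑ n ∈ Icc 1 x, W h h' n ^ 2) / x :=
    fun h h' => rfl
  have hV'n : ‖V'‖ ≤ D * ∑ h ∈ Icc 1 H, ∑ h' ∈ Icc 1 H, ∑ n ∈ Icc 1 x, W h h' n := by
    rw [hV', Finset.mul_sum]
    refine (norm_sum_le _ _).trans (Finset.sum_le_sum fun h _ => ?_)
    rw [Finset.mul_sum]
    refine (norm_sum_le _ _).trans (Finset.sum_le_sum fun h' _ => ?_)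
    have e1 : ∑ d ∈ Icc 1 D, c (d + h) * (starRingEnd ℂ) (c (d + h'))
        * ((∑ n ∈ Icc 1 x, G h h' d n : ℝ) : ℂ)
        = ∑ n ∈ Icc 1 x, ((f (n + b₁ * h) * f (n + b₁ * h') : ℝ) : ℂ) *
          (D * ((∑ d ∈ Icc 1 D, c (d + h) * (starRingEnd ℂ) (c (d + h')) *
    ((f (n + b * d + (b₁ + b) * h) * f (n + b * d + (b₁ + b) * h') : ℝ) : ℂ)) / D)) := by
      have hDc : (D : ℂ) ≠ 0 := by exact_mod_cast hD.ne'
      simp only [mul_div_cancel₀ _ hDc]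
      push_cast
      simp only [Finset.mul_sum]
      rw [Finset.sum_comm]
      refine Finset.sum_congr rfl fun n _ => Finset.sum_congr rfl fun d _ => ?_
      simp only [hG]
      push_cast
      ring
    rw [e1, Finset.mul_sum]
    refine (norm_sum_le _ _).trans (Finset.sum_le_sum fun n _ => ?_)
    rw [norm_mul, norm_mul, Complex.norm_natCast, Complex.norm_real, Real.norm_eq_abs]
    exact mul_le_of_le_one_left (by positivity) (hff _ _)
  have hWs : (∑ h ∈ Icc 1 H, ∑ h' ∈ Icc 1 H, ∑ n ∈ Icc 1 x, W h h' n)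
      ≤ H * x * Real.sqrt (∑ h ∈ Icc 1 H, ∑ h' ∈ Icc 1 H, QQ f b (b₁ + b) x D c h h') := by
    have e1 := sq_avg_le (Icc 1 H ×ˢ (Icc 1 H ×ˢ Icc 1 x)) (fun q => W q.1 q.2.1 q.2.2)
    rw [Finset.sum_product, Finset.sum_product, Finset.card_product, Finset.card_product,
      Nat.card_Icc, Nat.card_Icc, Nat.add_sub_cancel, Nat.add_sub_cancel] at e1
    simp only [Finset.sum_product] at e1
    have e2 : ∑ h ∈ Icc 1 H, ∑ h' ∈ Icc 1 H, ∑ n ∈ Icc 1 x, W h h' n ^ 2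
        = x * ∑ h ∈ Icc 1 H, ∑ h' ∈ Icc 1 H, QQ f b (b₁ + b) x D c h h' := by
      rw [Finset.mul_sum]
      refine Finset.sum_congr rfl fun h _ => ?_
      rw [Finset.mul_sum]
      refine Finset.sum_congr rfl fun h' _ => ?_
      rw [hQQ]
      field_simp
    rw [e2] at e1
    have hQ0 : 0 ≤ ∑ h ∈ Icc 1 H, ∑ h' ∈ Icc 1 H, QQ f b (b₁ + b) x D c h h' := by
      refine Finset.sum_nonneg fun h _ => Finset.sum_nonneg fun h' _ => ?_
      rw [hQQ]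
      exact div_nonneg (Finset.sum_nonneg fun n _ => by positivity) hx0.le
    have e3 : (∑ h ∈ Icc 1 H, ∑ h' ∈ Icc 1 H, ∑ n ∈ Icc 1 x, W h h' n) ^ 2
        ≤ (H * x * Real.sqrt (∑ h ∈ Icc 1 H, ∑ h' ∈ Icc 1 H, QQ f b (b₁ + b) x D c h h')) ^ 2 := by
      rw [mul_pow, Real.sq_sqrt hQ0]
      refine e1.trans (le_of_eq ?_)
      push_cast
      ring
    have hA0 : 0 ≤ ∑ h ∈ Icc 1 H, ∑ h' ∈ Icc 1 H, ∑ n ∈ Icc 1 x, W h h' n :=
      Finset.sum_nonneg fun h _ => Finset.sum_nonneg fun h' _ => Finset.sum_nonneg fun n _ =>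
        hW0 h h' n
    have hB0 : 0 ≤ H * x * Real.sqrt (∑ h ∈ Icc 1 H, ∑ h' ∈ Icc 1 H,
        QQ f b (b₁ + b) x D c h h') :=
      mul_nonneg (mul_nonneg hH0.le hx0.le) (Real.sqrt_nonneg _)
    exact (pow_le_pow_iff_left₀ hA0 hB0 two_ne_zero).mp e3
  have hVn : V ≤ H * (H * (D * (2 * (b₁ * D)))) + D * (H * x *
      Real.sqrt (∑ h ∈ Icc 1 H, ∑ h' ∈ Icc 1 H, QQ f b (b₁ + b) x D c h h')) := by
    have e1 : V ≤ ‖((V : ℝ) : ℂ)‖ := by
      rw [Complex.norm_real, Real.norm_eq_abs]; exact le_abs_self V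
    have e2 : ‖((V : ℝ) : ℂ)‖ ≤ ‖((V : ℝ) : ℂ) - V'‖ + ‖V'‖ := by
      have := norm_add_le (((V : ℝ) : ℂ) - V') V'
      rwa [sub_add_cancel] at this
    have e3 := mul_le_mul_of_nonneg_left hWs hD0.le
    linarith
  have hfin : V / ((H : ℝ) ^ 2 * D * x) ≤ 2 * b₁ * D / x + Real.sqrt ((∑ h ∈ Icc 1 H, ∑ h' ∈ Icc 1 H,
      QQ f b (b₁ + b) x D c h h') / (H : ℝ) ^ 2) := by
    have e1 : Real.sqrt ((∑ h ∈ Icc 1 H, ∑ h' ∈ Icc 1 H, QQ f b (b₁ + b) x D c h h') / (H : ℝ) ^ 2)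
        = Real.sqrt (∑ h ∈ Icc 1 H, ∑ h' ∈ Icc 1 H, QQ f b (b₁ + b) x D c h h') / H := by
      rw [Real.sqrt_div' _ (by positivity), Real.sqrt_sq hH0.le]
    rw [e1, div_le_iff₀ (by positivity)]
    refine hVn.trans (le_of_eq ?_)
    field_simp
  have hb1 : 2 * (b₁ : ℝ) * D / x ≤ 4 * b₁ * D / x :=
    div_le_div_of_nonneg_right (by nlinarith [Nat.cast_nonneg (α := ℝ) b₁]) hx0.le
  linarith

end Pool.Agent.N675.A3
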